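import Pool.Agent.Work.MP_5296b6_lc.BinDefs

/-!
# A2: addition and comparison of binary numbers
-/

set_option autoImplicit false

namespace Pool.Agent.Work.MP_5296b6_lc

open Pool.Agent.PT N487b59b3

namespace A2

theorem bval_nil : bval [] = 0 := rfl

theorem bval_cons (b : Bool) (l : List Bool) : bval (b :: l) = b.toNat + 2 * bval l := rfl

theorem bval_split (l : List Bool) : bval l = (l.headD false).toNat + 2 * bval l.tail := by
  cases l with
  | nil => rfl
  | cons b l => rfl

theorem bval_append (l m : List Bool) : bval (l ++ m) = bval l + 2 ^ l.length * bval m := by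
  induction l with
  | nil => simp [bval_nil]
  | cons b l ih =>
    rw [List.cons_append, bval_cons, bval_cons, ih, List.length_cons, pow_succ]
    ring

theorem bval_lt (l : List Bool) : bval l < 2 ^ l.length := by
  induction l with
  | nil => simp [bval_nil]
  | cons b l ih =>
    rw [bval_cons, List.length_cons, pow_succ]
    have := Bool.toNat_le b
    omega

theorem bval_take_succ (l : List Bool) (i : ℕ) :
    bval (l.take (i + 1)) = bval (l.take i) + 2 ^ i * ((l.drop i).headD false).toNat := by
  induction l generalizing i with
  | nil => simp [bval_nil]
  | cons b l ih =>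
    cases i with
    | zero => simp [bval_cons, bval_nil]
    | succ i =>
      rw [List.take_succ_cons, List.take_succ_cons, bval_cons, bval_cons, ih i,
        List.drop_succ_cons, pow_succ]
      ring

theorem bval_take_lt (l : List Bool) (i : ℕ) : bval (l.take i) < 2 ^ i := by
  refine (bval_lt _).trans_le ?_
  exact Nat.pow_le_pow_right (by norm_num) (by rw [List.length_take]; exact Nat.min_le_left _ _)

/-- State of the ripple carry adder: carry, the rests, the output reversed. -/
abbrev St := Bool × ((List Bool × List Bool) × List Bool)

/-- One step of the adder. -/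
def addStep (s : St) : St :=
  (((s.2.1.1.headD false && s.2.1.2.headD false) || (s.2.1.1.headD false && s.1)) ||
    (s.2.1.2.headD false && s.1),
    ((s.2.1.1.tail, s.2.1.2.tail),
      ((s.2.1.1.headD false == s.2.1.2.headD false) == s.1) :: s.2.2))

theorem addStep_ptf : PTF addStep := by
  unfold addStep
  fun_prop

theorem sz_tail_le {α : Type} [Enc α] (l : List α) : sz l.tail ≤ sz l := by
  cases l with
  | nil => simp
  | cons b l => rw [List.tail_cons, sz_cons]; omega

theorem addStep_size (s : St) : sz (addStep s) ≤ sz s + 8 := by
  obtain ⟨c, ⟨l, m⟩, o⟩ := s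
  unfold addStep
  simp only [sz_pair, sz_cons]
  have h1 := sz_tail_le l
  have h2 := sz_tail_le m
  have h3 := sz_bool (((l.headD false && m.headD false) || (l.headD false && c)) ||
    (m.headD false && c))
  have h4 := sz_bool ((l.headD false == m.headD false) == c)
  have h5 := sz_pos c
  omega

theorem add_inv (l m : List Bool) (i : ℕ) :
    ∃ (c : Bool) (o : List Bool), addStep^[i] (false, ((l, m), [])) =
      (c, ((l.drop i, m.drop i), o)) ∧ o.length = i ∧
      bval o.reverse + 2 ^ i * (c.toNat + bval (l.drop i) + bval (m.drop i)) =
        bval l + bval m := by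
  induction i with
  | zero => exact ⟨false, [], rfl, rfl, by simp [bval_nil]⟩
  | succ i ih =>
    obtain ⟨c, o, h1, h2, h3⟩ := ih
    refine ⟨((((l.drop i).headD false && (m.drop i).headD false) ||
      ((l.drop i).headD false && c)) || ((m.drop i).headD false && c)),
      (((l.drop i).headD false == (m.drop i).headD false) == c) :: o, ?_, ?_, ?_⟩
    · rw [Function.iterate_succ_apply', h1]
      unfold addStep
      simp only [List.tail_drop]
    · rw [List.length_cons, h2]
    · rw [List.reverse_cons, bval_append, List.length_reverse, h2, ← h3,
        bval_split (l.drop i), bval_split (m.drop i), List.tail_drop, List.tail_drop, pow_succ]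
      generalize (l.drop i).headD false = a
      generalize (m.drop i).headD false = b
      generalize bval (l.drop (i + 1)) = x
      generalize bval (m.drop (i + 1)) = y
      cases a <;> cases b <;> cases c <;> simp [bval_cons, bval_nil] <;> ring

/-- Addition. -/
def badd (p : List Bool × List Bool) : List Bool :=
  (addStep^[p.1.length + p.2.length] (false, (p, []))).2.2.reverse ++
    [(addStep^[p.1.length + p.2.length] (false, (p, []))).1]

theorem badd_ptf : PTF badd := by
  have hit : PTF (fun p : List Bool × List Bool =>
      (fun s => addStep s)^[p.1.length + p.2.length]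
        ((false, (p, ([] : List Bool))) : St)) := by
    refine PTF.nat_iterate_add (n := fun p : List Bool × List Bool => p.1.length + p.2.length)
      (init := fun p => ((false, (p, ([] : List Bool))) : St))
      (step := fun q : (List Bool × List Bool) × St => addStep q.2) (by fun_prop) (by fun_prop)
      (addStep_ptf.comp PTF.snd) (fun _ => 8) (PB.const 8) (fun a s => addStep_size s)
  unfold badd
  fun_prop

theorem badd_val (p : List Bool × List Bool) : bval (badd p) = bval p.1 + bval p.2 := by
  obtain ⟨l, m⟩ := p
  unfold badd
  obtain ⟨c, o, h1, h2, h3⟩ := add_inv l m (l.length + m.length)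
  simp only
  rw [h1]
  simp only
  have e1 : l.drop (l.length + m.length) = [] := List.drop_eq_nil_of_le (by omega)
  have e2 : m.drop (l.length + m.length) = [] := List.drop_eq_nil_of_le (by omega)
  rw [e1, e2, bval_nil] at h3
  rw [bval_append, List.length_reverse, h2, ← h3, bval_cons, bval_nil]

/-- State of the comparison. -/
abbrev Sc := Bool × (List Bool × List Bool)

/-- One step of the comparison, least significant bit first. -/
def cmpStep (s : Sc) : Sc :=
  (((s.2.1.headD false == s.2.2.headD false) && s.1) ||
    (!s.2.1.headD false && s.2.2.headD false), (s.2.1.tail, s.2.2.tail))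

theorem cmpStep_ptf : PTF cmpStep := by
  unfold cmpStep
  fun_prop

theorem cmpStep_size (s : Sc) : sz (cmpStep s) ≤ sz s + 3 := by
  obtain ⟨c, l, m⟩ := s
  unfold cmpStep
  simp only [sz_pair]
  have h1 := sz_tail_le l
  have h2 := sz_tail_le m
  have h3 := sz_bool (((l.headD false == m.headD false) && c) ||
    (!l.headD false && m.headD false))
  have h5 := sz_pos c
  omega

theorem cmp_inv (l m : List Bool) (i : ℕ) :
    cmpStep^[i] (true, (l, m)) =
      (decide (bval (l.take i) ≤ bval (m.take i)), (l.drop i, m.drop i)) := by
  induction i with
  | zero => simp [bval_nil]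
  | succ i ih =>
    rw [Function.iterate_succ_apply', ih]
    unfold cmpStep
    simp only [List.tail_drop]
    refine Prod.ext ?_ rfl
    simp only
    rw [bval_take_succ, bval_take_succ]
    have hl := bval_take_lt l i
    have hm := bval_take_lt m i
    generalize (l.drop i).headD false = a
    generalize (m.drop i).headD false = b
    generalize bval (l.take i) = x at *
    generalize bval (m.take i) = y at *
    generalize 2 ^ i = N at *
    cases a <;> cases b <;> simp <;> omega

theorem ble_ptf : PTF (fun p : List Bool × List Bool => decide (bval p.1 ≤ bval p.2)) := by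
  have hit : PTF (fun p : List Bool × List Bool =>
      (fun s => cmpStep s)^[p.1.length + p.2.length] ((true, p) : Sc)) := by
    refine PTF.nat_iterate_add (n := fun p : List Bool × List Bool => p.1.length + p.2.length)
      (init := fun p => ((true, p) : Sc))
      (step := fun q : (List Bool × List Bool) × Sc => cmpStep q.2) (by fun_prop) (by fun_prop)
      (cmpStep_ptf.comp PTF.snd) (fun _ => 3) (PB.const 3) (fun a s => cmpStep_size s)
  refine (PTF.fst.comp hit).congr fun p => ?_
  obtain ⟨l, m⟩ := p
  have h := cmp_inv l m (l.length + m.length)
  simp only
  rw [h]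
  simp only
  rw [List.take_of_length_le (by omega), List.take_of_length_le (by omega)]

theorem bval_binSucc (l : List Bool) : bval (binSucc l) = bval l + 1 := by
  induction l with
  | nil => simp [binSucc, bval_cons, bval_nil]
  | cons b l ih =>
    cases b with
    | false =>
      have : binSucc (false :: l) = true :: l := by simp [binSucc]
      rw [this, bval_cons, bval_cons]
      simp
      omega
    | true =>
      have h : (true :: l).idxOf false = l.idxOf false + 1 :=
        List.idxOf_cons_ne _ (by decide)
      have h2 : binSucc (true :: l) = false :: binSucc l := by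
        simp [binSucc, h, List.replicate_succ]
      rw [h2, bval_cons, bval_cons, ih]
      simp
      omega

theorem bval_encodeNat (n : ℕ) : bval (Computability.encodeNat n) = n := by
  induction n with
  | zero => rfl
  | succ n ih => rw [encodeNat_succ, bval_binSucc, ih]

end A2

/-- A2: addition and comparison of binary numbers. -/
theorem claimBadd : ClaimBadd :=
  ⟨⟨A2.badd, A2.badd_ptf, A2.badd_val⟩, A2.ble_ptf, A2.bval_encodeNat⟩

end Pool.Agent.Work.MP_5296b6_lc
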