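import Pool.Agent.Work.MP_5296b6_lc.BinDefs

/-!
# A3: multiplication of binary numbers in polynomial time
-/

set_option autoImplicit false

namespace Pool.Agent.Work.MP_5296b6_lc

open Pool.Agent.PT N487b59b3

namespace A3

theorem bval_lt (l : List Bool) : bval l < 2 ^ l.length := by
  induction l with
  | nil => simp [bval]
  | cons b l ih =>
    rw [bval, List.length_cons, pow_succ]
    have : b.toNat ≤ 1 := Bool.toNat_le b
    omega

theorem bval_take (l : List Bool) (k : ℕ) : bval (l.take k) = bval l % 2 ^ k := by
  induction l generalizing k with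
  | nil => simp [bval]
  | cons b l ih =>
    cases k with
    | zero => simp [bval, Nat.mod_one]
    | succ k =>
      rw [List.take_succ_cons, bval, bval, ih, pow_succ, mul_comm (2 ^ k) 2]
      have h1 : b.toNat ≤ 1 := Bool.toNat_le b
      have h2 : (b.toNat + 2 * bval l) % (2 * 2 ^ k) = b.toNat + 2 * (bval l % 2 ^ k) := by
        have h3 : bval l = 2 ^ k * (bval l / 2 ^ k) + bval l % 2 ^ k :=
          (Nat.div_add_mod _ _).symm
        have h4 : bval l % 2 ^ k < 2 ^ k := Nat.mod_lt _ (by positivity)
        have h5 : b.toNat + 2 * bval l =
            (b.toNat + 2 * (bval l % 2 ^ k)) + 2 * 2 ^ k * (bval l / 2 ^ k) := by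
          rw [mul_assoc]
          omega
        rw [h5, Nat.add_mul_mod_self_left, Nat.mod_eq_of_lt]
        omega
      exact h2.symm

/-- one step of the multiplication; `q = ((l, m), (acc, b))` -/
def step (add : List Bool × List Bool → List Bool)
    (q : (List Bool × List Bool) × (List Bool × Bool)) : List Bool :=
  (add (false :: q.2.1, if q.2.2 then q.1.2 else [])).take (q.1.1.length + q.1.2.length + 1)

/-- multiplication -/
def mul (add : List Bool × List Bool → List Bool) (p : List Bool × List Bool) : List Bool :=
  p.1.reverse.foldl (fun s b => step add (p, (s, b))) []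

theorem length_step (add : List Bool × List Bool → List Bool)
    (q : (List Bool × List Bool) × (List Bool × Bool)) :
    (step add q).length ≤ q.1.1.length + q.1.2.length + 1 := by
  unfold step
  exact List.length_take_le _ _

theorem ptf_mul {add : List Bool × List Bool → List Bool} (ha : PTF add) : PTF (mul add) := by
  have hs : PTF (step add) := by
    unfold step
    fun_prop
  unfold mul
  refine PTF.foldl (l := fun p : List Bool × List Bool => p.1.reverse)
    (init := fun _ => ([] : List Bool)) (step := step add) (by fun_prop) (PTF.const _) hs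
    (fun p => 4 * (sz p + sz p + 1) + 1)
    (((PB.const 4).mul ((PB.sz.add PB.sz).add (PB.const 1))).add (PB.const 1))
    (fun a l1 l2 _ => ?_)
  refine (sz_bits_le _).trans ?_
  have h1 := length_le_sz a.1
  have h2 := length_le_sz a.2
  have h3 : sz a = sz a.1 + sz a.2 + 1 := sz_pair a.1 a.2
  rcases List.eq_nil_or_concat l1 with h | ⟨l3, b, h⟩
  · rw [h]
    simp
  · rw [h, List.concat_eq_append, List.foldl_append, List.foldl_cons, List.foldl_nil]
    have h4 := length_step add (a, (List.foldl (fun s b => step add (a, (s, b))) [] l3, b))
    simp only at h4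
    omega

theorem mul_val {add : List Bool × List Bool → List Bool}
    (hav : ∀ p, bval (add p) = bval p.1 + bval p.2) (p : List Bool × List Bool) :
    bval (mul add p) = bval p.1 * bval p.2 := by
  unfold mul
  rw [List.foldl_reverse]
  have key : ∀ l : List Bool, l.length ≤ p.1.length →
      bval (l.foldr (fun b s => step add (p, (s, b))) []) = bval l * bval p.2 := by
    intro l
    induction l with
    | nil => simp [bval]
    | cons b l ih =>
      intro hl
      rw [List.length_cons] at hl
      rw [List.foldr_cons]
      have h1 := ih (by omega)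
      unfold step at h1 ⊢
      simp only at h1 ⊢
      rw [bval_take, hav]
      simp only
      rw [bval, h1]
      have h2 : bval (if b = true then p.2 else []) = b.toNat * bval p.2 := by
        cases b <;> simp [bval]
      rw [h2]
      have h3 : false.toNat + 2 * (bval l * bval p.2) + b.toNat * bval p.2 =
          bval (b :: l) * bval p.2 := by
        rw [bval]
        simp only [Bool.toNat_false]
        ring
      rw [h3, Nat.mod_eq_of_lt]
      have h4 := bval_lt (b :: l)
      have h5 := bval_lt p.2
      rw [List.length_cons] at h4
      calc bval (b :: l) * bval p.2 < 2 ^ (l.length + 1) * 2 ^ p.2.length :=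
            Nat.mul_lt_mul'' h4 h5
        _ = 2 ^ (l.length + 1 + p.2.length) := (pow_add _ _ _).symm
        _ ≤ 2 ^ (p.1.length + p.2.length + 1) := Nat.pow_le_pow_right (by norm_num) (by omega)
  exact key p.1 le_rfl

end A3

theorem claimBmul (h : ClaimBadd) : ClaimBmul := by
  obtain ⟨⟨add, ha, hav⟩, -, -⟩ := h
  exact ⟨A3.mul add, A3.ptf_mul ha, A3.mul_val hav⟩

end Pool.Agent.Work.MP_5296b6_lc
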