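import Pool.Agent.Work.MP_5296b6_lc.BinDefs

/-!
# A4: comparison of a fixed rational linear form with a number, in polynomial time
-/

set_option autoImplicit false

namespace Pool.Agent.Work.MP_5296b6_lc

open Pool.Agent.PT N487b59b3

namespace A4

/-- the rational number represented by `x` -/
def qv (x : BQ) : ℚ := ((bval x.1.1 : ℚ) - bval x.1.2) / bval x.2

/-- the denominator is nonzero -/
def ok (x : BQ) : Prop := bval x.2 ≠ 0

section ops

variable {add mul : List Bool × List Bool → List Bool}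

/-- addition of rational numbers -/
def addQ (add mul : List Bool × List Bool → List Bool) (p : BQ × BQ) : BQ :=
  ((add (mul (p.1.1.1, p.2.2), mul (p.2.1.1, p.1.2)),
    add (mul (p.1.1.2, p.2.2), mul (p.2.1.2, p.1.2))), mul (p.1.2, p.2.2))

/-- multiplication of rational numbers -/
def mulQ (add mul : List Bool × List Bool → List Bool) (p : BQ × BQ) : BQ :=
  ((add (mul (p.1.1.1, p.2.1.1), mul (p.1.1.2, p.2.1.2)),
    add (mul (p.1.1.1, p.2.1.2), mul (p.1.1.2, p.2.1.1))), mul (p.1.2, p.2.2))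

/-- negation -/
def negQ (x : BQ) : BQ := ((x.1.2, x.1.1), x.2)

/-- comparison of rational numbers -/
def leQ (add mul : List Bool × List Bool → List Bool) (p : BQ × BQ) : Bool :=
  decide (bval (add (mul (p.1.1.1, p.2.2), mul (p.2.1.2, p.1.2))) ≤
    bval (add (mul (p.2.1.1, p.1.2), mul (p.1.1.2, p.2.2))))

theorem ptf_addQ (ha : PTF add) (hm : PTF mul) : PTF (addQ add mul) := by
  unfold addQ
  fun_prop

theorem ptf_mulQ (ha : PTF add) (hm : PTF mul) : PTF (mulQ add mul) := by
  unfold mulQ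
  fun_prop

theorem ptf_negQ : PTF negQ := by
  unfold negQ
  fun_prop

theorem ptf_leQ (ha : PTF add) (hm : PTF mul)
    (hle : PTF (fun p : List Bool × List Bool => decide (bval p.1 ≤ bval p.2))) :
    PTF (leQ add mul) := by
  unfold leQ
  have h : PTF (fun p : BQ × BQ => (add (mul (p.1.1.1, p.2.2), mul (p.2.1.2, p.1.2)),
      add (mul (p.2.1.1, p.1.2), mul (p.1.1.2, p.2.2)))) := by fun_prop
  exact hle.comp h

variable (hav : ∀ p, bval (add p) = bval p.1 + bval p.2)
  (hmv : ∀ p, bval (mul p) = bval p.1 * bval p.2)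

include hav hmv

theorem ok_addQ {x y : BQ} (hx : ok x) (hy : ok y) : ok (addQ add mul (x, y)) := by
  unfold ok addQ
  simp only [hmv]
  exact mul_ne_zero hx hy

theorem ok_mulQ {x y : BQ} (hx : ok x) (hy : ok y) : ok (mulQ add mul (x, y)) := by
  unfold ok mulQ
  simp only [hmv]
  exact mul_ne_zero hx hy

theorem qv_addQ {x y : BQ} (hx : ok x) (hy : ok y) :
    qv (addQ add mul (x, y)) = qv x + qv y := by
  have hx' : (bval x.2 : ℚ) ≠ 0 := by exact_mod_cast hx
  have hy' : (bval y.2 : ℚ) ≠ 0 := by exact_mod_cast hy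
  unfold qv addQ
  simp only [hmv, hav]
  push_cast
  field_simp
  ring

theorem qv_mulQ {x y : BQ} (hx : ok x) (hy : ok y) :
    qv (mulQ add mul (x, y)) = qv x * qv y := by
  have hx' : (bval x.2 : ℚ) ≠ 0 := by exact_mod_cast hx
  have hy' : (bval y.2 : ℚ) ≠ 0 := by exact_mod_cast hy
  unfold qv mulQ
  simp only [hmv, hav]
  push_cast
  field_simp
  ring

theorem leQ_eq {x y : BQ} (hx : ok x) (hy : ok y) :
    leQ add mul (x, y) = decide (qv x ≤ qv y) := by
  have hx' : (0 : ℚ) < bval x.2 := by exact_mod_cast Nat.pos_of_ne_zero hx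
  have hy' : (0 : ℚ) < bval y.2 := by exact_mod_cast Nat.pos_of_ne_zero hy
  unfold leQ qv
  rw [decide_eq_decide, div_le_div_iff₀ hx' hy']
  simp only [hmv, hav]
  constructor
  · intro h
    have h' : ((bval x.1.1 * bval y.2 + bval y.1.2 * bval x.2 : ℕ) : ℚ) ≤
        ((bval y.1.1 * bval x.2 + bval x.1.2 * bval y.2 : ℕ) : ℚ) := by exact_mod_cast h
    push_cast at h'
    linarith
  · intro h
    have h' : ((bval x.1.1 * bval y.2 + bval y.1.2 * bval x.2 : ℕ) : ℚ) ≤
        ((bval y.1.1 * bval x.2 + bval x.1.2 * bval y.2 : ℕ) : ℚ) := by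
      push_cast
      linarith
    exact_mod_cast h'

end ops

theorem ok_negQ {x : BQ} (hx : ok x) : ok (negQ x) := hx

theorem qv_negQ (x : BQ) : qv (negQ x) = -qv x := by
  unfold qv negQ
  simp only
  ring

theorem ok_repQ (he : ∀ n : ℕ, bval (Computability.encodeNat n) = n) (q : ℚ) : ok (repQ q) := by
  unfold ok repQ
  simp only [he]
  exact q.den_nz

theorem qv_repQ (he : ∀ n : ℕ, bval (Computability.encodeNat n) = n) (q : ℚ) :
    qv (repQ q) = q := by
  unfold qv repQ
  simp only [he]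
  have h1 : ((q.num.toNat : ℕ) : ℤ) - (((-q.num).toNat : ℕ) : ℤ) = q.num := by omega
  have h2 : ((q.num.toNat : ℕ) : ℚ) - (((-q.num).toNat : ℕ) : ℚ) = (q.num : ℚ) := by
    exact_mod_cast congrArg (fun z : ℤ => (z : ℚ)) h1
  rw [h2]
  exact Rat.num_div_den q

theorem getD_map (l : List ℚ) (n : ℕ) : (l.map repQ).getD n (repQ 0) = repQ (l.getD n 0) := by
  rw [List.getD_map]

/-- the linear form -/
theorem lin {add mul : List Bool × List Bool → List Bool} (ha : PTF add) (hm : PTF mul)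
    (hav : ∀ p, bval (add p) = bval p.1 + bval p.2)
    (hmv : ∀ p, bval (mul p) = bval p.1 * bval p.2)
    (he : ∀ n : ℕ, bval (Computability.encodeNat n) = n) (s : ℕ) :
    ∀ a : Fin s → ℚ, ∃ f : List BQ × List BQ → BQ, PTF f ∧ ∀ y z : List ℚ,
      ok (f (y.map repQ, z.map repQ)) ∧
      qv (f (y.map repQ, z.map repQ)) = ∑ j : Fin s, a j * (z.getD j 0 - y.getD j 0) := by
  induction s with
  | zero =>
    intro a
    refine ⟨fun _ => repQ 0, PTF.const _, fun y z => ⟨ok_repQ he 0, ?_⟩⟩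
    simp [qv_repQ he]
  | succ s ih =>
    intro a
    obtain ⟨f, hf, hfv⟩ := ih (fun j => a j.castSucc)
    refine ⟨fun p => addQ add mul (f p, mulQ add mul (repQ (a (Fin.last s)),
      addQ add mul (p.2.getD s (repQ 0), negQ (p.1.getD s (repQ 0))))), ?_, fun y z => ?_⟩
    · have h1 := ptf_addQ ha hm
      have h2 := ptf_mulQ ha hm
      have h3 := ptf_negQ
      fun_prop
    · obtain ⟨g1, g2⟩ := hfv y z
      have k1 := ok_repQ he (z.getD s 0)
      have k2 := ok_negQ (ok_repQ he (y.getD s 0))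
      have k3 := ok_repQ he (a (Fin.last s))
      have k4 := ok_addQ hav hmv k1 k2
      have k5 := ok_mulQ hav hmv k3 k4
      simp only [getD_map]
      refine ⟨ok_addQ hav hmv g1 k5, ?_⟩
      rw [qv_addQ hav hmv g1 k5, qv_mulQ hav hmv k3 k4, qv_addQ hav hmv k1 k2, qv_negQ,
        qv_repQ he, qv_repQ he, qv_repQ he, g2, Fin.sum_univ_castSucc]
      simp only [Fin.val_castSucc, Fin.val_last]
      ring

end A4

open A4 in
theorem claimCmp (h2 : ClaimBadd) (h3 : ClaimBmul) : ClaimCmp := by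
  intro s a
  obtain ⟨⟨add, ha, hav⟩, hle, he⟩ := h2
  obtain ⟨mul, hm, hmv⟩ := h3
  obtain ⟨f, hf, hfv⟩ := lin ha hm hav hmv he s a
  refine ⟨fun p => leQ add mul (p.2, f p.1), ?_, fun y z L => ?_⟩
  · have h1 := ptf_leQ ha hm hle
    fun_prop
  · obtain ⟨g1, g2⟩ := hfv y z
    show leQ add mul (repQ L, f (y.map repQ, z.map repQ)) = _
    rw [leQ_eq hav hmv (ok_repQ he L) g1, qv_repQ he, g2]

end Pool.Agent.Work.MP_5296b6_lc
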