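import Pool.Agent.Work.MP_5296b6_lc.DPDefs

/-!
# The dynamic program on words: one step
-/

set_option autoImplicit false

namespace Pool.Agent.Work.MP_5296b6_lc

open Pool.Agent.PT

variable {S : Type} {K : ℕ}

theorem fl_zero (I : WInst S) (δ : S → ℕ → Bool) (κ : S) : fl I δ κ 0 = 0 := by
  simp [fl]

theorem fl_succ (I : WInst S) (δ : S → ℕ → Bool) (κ : S) (r : ℕ) :
    fl I δ κ (r + 1) = fl I δ κ r +
      if δ κ r = true then (if (ltr I κ r).2 = true then 1 else -1) else 0 := by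
  unfold fl
  rw [Finset.sum_range_succ]

theorem fl_congr {I : WInst S} {δ δ' : S → ℕ → Bool} {κ : S} {m : ℕ}
    (h : ∀ r < m, δ' κ r = δ κ r) : fl I δ' κ m = fl I δ κ m := by
  unfold fl
  refine Finset.sum_congr rfl (fun r hr => ?_)
  rw [h r (Finset.mem_range.1 hr)]

/-- `(th', δ')` is obtained from `(th, δ)` by passing one letter on side `κ`, with decision `d`. -/
structure Ext (κ : S) (d : Bool) (th : S → ℕ) (δ : S → ℕ → Bool) (th' : S → ℕ)
    (δ' : S → ℕ → Bool) : Prop where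
  t1 : th' κ = th κ + 1
  t2 : ∀ κ', κ' ≠ κ → th' κ' = th κ'
  d1 : ∀ κ' r, r < th κ' → δ' κ' r = δ κ' r
  d2 : δ' κ (th κ) = d

section ext

variable {I : WInst S} {κ : S} {d : Bool} {th th' : S → ℕ} {δ δ' : S → ℕ → Bool}

theorem Ext.le (h : Ext κ d th δ th' δ') (κ' : S) : th κ' ≤ th' κ' := by
  by_cases e : κ' = κ
  · subst e; rw [h.t1]; omega
  · rw [h.t2 _ e]

theorem Ext.lt_cases (h : Ext κ d th δ th' δ') {κ' : S} {r : ℕ} (hr : r < th' κ') :
    r < th κ' ∨ (κ' = κ ∧ r = th κ) := by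
  by_cases e : κ' = κ
  · subst e
    rw [h.t1] at hr
    rcases Nat.lt_succ_iff_lt_or_eq.1 hr with h1 | h1
    · exact Or.inl h1
    · exact Or.inr ⟨rfl, h1⟩
  · rw [h.t2 _ e] at hr; exact Or.inl hr

theorem Ext.fl (h : Ext κ d th δ th' δ') {κ' : S} {r : ℕ} (hr : r ≤ th κ') :
    fl I δ' κ' r = fl I δ κ' r :=
  fl_congr (fun j hj => h.d1 κ' j (by omega))

theorem Ext.fl_last (h : Ext κ d th δ th' δ') :
    MP_5296b6_lc.fl I δ' κ (th κ + 1) = MP_5296b6_lc.fl I δ κ (th κ) +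
      if d = true then (if (ltr I κ (th κ)).2 = true then 1 else -1) else 0 := by
  rw [fl_succ, h.fl le_rfl, h.d2]

theorem Ext.plc (h : Ext κ d th δ th' δ') (t : ℕ × Bool) :
    Plc I th' δ' t ↔ Plc I th δ t ∨ (d = true ∧ (ltr I κ (th κ)).1 = t) := by
  constructor
  · rintro ⟨κ', r, hr, h1, h2⟩
    rcases h.lt_cases hr with h3 | ⟨rfl, rfl⟩
    · exact Or.inl ⟨κ', r, h3, h1, by rw [← h.d1 _ _ h3]; exact h2⟩
    · exact Or.inr ⟨by rw [← h.d2]; exact h2, h1⟩
  · rintro (⟨κ', r, hr, h1, h2⟩ | ⟨h1, h2⟩)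
    · exact ⟨κ', r, lt_of_lt_of_le hr (h.le _), h1, by rw [h.d1 _ _ hr]; exact h2⟩
    · exact ⟨κ, th κ, by rw [h.t1]; omega, h2, by rw [h.d2]; exact h1⟩

theorem Ext.used (h : Ext κ d th δ th' δ') (c : ℕ → Bool) (b : Bool) :
    Used I th' δ' c b ↔ Used I th δ c b ∨ (d = true ∧ c (ltr I κ (th κ)).1.1 = b) := by
  constructor
  · rintro ⟨κ', r, hr, h1, h2⟩
    rcases h.lt_cases hr with h3 | ⟨rfl, rfl⟩
    · exact Or.inl ⟨κ', r, h3, by rw [← h.d1 _ _ h3]; exact h1, h2⟩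
    · exact Or.inr ⟨by rw [← h.d2]; exact h1, h2⟩
  · rintro (⟨κ', r, hr, h1, h2⟩ | ⟨h1, h2⟩)
    · exact ⟨κ', r, lt_of_lt_of_le hr (h.le _), by rw [h.d1 _ _ hr]; exact h1, h2⟩
    · exact ⟨κ, th κ, by rw [h.t1]; omega, by rw [h.d2]; exact h1, h2⟩

theorem DA_mono (hle : ∀ κ, th κ ≤ th' κ) {t : ℕ × Bool} (h : DA I th t) : DA I th' t := by
  have key : ∀ κ (l : Letter), l ∈ (I.2 κ).take (th κ) → l ∈ (I.2 κ).take (th' κ) := by
    intro κ l hl
    exact (List.take_prefix_take_left (hle κ)).subset hl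
  rcases h with ⟨κ, h⟩ | h
  · exact Or.inl ⟨κ, key κ _ h⟩
  · exact Or.inr (fun κ => key κ _ (h κ))

theorem Ext.take (h : Ext κ d th δ th' δ') (hlt : th κ < (I.2 κ).length) {κ' : S} {l : Letter}
    (hl : l.1.1 ≠ (ltr I κ (th κ)).1.1) :
    l ∈ (I.2 κ').take (th' κ') ↔ l ∈ (I.2 κ').take (th κ') := by
  by_cases e : κ' = κ
  · subst e
    rw [h.t1, List.take_succ_eq_append_getElem hlt, List.mem_append, List.mem_singleton]
    refine ⟨fun h1 => h1.resolve_right ?_, Or.inl⟩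
    rintro rfl
    apply hl
    unfold ltr
    rw [List.getD_eq_getElem _ _ hlt]
  · rw [h.t2 _ e]

theorem Ext.DA (h : Ext κ d th δ th' δ') (hlt : th κ < (I.2 κ).length) {u : ℕ} {b : Bool}
    (hu : u ≠ (ltr I κ (th κ)).1.1) :
    DA I th' (u, b) ↔ DA I th (u, b) := by
  unfold MP_5296b6_lc.DA
  simp only [h.take hlt (l := ((u, b), true)) hu, h.take hlt (l := ((u, b), false)) hu]

theorem Ext.irr (h : Ext κ d th δ th' δ') (hlt : th κ < (I.2 κ).length) {u : ℕ}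
    (hu : u ≠ (ltr I κ (th κ)).1.1) : Irr I th' δ' u ↔ Irr I th δ u := by
  have h1 : ∀ b, Plc I th' δ' (u, b) ↔ Plc I th δ (u, b) := by
    intro b
    rw [h.plc]
    refine ⟨fun h1 => h1.resolve_right ?_, Or.inl⟩
    rintro ⟨-, h2⟩
    exact hu (by rw [h2])
  unfold Irr
  rw [h1, h1, h.DA hlt hu, h.DA hlt hu]

end ext

section rep

variable {I : WInst S} {s s2 : St S K} {κ : S} {d : Bool} {th th' : S → ℕ}
  {δ δ' : S → ℕ → Bool}

theorem Rep.pls (hr : Rep I s th δ) {v : ℕ} (hv : v < I.1) (b : Bool) :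
    Pls I s (v, b) ↔ Plc I th δ (v, b) := by
  unfold Pls
  by_cases h : ∃ k, ssl s k = some v
  · obtain ⟨k, hk⟩ := h
    have h1 := hr.pl k v hk
    constructor
    · rintro (⟨k', hk', h2⟩ | ⟨h2, -⟩)
      · have := hr.inj k k' v hk hk'
        subst this
        cases b
        · simpa using h1.1.1 (by simpa using h2)
        · simpa using h1.2.1 (by simpa using h2)
      · exact absurd hk (h2 k)
    · intro h2
      refine Or.inl ⟨k, hk, ?_⟩
      cases b
      · simpa using h1.1.2 h2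
      · simpa using h1.2.2 h2
  · have h1 : ¬ Irr I th δ v := fun h2 => h ((hr.sl v).2 ⟨hv, h2⟩)
    unfold Irr at h1
    rw [not_not] at h1
    push Not at h
    constructor
    · rintro (⟨k', hk', -⟩ | ⟨-, h2⟩)
      · exact absurd hk' (h k')
      · rw [hr.hth] at h2
        cases b
        · exact h1.1.2 h2
        · exact h1.2.1.2 h2
    · intro h2
      refine Or.inr ⟨h, ?_⟩
      rw [hr.hth]
      cases b
      · exact h1.1.1 h2
      · exact h1.2.1.1 h2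

/-- A vertex without slot has no placed token or two of them. -/
theorem Rep.no_slot (hr : Rep I s th δ) {v : ℕ} (hv : v < I.1) (h : ∀ k, ssl s k ≠ some v) :
    (Plc I th δ (v, false) ↔ Plc I th δ (v, true)) ∧
    (Plc I th δ (v, false) → DA I th (v, false) ∧ DA I th (v, true)) := by
  have h1 : ¬ Irr I th δ v := fun h2 => by
    obtain ⟨k, hk⟩ := (hr.sl v).2 ⟨hv, h2⟩
    exact h k hk
  unfold Irr at h1
  rw [not_not] at h1
  obtain ⟨h2, h3, h4⟩ := h1
  tauto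

end rep

end Pool.Agent.Work.MP_5296b6_lc
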