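import Pool.Agent.Work.MP_5296b6_lc.Main

/-!
# Auxiliary definitions: functionals with comparable values
-/

set_option autoImplicit false

namespace Pool.Agent.MaxScatter

/-- Both versions are solvable in polynomial time. -/
def Polynomial {s : ℕ} (B : Set (Fin s → ℝ)) : Prop := DecisionPoly B ∧ OptimumPoly B

/-- The value of the linear functional `a` at the difference `z - y`. -/
noncomputable def lin {s : ℕ} (a : Fin s → ℝ) (y z : List ℚ) : ℝ :=
  ∑ j, a j * (toPt s z j - toPt s y j)

open Classical in
/-- Values of the facet functionals of `B` at differences of rational points can be compared in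
polynomial time with rational numbers and with each other. -/
def Comparable {s : ℕ} (B : Set (Fin s → ℝ)) : Prop :=
  ∃ (f : ℕ) (a : Fin f → Fin s → ℝ), B = {x | ∀ i, |∑ j, a i j * x j| ≤ 1} ∧
    (∀ i, N68a2faeb.IsPolyTime (fun c : (List ℚ × List ℚ) × ℚ =>
      decide (((c.2 : ℚ) : ℝ) ≤ lin (a i) c.1.1 c.1.2))) ∧
    ∀ i j, N68a2faeb.IsPolyTime (fun c : (List ℚ × List ℚ) × (List ℚ × List ℚ) =>
      decide (lin (a i) c.1.1 c.1.2 ≤ lin (a j) c.2.1 c.2.2))

end Pool.Agent.MaxScatter
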