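import Pool.Agent.Work.MP_5296b6_lc.Stmts
import Pool.Agent.Work.MP_5296b6_lc.Lin

/-!
# Geometry: tables of point sets, norms of polytopes (statements)
-/

set_option autoImplicit false

namespace Pool.Agent.Scatter

open Finset Pool.Agent.MaxScatter

/-- Value of a spot `(t, b)`: high spots (`b = true`) lie at `h t`, low spots at `h t + L`. -/
def spotVal {n : ℕ} (h : Tok (Fin n) → ℝ) (L : ℝ) (x : Tok (Fin n) × Bool) : ℝ :=
  h x.1 + if x.2 then 0 else L

/-- The order of the spots on a track: by value, then low before high, then by vertex, then by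
token. -/
def spotLt {n : ℕ} (h : Tok (Fin n) → ℝ) (L : ℝ) (x y : Tok (Fin n) × Bool) : Prop :=
  spotVal h L x < spotVal h L y ∨ (spotVal h L x = spotVal h L y ∧
    (x.2 < y.2 ∨ (x.2 = y.2 ∧ (x.1.1 < y.1.1 ∨ (x.1.1 = y.1.1 ∧ x.1.2 < y.1.2)))))

open Classical in
/-- The table of a family of values. -/
def ClaimGeo : Prop :=
  ∀ (n f : ℕ) (h : Fin f → Tok (Fin n) → ℝ) (L : ℝ), ∃ D : Table (Fin n) (Fin f), D.N = 4 * n ∧
    (∀ t i b, D.pos t (i, b) = 1 + (univ.filter fun y => spotLt (h i) L y (t, b)).card) ∧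
    (∀ t t', D.Comp t t' ↔ ∃ i, L ≤ |h i t - h i t'|) ∧
    ∀ v, (∀ i, h i (v, false) = h i (v, true)) → D.Adj v

/-- Points of the tokens when a path from `x` to `y` has been contracted to vertex `0` and the
remaining points are listed in `R`. -/
def pathPts {α : Type} (x y : α) (R : List α) (t : Tok (Fin (R.length + 1))) : α :=
  if t.1.1 = 0 then (if t.2 then y else x) else R.getD (t.1.1 - 1) x

/-- `R'` completes a path from `x` to `y` to a round-trip with all new edges in `rel`. -/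
def Completes {α : Type} (rel : α → α → Prop) (x y : α) (R' : List α) : Prop :=
  ∀ e ∈ (y :: R').zip (R' ++ [x]), rel e.1 e.2

/-- Tours of the contracted instance are the completions of the path. -/
def ClaimPath : Prop :=
  ∀ (α ι : Type) [Fintype ι] [DecidableEq ι] (rel : α → α → Prop), (∀ a b, rel a b → rel b a) →
    ∀ (x y : α) (R : List α) (D : Table (Fin (R.length + 1)) ι),
      (∀ t t', D.Comp t t' ↔ rel (pathPts x y R t) (pathPts x y R t')) →
        (D.HasTour ↔ ∃ R' : List α, R'.Perm R ∧ Completes rel x y R')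

/-- Weyl's theorem for symmetric polytopes, over a subfield of the real numbers. -/
def ClaimWeyl : Prop :=
  ∀ (K : Subfield ℝ) (s : ℕ) (W : Finset (Fin s → ℝ)), (∀ w ∈ W, ∀ j, w j ∈ K) →
    IsPolyhedralBall (convexHull ℝ (W : Set (Fin s → ℝ))) →
      ∃ (f : ℕ) (a : Fin f → Fin s → ℝ), (∀ i j, a i j ∈ K) ∧
        convexHull ℝ (W : Set (Fin s → ℝ)) = {x | ∀ i, |∑ j, a i j * x j| ≤ 1}

/-- The norm in terms of the facet functionals. -/
def ClaimNorm : Prop :=
  ∀ (s f : ℕ) (B : Set (Fin s → ℝ)) (a : Fin f → Fin s → ℝ), 1 ≤ s → IsPolyhedralBall B →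
    B = {x | ∀ i, |∑ j, a i j * x j| ≤ 1} →
      ∀ (x : Fin s → ℝ) (L : ℝ), L ≤ pnorm B x ↔ ∃ i, L ≤ |∑ j, a i j * x j|

/-- All edges are long iff the shortest one is. -/
def ClaimScatter : Prop :=
  ∀ (s : ℕ) (B : Set (Fin s → ℝ)) (R : List (Fin s → ℝ)) (L : ℝ), R ≠ [] →
    (L ≤ scatter B R ↔ ∀ e ∈ edges R, L ≤ pdist B e.1 e.2)

/-- Rotations and the form of the edges of a round-trip starting in a given point. -/
def ClaimEdges : Prop :=
  ∀ (α : Type) (p : α) (P : List α) (rel : α → α → Prop),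
    (∃ R : List α, R.Perm (p :: P) ∧ ∀ e ∈ edges R, rel e.1 e.2) ↔
      ∃ R' : List α, R'.Perm P ∧ Completes rel p p R'

end Pool.Agent.Scatter
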