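import Pool.Agent.Work.MP_5296b6_lc.Defs

/-!
# Statements of the combinatorial core (MP_5296b6_lc)

Every item `claimX : ClaimX` proves one of these propositions.
-/

set_option autoImplicit false

namespace Pool.Agent.Scatter

open Finset

/-- A feasible assignment has a pairing. -/
def ClaimPair : Prop :=
  ∀ (V ι : Type) [Fintype V] [DecidableEq V] [Fintype ι] [DecidableEq ι] (D : Table V ι)
    (T : Tok V → Side ι), D.Feas T → ∃ μ, D.Pairing T μ

/-- A connected feasible assignment has a transitive pairing. -/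
def ClaimMerge : Prop :=
  ∀ (V ι : Type) [Fintype V] [DecidableEq V] [Fintype ι] [DecidableEq ι] (D : Table V ι)
    (T : Tok V → Side ι), D.Sol T → (∃ μ, D.Pairing T μ) → ∃ μ, D.Pairing T μ ∧ Transv μ

/-- From a transitive fixed point free involution to a cyclic order. -/
def ClaimOrder : Prop :=
  ∀ (V : Type) [Fintype V] [DecidableEq V] [Nonempty V] (μ : Tok V → Tok V),
    (∀ t, μ (μ t) = t) → (∀ t, μ t ≠ t) → Transv μ →
      ∃ c : ℕ → Tok V, (∀ k, c (k + Fintype.card V) = c k) ∧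
        (∀ v, ∃ k < Fintype.card V, (c k).1 = v) ∧ ∀ k, μ (flp (c k)) = c (k + 1)

/-- A tour gives a solution. -/
def ClaimOfTour : Prop :=
  ∀ (V ι : Type) [Fintype V] [DecidableEq V] [Fintype ι] [DecidableEq ι] (D : Table V ι),
    D.HasTour → ∃ T, D.Sol T

/-- Solutions are the same as tours. -/
def ClaimTour : Prop :=
  ∀ (V ι : Type) [Fintype V] [DecidableEq V] [Nonempty V] [Fintype ι] [DecidableEq ι]
    (D : Table V ι), D.HasTour ↔ ∃ T, D.Sol T

/-- The parity lemma: a closed colouring has an even number of bichromatic vertices. -/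
def ClaimParity : Prop :=
  ∀ (V ι : Type) [Fintype V] [DecidableEq V] [Fintype ι] [DecidableEq ι] (D : Table V ι)
    (T : Tok V → Side ι), D.Feas T → ∀ a : ι → ℕ → Bool, Closed (D.flow T) a →
      Even (univ.filter fun v : V => D.col T a (v, false) ≠ D.col T a (v, true)).card

/-- The flow is a sum of step functions. -/
def ClaimFlowSum : Prop :=
  ∀ (V ι : Type) [Fintype V] [DecidableEq V] [Fintype ι] [DecidableEq ι] (D : Table V ι)
    (T : Tok V → Side ι) (i : ι) (p : ℕ),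
      D.flow T i p = ∑ t, bump (T t) (D.pos t (T t)) i p

/-- Change of the flow under a move. -/
def ClaimMoveFlow : Prop :=
  ∀ (V ι : Type) [Fintype V] [DecidableEq V] [Fintype ι] [DecidableEq ι] (D : Table V ι)
    (T : Tok V → Side ι) (th : Side ι → ℕ) (C : Cyc D T th) (X : Side ι → Finset (Tok V)),
    (∀ κ ∈ C.Z, X κ ⊆ C.A κ) → ∀ i p, D.flow (C.move X) i p = D.flow T i p + C.chg X i p

/-- Positivity of the change. -/
def ClaimChg : Prop :=
  ∀ (V ι : Type) [Fintype V] [DecidableEq V] [Fintype ι] [DecidableEq ι] (D : Table V ι)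
    (T : Tok V → Side ι) (th : Side ι → ℕ) (C : Cyc D T th) (X : Side ι → Finset (Tok V)) (k : ℕ),
    (∀ κ ∈ C.Z, X κ ⊆ C.A κ ∧ (X κ).card = k) →
      (∀ i p, 0 ≤ C.chg X i p) ∧ (∀ i, C.chg X i D.N = 0) ∧
      ∀ κ ∈ C.Z, ∀ x ∈ X (C.nx κ), ∀ y ∈ X κ, ∀ p,
        ((C.o (C.nx κ) x ≤ p ∧ p < C.u κ y) ∨ (C.u κ y ≤ p ∧ p < C.o (C.nx κ) x)) →
          0 < C.chg X (C.nx κ).1 p

/-- Primary tokens: after moving two tokens per arc, all out-positions and in-positions at a side
have the same colour in every closed colouring. -/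
def ClaimPrimary : Prop :=
  ∀ (V ι : Type) [Fintype V] [DecidableEq V] [Fintype ι] [DecidableEq ι] (D : Table V ι)
    (T : Tok V → Side ι) (th : Side ι → ℕ) (C : Cyc D T th), D.Feas T →
    (∀ κ ∈ C.Z, 2 ≤ (C.A κ).card) →
      ∃ X : Side ι → Finset (Tok V), (∀ κ ∈ C.Z, X κ ⊆ C.A κ ∧ (X κ).card = 2) ∧
        ∀ a : ι → ℕ → Bool, Closed (fun i p => D.flow T i p + C.chg X i p) a →
          ∀ κ ∈ C.Z, ∀ x ∈ C.A (C.nx κ), ∀ y ∈ C.A κ,
            a (C.nx κ).1 (C.o (C.nx κ) x) = a (C.nx κ).1 (C.u κ y)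

/-- Selection of a token that does not enlarge the algebra of colourings. -/
def ClaimSelect : Prop :=
  ∀ (V ι : Type) [Fintype V] [DecidableEq V] [Fintype ι] [DecidableEq ι] (D : Table V ι)
    (T : Tok V → Side ι) (F : ι → ℕ → ℤ), D.Feas T → (∀ i p, D.flow T i p ≤ F i p) →
    ∀ (A : Finset (Tok V)) (M : Finset V), (∀ x ∈ A, ∀ y ∈ A, x.1 = y.1 → x = y) →
      (∀ a : ι → ℕ → Bool, Closed F a → ∀ x ∈ A, ∀ y ∈ A, D.col T a x = D.col T a y) →
      2 * M.card < (A.filter fun x => x.1 ∉ M).card →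
      ∃ x ∈ A, x.1 ∉ M ∧ ∀ a : ι → ℕ → Bool, Closed F a →
        (∀ v, v ∉ M → v ≠ x.1 → D.col T a (v, false) = D.col T a (v, true)) →
          D.col T a (x.1, false) = D.col T a (x.1, true)

/-- The exchange lemma. -/
def ClaimExchange : Prop :=
  ∀ (V ι : Type) [Fintype V] [DecidableEq V] [Fintype ι] [DecidableEq ι] (D : Table V ι)
    (T : Tok V → Side ι) (th : Side ι → ℕ) (C : Cyc D T th), D.Sol T →
    (∀ κ ∈ C.Z, 6 * C.Z.card + 3 ≤ (C.A κ).card) →
      ∃ T', D.Sol T' ∧ D.total T < D.total T'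

/-- Vertex-disjoint subsets of large sets of tokens. -/
def ClaimDisjoint : Prop :=
  ∀ (V S : Type) [DecidableEq V] [DecidableEq S] (Z : Finset S) (B : S → Finset (Tok V)) (m : ℕ),
    (∀ κ ∈ Z, 2 * (Z.card * m) ≤ (B κ).card) →
      ∃ A : S → Finset (Tok V), (∀ κ ∈ Z, A κ ⊆ B κ ∧ (A κ).card = m) ∧
        ∀ κ ∈ Z, ∀ l ∈ Z, ∀ x ∈ A κ, ∀ y ∈ A l, x.1 = y.1 → κ = l ∧ x = y

/-- Periodic points of a self-map of a finite set. -/
def ClaimPeriodic : Prop :=
  ∀ (S : Type) [DecidableEq S] (U : Finset S) (φ : S → S), U.Nonempty → (∀ κ ∈ U, φ κ ∈ U) →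
    ∃ Z : Finset S, Z ⊆ U ∧ Z.Nonempty ∧ (∀ κ ∈ Z, φ κ ∈ Z) ∧
      ∀ κ ∈ Z, ∀ l ∈ Z, φ κ = φ l → κ = l

/-- In a solution of maximal total flow every good cut that is not fully passed can be
advanced. -/
def ClaimAdvance : Prop :=
  ∀ (V ι : Type) [Fintype V] [DecidableEq V] [Fintype ι] [DecidableEq ι] (D : Table V ι)
    (T : Tok V → Side ι), D.Sol T → (∀ T', D.Sol T' → D.total T' ≤ D.total T) →
    ∀ th, D.Good T th → (∃ κ, th κ < D.N) →
      ∃ κ, th κ < D.N ∧ D.Good T (Function.update th κ (th κ + 1))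

/-- Good cuts are closed under componentwise minimum. -/
def ClaimMeet : Prop :=
  ∀ (V ι : Type) [Fintype V] [DecidableEq V] [Fintype ι] [DecidableEq ι] (D : Table V ι)
    (T : Tok V → Side ι) (th th' : Side ι → ℕ), D.Good T th → D.Good T th' →
      D.Good T (fun κ => min (th κ) (th' κ))

/-- Good cuts are closed under the involution. -/
def ClaimInv : Prop :=
  ∀ (V ι : Type) [Fintype V] [DecidableEq V] [Fintype ι] [DecidableEq ι] (D : Table V ι)
    (T : Tok V → Side ι) (th : Side ι → ℕ), D.Good T th → D.Good T (D.inv th)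

/-- A chain of good cuts. -/
def ClaimGoodChain : Prop :=
  ∀ (V ι : Type) [Fintype V] [DecidableEq V] [Fintype ι] [DecidableEq ι] (D : Table V ι)
    (T : Tok V → Side ι),
    (∀ th, D.Good T th → (∃ κ, th κ < D.N) →
      ∃ κ, th κ < D.N ∧ D.Good T (Function.update th κ (th κ + 1))) →
    (∀ th th', D.Good T th → D.Good T th' → D.Good T (fun κ => min (th κ) (th' κ))) →
    (∀ th, D.Good T th → D.Good T (D.inv th)) →
    ∃ (th : ℕ → Side ι → ℕ) (m : ℕ), (∀ κ, th 0 κ = 0) ∧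
      (∀ j < m, ∃ κ, th j κ + th j (opp κ) < D.N ∧
        th (j + 1) = Function.update (th j) κ (th j κ + 1)) ∧
      (∀ κ, th m κ + th m (opp κ) = D.N) ∧ ∀ j ≤ m, D.Good T (th j)

open Classical in
/-- Few irregular vertices at a good cut. -/
def ClaimIrr : Prop :=
  ∀ (V ι : Type) [Fintype V] [DecidableEq V] [Fintype ι] [DecidableEq ι] (D : Table V ι)
    (T : Tok V → Side ι) (th : Side ι → ℕ), D.Good T th →
      (univ.filter fun v => ¬ D.Reg T th v).card ≤
        slots (Fintype.card ι) + (univ.filter fun v => ¬ D.Adj v).card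

/-- The core: if there is a solution, there is one with a chain. -/
def ClaimCore : Prop :=
  ∀ (V ι : Type) [Fintype V] [DecidableEq V] [Fintype ι] [DecidableEq ι] (D : Table V ι),
    (∃ T, D.Sol T) → ∃ T, D.Sol T ∧ D.Chain T

end Pool.Agent.Scatter
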