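import Pool.Agent.Work.MP_5296b6_lc.FinEnc
import Pool.Agent.Work.PT.BitEnc

/-!
# Numbers as bit lists, parsing of the standard bit encodings: statements
-/

set_option autoImplicit false

namespace Pool.Agent.Work.MP_5296b6_lc

open Pool.Agent.PT N487b59b3

/-- The value of a list of bits, least significant bit first. -/
def bval : List Bool → ℕ
  | [] => 0
  | b :: l => b.toNat + 2 * bval l

/-- Rational numbers in binary: `((p, q), d)` stands for `(p - q) / d`. -/
abbrev BQ := (List Bool × List Bool) × List Bool

/-- The representation of a rational number that the standard encoding contains. -/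
def repQ (q : ℚ) : BQ :=
  ((Computability.encodeNat q.num.toNat, Computability.encodeNat (-q.num).toNat),
    Computability.encodeNat q.den)

/-- A1: the parsers of the standard encoding are polynomial-time. -/
def ClaimUndelimit : Prop :=
  PTF (fun x : List Bool => undelimit x) ∧ PTF (fun x : List Bool => undelimitBlocks x)

/-- A2: addition and comparison of binary numbers. -/
def ClaimBadd : Prop :=
  (∃ f : List Bool × List Bool → List Bool, PTF f ∧ ∀ p, bval (f p) = bval p.1 + bval p.2) ∧
  PTF (fun p : List Bool × List Bool => decide (bval p.1 ≤ bval p.2)) ∧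
  (∀ n : ℕ, bval (Computability.encodeNat n) = n)

/-- A3: multiplication of binary numbers. -/
def ClaimBmul : Prop :=
  ∃ f : List Bool × List Bool → List Bool, PTF f ∧ ∀ p, bval (f p) = bval p.1 * bval p.2

/-- A4: comparison of a linear form with fixed rational coefficients with a number. A point is a
list of rational numbers; coordinates from `s` on are ignored, missing ones are `0`. -/
def ClaimCmp : Prop :=
  ∀ (s : ℕ) (a : Fin s → ℚ), ∃ cmp : (List BQ × List BQ) × BQ → Bool, PTF cmp ∧
    ∀ (y z : List ℚ) (L : ℚ), cmp ((y.map repQ, z.map repQ), repQ L) =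
      decide (L ≤ ∑ j : Fin s, a j * (z.getD j 0 - y.getD j 0))

/-- A5: parsing of instances, and of the raw codes of the points. -/
def ClaimParse : Prop :=
  (∃ f : List Bool → List (List BQ) × BQ, PTF f ∧
    ∀ inp : List (List ℚ) × ℚ, f (bitEncode inp) = (inp.1.map (fun y => y.map repQ), repQ inp.2)) ∧
  (∃ f : List Bool → List (List BQ), PTF f ∧
    ∀ inp : List (List ℚ), f (bitEncode inp) = inp.map (fun y => y.map repQ)) ∧
  (∃ f : List Bool → List (List Bool), PTF f ∧
    ∀ inp : List (List ℚ), f (bitEncode inp) = inp.map bitEncode) ∧
  (∃ f : List (List Bool) → List Bool, PTF f ∧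
    ∀ inp : List (List ℚ), f (inp.map bitEncode) = bitEncode inp)

end Pool.Agent.Work.MP_5296b6_lc
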