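import Pool.Agent.Work.MP_5296b6_lc.GenStmts
import Pool.Agent.Work.MP_5296b6_lc.BinDefs

/-!
# From the generic algorithm to Max-Scatter-TSP
-/

set_option autoImplicit false

namespace Pool.Agent.Scatter

open Pool.Agent.PT Pool.Agent.MaxScatter N487b59b3 Pool.Agent.Work.MP_5296b6_lc

/-- Polynomial-time comparisons of the values of the functionals on raw codes. -/
structure RawCmp {s f : ℕ} (a : Fin f → Fin s → ℝ) : Prop where
  num : ∀ i, ∃ g : (List Bool × List Bool) × List Bool → Bool, PTF g ∧
    ∀ (y z : List ℚ) (L : ℚ), (g ((bitEncode y, bitEncode z), bitEncode L) = true ↔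
      ((L : ℚ) : ℝ) ≤ lin (a i) y z)
  dst : ∀ i j, ∃ g : (List Bool × List Bool) × (List Bool × List Bool) → Bool, PTF g ∧
    ∀ y z y' z' : List ℚ, (g ((bitEncode y, bitEncode z), (bitEncode y', bitEncode z')) = true ↔
      lin (a i) y z ≤ lin (a j) y' z')

/-- Decoding of a raw code. -/
def dcd (c : List Bool) : List ℚ := (bitDecode c).getD []

theorem dcd_enc (p : List ℚ) : dcd (bitEncode p) = p := by
  unfold dcd; rw [bitDecode_bitEncode]; rfl

/-- The value of a functional at a raw code. -/
noncomputable def hval {s : ℕ} (a : Fin s → ℝ) (c : List Bool) : ℝ :=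
  ∑ j, a j * toPt s (dcd c) j

theorem lin_eq {s : ℕ} (a : Fin s → ℝ) (y z : List ℚ) :
    lin a y z = hval a (bitEncode z) - hval a (bitEncode y) := by
  unfold lin hval
  rw [dcd_enc, dcd_enc, ← Finset.sum_sub_distrib]
  exact Finset.sum_congr rfl fun j _ => by ring

/-- Valid codes of points. -/
def IsCode (c : List Bool) : Prop := ∃ p : List ℚ, c = bitEncode p

/-- Comparisons for the decision version. -/
theorem exists_cmpN {s f : ℕ} {a : Fin f → Fin s → ℝ} (h : RawCmp a) :
    ∃ C : Cmp f (List Bool) (List Bool), (∀ c, C.U c ↔ ∃ q : ℚ, c = bitEncode q) ∧ C.V = IsCode ∧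
      (∀ q : ℚ, C.lv (bitEncode q) = q) ∧ ∀ i c, C.h i c = hval (a i) c := by
  choose g hg hs using h.num
  refine ⟨{
    U := fun c => ∃ q : ℚ, c = bitEncode q
    V := IsCode
    h := fun i c => hval (a i) c
    lv := fun c => (((bitDecode c).getD (0 : ℚ) : ℚ) : ℝ)
    le0 := fun i p => g i (p, bitEncode (0 : ℚ))
    leL := fun i p => g i (p.2, p.1)
    ptf0 := fun i => (hg i).comp (PTF.id.pair (PTF.const _))
    ptfL := fun i => (hg i).comp (PTF.snd.pair PTF.fst)
    spec0 := ?_
    specL := ?_ }, fun c => Iff.rfl, rfl, fun q => ?_, fun i c => rfl⟩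
  · rintro i y z ⟨y, rfl⟩ ⟨z, rfl⟩
    rw [hs, lin_eq]
    constructor
    · intro h; simp at h; linarith
    · intro h; simp; linarith
  · rintro i c y z ⟨q, rfl⟩ ⟨y, rfl⟩ ⟨z, rfl⟩
    dsimp only
    rw [hs, lin_eq, bitDecode_bitEncode]
    simp only [Option.getD_some]
    constructor
    · intro h; linarith
    · intro h; linarith
  · show ((((bitDecode (bitEncode q) : Option ℚ)).getD (0 : ℚ) : ℚ) : ℝ) = q
    rw [bitDecode_bitEncode]; rfl

noncomputable instance (f : ℕ) : Enc (Fin f) := Enc.ofFinite _

/-- Candidates for the optimal value: functional and pair of points. -/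
abbrev Cand (f : ℕ) := Fin f × (List Bool × List Bool)

/-- The value of a candidate. -/
noncomputable def cval {s f : ℕ} (a : Fin f → Fin s → ℝ) (k : Cand f) : ℝ :=
  hval (a k.1) k.2.2 - hval (a k.1) k.2.1

/-- Comparisons for the optimisation version. -/
theorem exists_cmpD {s f : ℕ} {a : Fin f → Fin s → ℝ} (h : RawCmp a) :
    (∃ C : Cmp f (Cand f) (List Bool), (∀ k, C.U k ↔ IsCode k.2.1 ∧ IsCode k.2.2) ∧ C.V = IsCode ∧
      (∀ k, C.lv k = cval a k) ∧ ∀ i c, C.h i c = hval (a i) c) ∧
    ∃ le : Cand f × Cand f → Bool, PTF le ∧ ∀ k k' : Cand f, IsCode k.2.1 → IsCode k.2.2 →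
      IsCode k'.2.1 → IsCode k'.2.2 → (le (k, k') = true ↔ cval a k ≤ cval a k') := by
  choose g hg hs using h.dst
  have hG : ∀ i, PTF (fun q : Fin f × ((List Bool × List Bool) × (List Bool × List Bool)) =>
      g q.1 i q.2) := fun i => PTF.finite_case (F := fun j => g j i) (fun j => hg j i)
  refine ⟨⟨{
    U := fun k => IsCode k.2.1 ∧ IsCode k.2.2
    V := IsCode
    h := fun i c => hval (a i) c
    lv := fun k => cval a k
    le0 := fun i p => g i i ((p.1, p.1), p)
    leL := fun i p => g p.1.1 i (p.1.2, p.2)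
    ptf0 := fun i => (hg i i).comp ((PTF.fst.pair PTF.fst).pair PTF.id)
    ptfL := fun i => (hG i).comp ((PTF.fst.comp PTF.fst).pair ((PTF.snd.comp PTF.fst).pair PTF.snd))
    spec0 := ?_
    specL := ?_ }, fun c => Iff.rfl, rfl, fun q => rfl, fun i c => rfl⟩, ?_⟩
  · rintro i y z ⟨y, rfl⟩ ⟨z, rfl⟩
    dsimp only
    rw [hs, lin_eq, lin_eq]
    constructor
    · intro h; linarith
    · intro h; linarith
  · rintro i ⟨j, y0, z0⟩ y z ⟨⟨y0, rfl⟩, ⟨z0, rfl⟩⟩ ⟨y, rfl⟩ ⟨z, rfl⟩
    dsimp only [cval]
    rw [hs, lin_eq, lin_eq]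
    constructor
    · intro h; linarith
    · intro h; linarith
  · have hG2 : PTF (fun q : Fin f × (Fin f × ((List Bool × List Bool) × (List Bool × List Bool))) =>
        g q.2.1 q.1 q.2.2) := PTF.finite_case
          (F := fun i (q : Fin f × ((List Bool × List Bool) × (List Bool × List Bool))) =>
            g q.1 i q.2) (fun i => hG i)
    refine ⟨fun p => g p.1.1 p.2.1 (p.1.2, p.2.2), hG2.comp ((PTF.fst.comp PTF.snd).pair
      ((PTF.fst.comp PTF.fst).pair ((PTF.snd.comp PTF.fst).pair (PTF.snd.comp PTF.snd)))), ?_⟩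
    rintro ⟨j, y0, z0⟩ ⟨i, y, z⟩ ⟨y0, rfl⟩ ⟨z0, rfl⟩ ⟨y, rfl⟩ ⟨z, rfl⟩
    dsimp only [cval]
    rw [hs, lin_eq, lin_eq]

/-! ### Geometry -/

section geometry

variable {s f : ℕ} {B : Set (Fin s → ℝ)} {a : Fin f → Fin s → ℝ}

theorem pdist_iff (hN : ClaimNorm) (h1 : 1 ≤ s) (hB : IsPolyhedralBall B)
    (hf : B = {x | ∀ i, |∑ j, a i j * x j| ≤ 1}) (y z : List ℚ) (L : ℝ) :
    L ≤ pdist B (toPt s y) (toPt s z) ↔
      ∃ i, L ≤ |hval (a i) (bitEncode y) - hval (a i) (bitEncode z)| := by
  unfold pdist
  rw [hN s f B a h1 hB hf]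
  refine exists_congr fun i => ?_
  have e : ∑ j, a i j * (toPt s y - toPt s z) j =
      hval (a i) (bitEncode y) - hval (a i) (bitEncode z) := by
    unfold hval
    rw [dcd_enc, dcd_enc, ← Finset.sum_sub_distrib]
    exact Finset.sum_congr rfl fun j _ => by rw [Pi.sub_apply]; ring
  rw [e]

theorem edges_map {α β : Type} (g : α → β) (R : List α) :
    edges (R.map g) = (edges R).map (Prod.map g g) := by
  unfold edges
  rw [← List.map_rotate, List.zip_map]

/-- Long round-trips in terms of raw codes. -/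
theorem scatter_iff (hN : ClaimNorm) (hS : ClaimScatter) (h1 : 1 ≤ s) (hB : IsPolyhedralBall B)
    (hf : B = {x | ∀ i, |∑ j, a i j * x j| ≤ 1}) (R : List (List ℚ)) (hR : R ≠ []) (L : ℝ) :
    L ≤ scatter B (R.map (toPt s)) ↔ ∀ e ∈ edges (R.map bitEncode),
      ∃ i, L ≤ |hval (a i) e.1 - hval (a i) e.2| := by
  rw [hS s B (R.map (toPt s)) L (by simpa using hR), edges_map, edges_map]
  simp only [List.mem_map, forall_exists_index, and_imp, forall_apply_eq_imp_iff₂]
  refine forall₂_congr fun e he => ?_
  exact pdist_iff hN h1 hB hf e.1 e.2 L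

/-! ### The decision version -/

/-- Test for repeated entries. -/
def nodupB {β : Type} [DecidableEq β] (l : List β) : Bool :=
  l.all (fun c => decide (l.count c ≤ 1))

theorem nodupB_ptf {α β : Type} [Enc α] [Enc β] [DecidableEq β] {l : α → List β} (hl : PTF l) :
    PTF (fun x => nodupB (l x)) :=
  PTF.all' (f := fun x c => decide ((l x).count c ≤ 1))
    ((PTF.count PTF.snd (hl.comp PTF.fst)).le (PTF.const 1)) hl

theorem nodup_iff_all {β : Type} [DecidableEq β] (l : List β) :
    nodupB l = true ↔ l.Nodup := by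
  unfold nodupB
  rw [List.all_eq_true, List.nodup_iff_count_le_one]
  constructor
  · intro h c
    by_cases hc : c ∈ l
    · simpa using h c hc
    · rw [List.count_eq_zero_of_not_mem hc]; exact Nat.zero_le _
  · intro h c _
    simpa using h c

theorem head_tail_perm (hE : ClaimEdges) {α : Type} (d : α) (P : List α) (hP : P ≠ [])
    (rel : α → α → Prop) :
    (∃ R : List α, R.Perm P ∧ ∀ e ∈ edges R, rel e.1 e.2) ↔
      ∃ R' : List α, R'.Perm P.tail ∧ Completes rel (P.headD d) (P.headD d) R' := by
  cases P with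
  | nil => exact absurd rfl hP
  | cons p P => exact hE α p P rel

/-- Round-trips on points and on their codes. -/
theorem exists_code_iff (P : List (List ℚ)) (q : List (List Bool) → Prop) :
    (∃ R : List (List ℚ), R.Perm P ∧ q (R.map bitEncode)) ↔
      ∃ R : List (List Bool), R.Perm (P.map bitEncode) ∧ q R := by
  constructor
  · rintro ⟨R, h1, h2⟩
    exact ⟨R.map bitEncode, h1.map _, h2⟩
  · rintro ⟨R, h1, h2⟩
    have e : (R.map dcd).map bitEncode = R := by
      rw [List.map_map]
      refine (List.map_congr_left fun c hc => ?_).trans (List.map_id _)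
      obtain ⟨p, _, rfl⟩ := List.mem_map.1 (h1.subset hc)
      simp [dcd_enc]
    refine ⟨R.map dcd, ?_, by rw [e]; exact h2⟩
    have h3 := h1.map dcd
    rw [List.map_map] at h3
    refine h3.trans ?_
    have : P.map (dcd ∘ bitEncode) = P :=
      (List.map_congr_left fun p _ => by simp [dcd_enc]).trans (List.map_id _)
    rw [this]

theorem decision_polytime (hDec : ClaimDec) (hE : ClaimEdges) (hN : ClaimNorm)
    (hS : ClaimScatter) (hU : ClaimUndelimit) (hP : ClaimParse) (h1 : 1 ≤ s)
    (hB : IsPolyhedralBall B) (hf : B = {x | ∀ i, |∑ j, a i j * x j| ≤ 1}) (hc : RawCmp a)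
    [DecidablePred (Decision B)] :
    N68a2faeb.IsPolyTime (fun I : List (List ℚ) × ℚ => decide (Decision B I)) := by
  obtain ⟨C, hCU, hCV, hClv, hCh⟩ := exists_cmpN hc
  obtain ⟨dec, hdec, hdecs⟩ := hDec f _ _ C
  obtain ⟨hun, -⟩ := hU
  obtain ⟨-, ⟨p2, hp2, hp2s⟩, ⟨p3, hp3, hp3s⟩, -⟩ := hP
  let spl : List Bool → List Bool × List Bool := fun x => (undelimit x).getD ([], [])
  have hspl : PTF spl := PTF.optionGetD hun (PTF.const _)
  have hsp : ∀ I : List (List ℚ) × ℚ, spl (bitEncode I) = (bitEncode I.1, bitEncode I.2) := by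
    intro I
    show (undelimit (delimit (bitEncode I.1) ++ bitEncode I.2)).getD ([], []) = _
    rw [undelimit_delimit]; rfl
  let cd : List Bool → List (List Bool) := fun x => p3 (spl x).1
  have hcd : PTF cd := hp3.comp (PTF.fst.comp hspl)
  let ln : List Bool → List (List BQ) := fun x => p2 (spl x).1
  have hln : PTF ln := hp2.comp (PTF.fst.comp hspl)
  let g : List Bool → Bool := fun x =>
    (decide (3 ≤ (cd x).length) && nodupB (cd x)) &&
      ((ln x).all (fun l => decide (l.length = s)) &&
        dec ((spl x).2, (((cd x).headD [], (cd x).headD []), (cd x).tail)))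
  have hg : PTF g := by
    have e1 : PTF (fun x => decide (3 ≤ (cd x).length)) := (PTF.const 3).le hcd.length
    have e2 : PTF (fun x => nodupB (cd x)) := nodupB_ptf hcd
    have e3 : PTF (fun x => (ln x).all (fun l => decide (l.length = s))) :=
      PTF.all' (f := fun x l => decide (l.length = s)) (PTF.snd.length.eq (PTF.const s)) hln
    have e4 : PTF (fun x => dec ((spl x).2, (((cd x).headD [], (cd x).headD []), (cd x).tail))) :=
      hdec.comp ((PTF.snd.comp hspl).pair (((hcd.headD (PTF.const [])).pair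
        (hcd.headD (PTF.const []))).pair hcd.tail))
    exact (e1.and e2).and (e3.and e4)
  refine tm2_of (g := fun x => [g x]) (PTF.cons hg (PTF.const [])) fun I => ?_
  show [g (bitEncode I)] = [decide (Decision B I)]
  congr 1
  rw [Bool.eq_iff_iff, decide_eq_true_iff]
  have ecd : cd (bitEncode I) = I.1.map bitEncode := by
    show p3 (spl (bitEncode I)).1 = _
    rw [hsp, hp3s]
  have eln : ln (bitEncode I) = I.1.map (fun y => y.map repQ) := by
    show p2 (spl (bitEncode I)).1 = _
    rw [hsp, hp2s]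
  have es2 : (spl (bitEncode I)).2 = bitEncode I.2 := by rw [hsp]
  have eg : g (bitEncode I) = ((decide (3 ≤ (cd (bitEncode I)).length) &&
      nodupB (cd (bitEncode I))) &&
      ((ln (bitEncode I)).all (fun l => decide (l.length = s)) &&
        dec ((spl (bitEncode I)).2, (((cd (bitEncode I)).headD [], (cd (bitEncode I)).headD []),
          (cd (bitEncode I)).tail)))) := rfl
  rw [eg]
  rw [ecd, eln, es2, Bool.and_eq_true, Bool.and_eq_true, Bool.and_eq_true, nodup_iff_all,
    decide_eq_true_iff, List.length_map, List.nodup_map_iff bitEncode_injective]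
  unfold Decision IsInput
  have hlen : ((I.1.map (fun y => y.map repQ)).all (fun l => decide (l.length = s)) = true) ↔
      ∀ p ∈ I.1, p.length = s := by
    rw [List.all_eq_true]
    simp
  rw [hlen]
  have hmain : 3 ≤ I.1.length → (dec (bitEncode I.2, (((I.1.map bitEncode).headD [],
      (I.1.map bitEncode).headD []), (I.1.map bitEncode).tail)) = true ↔
      ∃ R : List (List ℚ), R.Perm I.1 ∧ ((I.2 : ℚ) : ℝ) ≤ scatter B (R.map (toPt s))) := by
    intro h3
    have hne : I.1 ≠ [] := by rintro h; rw [h] at h3; simp at h3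
    have hne' : I.1.map (bitEncode (α := List ℚ)) ≠ [] := by simpa using hne
    have hcode : ∀ r ∈ I.1.map (bitEncode (α := List ℚ)), C.V r := by
      intro r hr
      obtain ⟨p, _, rfl⟩ := List.mem_map.1 hr
      rw [hCV]; exact ⟨p, rfl⟩
    have hhd : (I.1.map (bitEncode (α := List ℚ))).headD [] ∈ I.1.map (bitEncode (α := List ℚ)) := by
      cases hl : I.1.map (bitEncode (α := List ℚ)) with
      | nil => exact absurd hl hne'
      | cons c l => simp
    rw [hdecs _ _ _ _ ((hCU _).2 ⟨_, rfl⟩) (hcode _ hhd) (hcode _ hhd)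
      (fun r hr => hcode r (List.mem_of_mem_tail hr)), ← head_tail_perm hE [] _ hne',
      ← exists_code_iff I.1 (fun R => ∀ e ∈ edges R, C.rel (bitEncode I.2) e.1 e.2)]
    refine exists_congr fun R => and_congr_right fun hR => ?_
    have hRne : R ≠ [] := by
      rintro rfl
      exact hne (List.Perm.nil_eq hR).symm
    rw [scatter_iff hN hS h1 hB hf R hRne]
    refine forall₂_congr fun e _ => ?_
    unfold Cmp.rel
    rw [hClv]
    simp only [hCh]
  constructor
  · rintro ⟨⟨q1, q2⟩, q3, q4⟩
    exact ⟨⟨q1, q2, q3⟩, (hmain q1).1 q4⟩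
  · rintro ⟨⟨q1, q2, q3⟩, q4⟩
    exact ⟨⟨q1, q2⟩, q3, (hmain q1).2 q4⟩

/-! ### The optimisation version -/

theorem exists_min_edge {α : Type} (d : α × α → ℝ) : ∀ (l : List (α × α)), l ≠ [] →
    ∃ e ∈ l, ∀ e' ∈ l, d e ≤ d e' := by
  intro l
  induction l with
  | nil => intro h; exact absurd rfl h
  | cons b l ih =>
    intro _
    by_cases hl : l = []
    · subst hl; exact ⟨b, by simp, by simp⟩
    · obtain ⟨e, he, hm⟩ := ih hl
      rcases le_total (d b) (d e) with h | h
      · refine ⟨b, by simp, fun e' he' => ?_⟩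
        rcases List.mem_cons.1 he' with rfl | h'
        · exact le_refl _
        · exact h.trans (hm e' h')
      · refine ⟨e, by simp [he], fun e' he' => ?_⟩
        rcases List.mem_cons.1 he' with rfl | h'
        · exact h
        · exact hm e' h'

theorem exists_max_le {α : Type} (v : α → ℝ) : ∀ (l : List α), l ≠ [] →
    ∃ k ∈ l, ∀ k' ∈ l, v k' ≤ v k := by
  intro l
  induction l with
  | nil => intro h; exact absurd rfl h
  | cons b l ih =>
    intro _
    by_cases hl : l = []
    · subst hl; exact ⟨b, by simp, by simp⟩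
    · obtain ⟨e, he, hm⟩ := ih hl
      rcases le_total (v e) (v b) with h | h
      · refine ⟨b, by simp, fun e' he' => ?_⟩
        rcases List.mem_cons.1 he' with rfl | h'
        · exact le_refl _
        · exact (hm e' h').trans h
      · refine ⟨e, by simp [he], fun e' he' => ?_⟩
        rcases List.mem_cons.1 he' with rfl | h'
        · exact h
        · exact hm e' h'

theorem mem_of_mem_edges {α : Type} {R : List α} {e : α × α} (he : e ∈ edges R) :
    e.1 ∈ R ∧ e.2 ∈ R := by
  unfold edges at he
  obtain ⟨h1, h2⟩ := List.of_mem_zip he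
  exact ⟨h1, (List.mem_rotate).1 h2⟩

theorem edges_ne_nil {α : Type} {R : List α} (hR : R ≠ []) : edges R ≠ [] := by
  intro h
  have h1 := congrArg List.length h
  unfold edges at h1
  rw [List.length_zip, List.length_rotate] at h1
  simp at h1
  exact hR h1

theorem optimum_polytime (hDec : ClaimDec) (hSr : ClaimSearch) (hE : ClaimEdges) (hN : ClaimNorm)
    (hS : ClaimScatter) (hP : ClaimParse) (h1 : 1 ≤ s)
    (hB : IsPolyhedralBall B) (hf : B = {x | ∀ i, |∑ j, a i j * x j| ≤ 1}) (hc : RawCmp a) :
    ∃ opt : List (List ℚ) → List (List ℚ), N68a2faeb.IsPolyTime opt ∧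
      ∀ P, IsInput s P → IsOptimal B P (opt P) := by
  obtain ⟨⟨C, hCU, hCV, hClv, hCh⟩, le, hle, hles⟩ := exists_cmpD hc
  obtain ⟨dec, hdec, hdecs⟩ := hDec f _ _ C
  obtain ⟨srch, hsr, hsrs⟩ := hSr f _ _ C
  obtain ⟨-, -, ⟨p3, hp3, hp3s⟩, p4, hp4, hp4s⟩ := hP
  let cands : List (List Bool) → List (Cand f) := fun cs =>
    (List.finRange f).product (cs.product cs)
  have hcands : PTF cands := (PTF.const (List.finRange f)).product (PTF.id.product PTF.id)
  let good : List (List Bool) → List (Cand f) := fun cs =>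
    (cands cs).filter (fun k => dec (k, ((cs.headD [], cs.headD []), cs.tail)))
  have hgood : PTF good :=
    PTF.filter' (f := fun cs k => dec (k, ((cs.headD [], cs.headD []), cs.tail)))
      (hdec.comp (PTF.snd.pair ((((PTF.fst).headD (PTF.const [])).pair
        ((PTF.fst).headD (PTF.const []))).pair (PTF.fst).tail))) hcands
  let best : List (List Bool) → Option (Cand f) := fun cs =>
    (good cs).find? (fun k => (good cs).all (fun k' => le (k', k)))
  have hbest : PTF best :=
    PTF.find' (f := fun cs k => (good cs).all (fun k' => le (k', k)))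
      (PTF.all' (f := fun (p : List (List Bool) × Cand f) k' => le (k', p.2))
        (hle.comp (PTF.snd.pair (PTF.snd.comp PTF.fst))) (hgood.comp PTF.fst)) hgood
  let raw : List (List Bool) → List (List Bool) := fun cs =>
    ((best cs).map (fun k => srch (k, cs))).getD cs
  have hraw : PTF raw :=
    PTF.optionGetD (PTF.optionMap' (f := fun cs k => srch (k, cs))
      (hsr.comp (PTF.snd.pair PTF.fst)) hbest) PTF.id
  -- valid candidates
  have hgoodU : ∀ P : List (List ℚ), ∀ k ∈ good (P.map bitEncode), C.U k := by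
    intro P k hk
    have h2 := (List.mem_filter.1 hk).1
    have h3 := (List.mem_product.1 h2).2
    obtain ⟨h4, h5⟩ := List.mem_product.1 h3
    obtain ⟨y, _, hy⟩ := List.mem_map.1 h4
    obtain ⟨z, _, hz⟩ := List.mem_map.1 h5
    exact (hCU k).2 ⟨⟨y, hy.symm⟩, ⟨z, hz.symm⟩⟩
  have hcode : ∀ P : List (List ℚ), ∀ r ∈ P.map (bitEncode (α := List ℚ)), C.V r := by
    intro P r hr
    obtain ⟨p, _, rfl⟩ := List.mem_map.1 hr
    rw [hCV]; exact ⟨p, rfl⟩
  have hhd : ∀ P : List (List ℚ), P ≠ [] → (P.map (bitEncode (α := List ℚ))).headD [] ∈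
      P.map (bitEncode (α := List ℚ)) := by
    intro P hne
    cases P with
    | nil => exact absurd rfl hne
    | cons p P => simp
  have hdec' : ∀ (P : List (List ℚ)) (k : Cand f), P ≠ [] → C.U k →
      (dec (k, (((P.map bitEncode).headD [], (P.map bitEncode).headD []),
        (P.map bitEncode).tail)) = true ↔
      ∃ R : List (List Bool), R.Perm (P.map bitEncode) ∧ ∀ e ∈ edges R, C.rel k e.1 e.2) := by
    intro P k hne hk
    rw [hdecs _ _ _ _ hk (hcode P _ (hhd P hne)) (hcode P _ (hhd P hne))
      (fun r hr => hcode P r (List.mem_of_mem_tail hr)), ← head_tail_perm hE []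
        (P.map bitEncode) (by simpa using hne)]
  have hbests : ∀ (P : List (List ℚ)) (k : Cand f), P ≠ [] → best (P.map bitEncode) = some k →
      k ∈ good (P.map bitEncode) ∧ (∀ k' ∈ good (P.map bitEncode), cval a k' ≤ cval a k) ∧
      (srch (k, P.map bitEncode)).Perm (P.map bitEncode) ∧
      ∀ e ∈ edges (srch (k, P.map bitEncode)), C.rel k e.1 e.2 := by
    intro P k hne hk
    have hmem : k ∈ good (P.map bitEncode) := List.mem_of_find?_eq_some hk
    have hall := List.find?_some hk
    have hU := hgoodU P k hmem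
    refine ⟨hmem, fun k' hk' => ?_, ?_⟩
    · have h2 := List.all_eq_true.1 hall k' hk'
      have hU' := (hCU k').1 (hgoodU P k' hk')
      have hU2 := (hCU k).1 hU
      exact (hles k' k hU'.1 hU'.2 hU2.1 hU2.2).1 h2
    · have h3 := (hdec' P k hne hU).1 (List.mem_filter.1 hmem).2
      exact hsrs k _ hU (hcode P) (by simpa using hne) h3
  have hraw0 : ∀ cs, raw cs = ((best cs).map (fun k => srch (k, cs))).getD cs := fun _ => rfl
  have hrawP : ∀ P : List (List ℚ), (raw (P.map bitEncode)).Perm (P.map bitEncode) := by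
    intro P
    by_cases hne : P = []
    · subst hne
      show (((best []).map (fun k => srch (k, []))).getD []).Perm []
      have : best [] = none := by
        show ((good []).find? _) = none
        have : good [] = [] := by
          show ((List.finRange f).product
            (([] : List (List Bool)).product ([] : List (List Bool)))).filter _ = []
          have : (List.finRange f).product
              (([] : List (List Bool)).product ([] : List (List Bool))) = [] := by
            apply List.eq_nil_iff_forall_not_mem.2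
            intro k hk
            have := (List.mem_product.1 (List.mem_product.1 hk).2).1
            simp at this
          rw [this]; rfl
        rw [this]; rfl
      rw [this]; exact List.Perm.refl _
    · cases hb : best (P.map bitEncode) with
      | none =>
        rw [hraw0, hb]; exact List.Perm.refl _
      | some k =>
        rw [hraw0, hb]; exact (hbests P k hne hb).2.2.1
  let opt : List (List ℚ) → List (List ℚ) := fun P => (raw (P.map bitEncode)).map dcd
  have hopt : ∀ P, (opt P).map bitEncode = raw (P.map bitEncode) := by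
    intro P
    show ((raw (P.map bitEncode)).map dcd).map bitEncode = _
    rw [List.map_map]
    refine (List.map_congr_left fun c hc => ?_).trans (List.map_id _)
    obtain ⟨p, _, rfl⟩ := List.mem_map.1 ((hrawP P).subset hc)
    simp [dcd_enc]
  refine ⟨opt, ?_, ?_⟩
  · refine tm2_of (g := fun x => p4 (raw (p3 x))) (hp4.comp (hraw.comp hp3)) fun P => ?_
    show p4 (raw (p3 (bitEncode P))) = bitEncode (opt P)
    rw [hp3s, ← hopt, hp4s]
  · intro P hP
    have hne : P ≠ [] := by
      rintro rfl
      have := hP.1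
      simp at this
    have hperm : (opt P).Perm P := by
      have h3 := (hrawP P).map dcd
      rw [List.map_map] at h3
      have e : P.map (dcd ∘ bitEncode) = P :=
        (List.map_congr_left fun p _ => by simp [dcd_enc]).trans (List.map_id _)
      rw [e] at h3
      exact h3
    refine ⟨hperm, fun R' hR' => ?_⟩
    have hRne : R' ≠ [] := by
      rintro rfl
      exact hne (List.Perm.nil_eq hR').symm
    have hOne : opt P ≠ [] := by
      intro h
      rw [h] at hperm
      exact hne (List.Perm.nil_eq hperm).symm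
    -- the shortest edge of the competitor
    obtain ⟨e0, he0, hmin⟩ := exists_min_edge
      (fun e : List ℚ × List ℚ => pdist B (toPt s e.1) (toPt s e.2)) (edges R') (edges_ne_nil hRne)
    have hsc : scatter B (R'.map (toPt s)) ≤ pdist B (toPt s e0.1) (toPt s e0.2) := by
      have h4 := (hS s B (R'.map (toPt s)) _ (by simpa using hRne)).1 le_rfl
      rw [edges_map] at h4
      exact h4 _ (List.mem_map_of_mem he0)
    obtain ⟨i, hi⟩ := (pdist_iff hN h1 hB hf e0.1 e0.2 _).1 le_rfl
    have hi2 : |hval (a i) (bitEncode e0.1) - hval (a i) (bitEncode e0.2)| ≤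
        pdist B (toPt s e0.1) (toPt s e0.2) :=
      (pdist_iff hN h1 hB hf e0.1 e0.2 _).2 ⟨i, le_rfl⟩
    -- the candidate
    obtain ⟨hm1, hm2⟩ := mem_of_mem_edges he0
    have hm1' : bitEncode e0.1 ∈ P.map bitEncode := List.mem_map_of_mem (hR'.subset hm1)
    have hm2' : bitEncode e0.2 ∈ P.map bitEncode := List.mem_map_of_mem (hR'.subset hm2)
    obtain ⟨k, hk1, hk2, hk3⟩ : ∃ k : Cand f, k ∈ cands (P.map bitEncode) ∧
        (IsCode k.2.1 ∧ IsCode k.2.2) ∧
        cval a k = pdist B (toPt s e0.1) (toPt s e0.2) := by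
      rcases le_total 0 (hval (a i) (bitEncode e0.1) - hval (a i) (bitEncode e0.2)) with h | h
      · refine ⟨(i, (bitEncode e0.2, bitEncode e0.1)), List.mem_product.2 ⟨List.mem_finRange i,
          List.mem_product.2 ⟨hm2', hm1'⟩⟩, ⟨⟨_, rfl⟩, ⟨_, rfl⟩⟩, ?_⟩
        rw [abs_of_nonneg h] at hi hi2
        show hval (a i) (bitEncode e0.1) - hval (a i) (bitEncode e0.2) = _
        exact le_antisymm hi2 hi
      · refine ⟨(i, (bitEncode e0.1, bitEncode e0.2)), List.mem_product.2 ⟨List.mem_finRange i,
          List.mem_product.2 ⟨hm1', hm2'⟩⟩, ⟨⟨_, rfl⟩, ⟨_, rfl⟩⟩, ?_⟩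
        rw [abs_of_nonpos h] at hi hi2
        show hval (a i) (bitEncode e0.2) - hval (a i) (bitEncode e0.1) = _
        linarith
    have hkgood : k ∈ good (P.map bitEncode) := by
      refine List.mem_filter.2 ⟨hk1, ?_⟩
      rw [hdec' P k hne ((hCU k).2 hk2)]
      refine ⟨R'.map bitEncode, hR'.map _, ?_⟩
      intro e he
      unfold Cmp.rel
      rw [hClv, hk3]
      simp only [hCh]
      rw [edges_map] at he
      obtain ⟨e', he', rfl⟩ := List.mem_map.1 he
      exact (pdist_iff hN h1 hB hf e'.1 e'.2 _).1 (hmin e' he')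
    obtain ⟨k0, hk0, hk0m⟩ := exists_max_le (cval a) (good (P.map bitEncode))
      (List.ne_nil_of_mem hkgood)
    have hsome : ∃ kb, best (P.map bitEncode) = some kb := by
      rw [← Option.isSome_iff_exists, List.find?_isSome]
      refine ⟨k0, hk0, List.all_eq_true.2 fun k' hk' => ?_⟩
      have hU' := (hCU k').1 (hgoodU P k' hk')
      have hU2 := (hCU k0).1 (hgoodU P k0 hk0)
      exact (hles k' k0 hU'.1 hU'.2 hU2.1 hU2.2).2 (hk0m k' hk')
    obtain ⟨kb, hkb⟩ := hsome
    obtain ⟨-, hkbm, -, hkbe⟩ := hbests P kb hne hkb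
    have hraweq : raw (P.map bitEncode) = srch (kb, P.map bitEncode) := by
      rw [hraw0, hkb]; rfl
    refine hsc.trans ?_
    rw [scatter_iff hN hS h1 hB hf (opt P) hOne, hopt, hraweq, ← hk3]
    intro e he
    obtain ⟨j, hj⟩ := hkbe e he
    rw [hClv, hCh, hCh] at hj
    exact ⟨j, (hkbm k hkgood).trans hj⟩

end geometry

end Pool.Agent.Scatter
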