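import Pool.Agent.Work.MP_5296b6_lc.GeoStmts

/-!
# The table of a family of values (ClaimGeo)
-/

set_option autoImplicit false

namespace Pool.Agent.Scatter

open Finset Pool.Agent.MaxScatter

namespace Geo

variable {n : ℕ}

/-- Spots. -/
abbrev Spot (n : ℕ) := Tok (Fin n) × Bool

theorem lt_irrefl' (h : Tok (Fin n) → ℝ) (L : ℝ) (x : Spot n) : ¬ spotLt h L x x := by
  unfold spotLt
  rintro (h1 | ⟨-, h1 | ⟨-, h1 | ⟨-, h1⟩⟩⟩) <;> exact lt_irrefl _ h1

theorem lt_trans' (h : Tok (Fin n) → ℝ) (L : ℝ) {x y z : Spot n} (h1 : spotLt h L x y)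
    (h2 : spotLt h L y z) : spotLt h L x z := by
  unfold spotLt at *
  rcases h1 with h1 | ⟨e1, h1⟩
  · rcases h2 with h2 | ⟨e2, -⟩
    · exact Or.inl (h1.trans h2)
    · exact Or.inl (e2 ▸ h1)
  · rcases h2 with h2 | ⟨e2, h2⟩
    · exact Or.inl (e1 ▸ h2)
    · refine Or.inr ⟨e1.trans e2, ?_⟩
      rcases h1 with h1 | ⟨f1, h1⟩
      · rcases h2 with h2 | ⟨f2, -⟩
        · exact Or.inl (h1.trans h2)
        · exact Or.inl (f2 ▸ h1)
      · rcases h2 with h2 | ⟨f2, h2⟩
        · exact Or.inl (f1 ▸ h2)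
        · refine Or.inr ⟨f1.trans f2, ?_⟩
          rcases h1 with h1 | ⟨g1, h1⟩
          · rcases h2 with h2 | ⟨g2, -⟩
            · exact Or.inl (h1.trans h2)
            · exact Or.inl (g2 ▸ h1)
          · rcases h2 with h2 | ⟨g2, h2⟩
            · exact Or.inl (g1 ▸ h2)
            · exact Or.inr ⟨g1.trans g2, h1.trans h2⟩

theorem trichotomy (h : Tok (Fin n) → ℝ) (L : ℝ) (x y : Spot n) :
    spotLt h L x y ∨ x = y ∨ spotLt h L y x := by
  unfold spotLt
  rcases lt_trichotomy (spotVal h L x) (spotVal h L y) with h1 | h1 | h1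
  · exact Or.inl (Or.inl h1)
  · rcases lt_trichotomy x.2 y.2 with h2 | h2 | h2
    · exact Or.inl (Or.inr ⟨h1, Or.inl h2⟩)
    · rcases lt_trichotomy x.1.1 y.1.1 with h3 | h3 | h3
      · exact Or.inl (Or.inr ⟨h1, Or.inr ⟨h2, Or.inl h3⟩⟩)
      · rcases lt_trichotomy x.1.2 y.1.2 with h4 | h4 | h4
        · exact Or.inl (Or.inr ⟨h1, Or.inr ⟨h2, Or.inr ⟨h3, h4⟩⟩⟩)
        · exact Or.inr (Or.inl (Prod.ext (Prod.ext h3 h4) h2))
        · exact Or.inr (Or.inr (Or.inr ⟨h1.symm, Or.inr ⟨h2.symm, Or.inr ⟨h3.symm, h4⟩⟩⟩))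
      · exact Or.inr (Or.inr (Or.inr ⟨h1.symm, Or.inr ⟨h2.symm, Or.inl h3⟩⟩))
    · exact Or.inr (Or.inr (Or.inr ⟨h1.symm, Or.inl h2⟩))
  · exact Or.inr (Or.inr (Or.inl h1))

open Classical in
/-- The rank of a spot. -/
noncomputable def rk (h : Tok (Fin n) → ℝ) (L : ℝ) (x : Spot n) : ℕ :=
  1 + (univ.filter fun y => spotLt h L y x).card

theorem rk_lt (h : Tok (Fin n) → ℝ) (L : ℝ) {x y : Spot n} (h1 : spotLt h L x y) :
    rk h L x < rk h L y := by
  classical
  unfold rk
  refine Nat.add_lt_add_left (card_lt_card ?_) 1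
  rw [Finset.ssubset_iff_of_subset]
  · exact ⟨x, by simp [h1], by simp [lt_irrefl' h L x]⟩
  · intro z hz
    simp only [mem_filter, mem_univ, true_and] at hz ⊢
    exact lt_trans' h L hz h1

theorem rk_inj (h : Tok (Fin n) → ℝ) (L : ℝ) {x y : Spot n} (h1 : rk h L x = rk h L y) :
    x = y := by
  rcases trichotomy h L x y with h2 | h2 | h2
  · exact absurd h1 (rk_lt h L h2).ne
  · exact h2
  · exact absurd h1 (rk_lt h L h2).ne'

theorem rk_lt_iff (h : Tok (Fin n) → ℝ) (L : ℝ) (x y : Spot n) :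
    rk h L x < rk h L y ↔ spotLt h L x y := by
  refine ⟨fun h1 => ?_, rk_lt h L⟩
  rcases trichotomy h L x y with h2 | h2 | h2
  · exact h2
  · rw [h2] at h1; exact absurd h1 (lt_irrefl _)
  · exact absurd h1 (rk_lt h L h2).le.not_gt

theorem card_spot : Fintype.card (Spot n) = 4 * n := by
  simp [Fintype.card_prod]
  ring

theorem rk_le (h : Tok (Fin n) → ℝ) (L : ℝ) (x : Spot n) : rk h L x ≤ 4 * n := by
  classical
  unfold rk
  have h1 : (univ.filter fun y => spotLt h L y x).card < (univ : Finset (Spot n)).card := by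
    refine card_lt_card ?_
    rw [Finset.ssubset_iff_of_subset (filter_subset _ _)]
    exact ⟨x, mem_univ _, by simp [lt_irrefl' h L x]⟩
  rw [card_univ, card_spot] at h1
  omega

theorem rk_surj (h : Tok (Fin n) → ℝ) (L : ℝ) {p : ℕ} (h1 : 1 ≤ p) (h2 : p ≤ 4 * n) :
    ∃ x : Spot n, rk h L x = p := by
  classical
  have h3 : univ.image (rk h L) = Icc 1 (4 * n) := by
    refine eq_of_subset_of_card_le ?_ ?_
    · intro q hq
      obtain ⟨x, -, rfl⟩ := mem_image.1 hq
      exact mem_Icc.2 ⟨by unfold rk; omega, rk_le h L x⟩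
    · rw [card_image_of_injective _ (fun x y hxy => rk_inj h L hxy), card_univ, card_spot]
      simp
  have h4 : p ∈ univ.image (rk h L) := by
    rw [h3]; exact mem_Icc.2 ⟨h1, h2⟩
  obtain ⟨x, -, hx⟩ := mem_image.1 h4
  exact ⟨x, hx⟩

theorem lt_low_high (h : Tok (Fin n) → ℝ) (L : ℝ) (t t' : Tok (Fin n)) :
    spotLt h L (t, false) (t', true) ↔ h t + L ≤ h t' := by
  unfold spotLt spotVal
  simp only [Bool.false_eq_true, if_false, if_true, add_zero, Bool.false_lt_true, true_or,
    and_true]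
  constructor
  · rintro (h1 | h1)
    · exact h1.le
    · exact h1.le
  · intro h1
    exact h1.lt_or_eq

theorem rk_adj (h : Tok (Fin n) → ℝ) (L : ℝ) (v : Fin n) (b : Bool)
    (hv : h (v, false) = h (v, true)) :
    rk h L ((v, true), b) = rk h L ((v, false), b) + 1 := by
  classical
  unfold rk
  have h1 : (univ.filter fun y => spotLt h L y ((v, true), b)) =
      insert ((v, false), b) (univ.filter fun y => spotLt h L y ((v, false), b)) := by
    ext y
    simp only [mem_filter, mem_univ, true_and, mem_insert]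
    have hval : spotVal h L ((v, true), b) = spotVal h L ((v, false), b) := by
      unfold spotVal; simp [hv]
    constructor
    · intro h2
      unfold spotLt at h2 ⊢
      rw [hval] at h2
      rcases h2 with h2 | ⟨e2, h2 | ⟨f2, h2 | ⟨g2, h2⟩⟩⟩
      · exact Or.inr (Or.inl h2)
      · exact Or.inr (Or.inr ⟨e2, Or.inl h2⟩)
      · exact Or.inr (Or.inr ⟨e2, Or.inr ⟨f2, Or.inl h2⟩⟩)
      · left
        refine Prod.ext (Prod.ext g2 ?_) f2
        simp only at h2
        cases hy : y.1.2
        · rfl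
        · rw [hy] at h2
          exact absurd h2 (lt_irrefl _)
    · have h3 : spotLt h L ((v, false), b) ((v, true), b) := by
        unfold spotLt
        exact Or.inr ⟨hval.symm, Or.inr ⟨rfl, Or.inr ⟨rfl, Bool.false_lt_true⟩⟩⟩
      rintro (h2 | h2)
      · rw [h2]; exact h3
      · exact lt_trans' h L h2 h3
  rw [h1, card_insert_of_notMem]
  · ring
  · simp [lt_irrefl' h L ((v, false), b)]

end Geo

open Geo in
theorem claimGeo : ClaimGeo := by
  classical
  intro n f h L
  refine ⟨{ N := 4 * n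
            pos := fun t κ => rk (h κ.1) L (t, κ.2)
            one_le := fun t κ => by unfold rk; omega
            le_N := fun t κ => rk_le _ _ _
            inj := fun t t' i b b' heq => by
              have h1 := rk_inj (h i) L heq
              exact ⟨congrArg Prod.fst h1, congrArg Prod.snd h1⟩
            surj := fun i p h1 h2 => by
              obtain ⟨x, hx⟩ := rk_surj (h i) L h1 h2
              exact ⟨x.1, x.2, hx⟩ }, rfl, ?_, ?_, ?_⟩
  · intro t i b
    simp only [rk]
  · intro t t'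
    unfold Table.Comp
    refine exists_congr fun i => ?_
    simp only
    rw [rk_lt_iff, rk_lt_iff, lt_low_high, lt_low_high, le_abs]
    constructor
    · rintro (h1 | h1)
      · right; linarith
      · left; linarith
    · rintro (h1 | h1)
      · right; linarith
      · left; linarith
  · intro v hv κ
    exact rk_adj (h κ.1) L v κ.2 (hv κ.1)

end Pool.Agent.Scatter
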