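import Pool.Agent.Work.MP_5296b6_lc.IffStmts

/-!
# I5: decision and search with an oracle for the graph
-/

set_option autoImplicit false

namespace Pool.Agent.Work.MP_5296b6_lc

open Pool.Agent.PT Pool.Agent.Scatter Pool.Agent.MaxScatter A4

theorem edges_map' {α β : Type} (f : α → β) (R : List α) :
    edges (R.map f) = (edges R).map (Prod.map f f) := by
  unfold edges
  rw [← List.map_rotate, List.zip_map]

theorem mem_of_mem_edges {α : Type} {R : List α} {e : α × α} (h : e ∈ edges R) :
    e.1 ∈ R ∧ e.2 ∈ R := by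
  unfold edges at h
  obtain ⟨h1, h2⟩ := List.of_mem_zip h
  exact ⟨h1, List.mem_rotate.1 h2⟩

/-- The generic comparisons on lists of values. -/
noncomputable def cmpQ (f : ℕ) (al : Type) [Enc al] : Cmp f BQ (al × (Fin f → BQ)) where
  U := fun _ => True
  V := fun _ => True
  h := fun i p => ((qv (p.2 i) : ℚ) : ℝ)
  lv := fun c => ((qv c : ℚ) : ℝ)
  le0 := fun i p => @decide (qv (p.1.2 i) ≤ qv (p.2.2 i)) (Classical.propDecidable _)
  leL := fun i p => @decide (qv (p.2.1.2 i) + qv p.1 ≤ qv (p.2.2.2 i)) (Classical.propDecidable _)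
  ptf0 := fun i => (QF.of_BQ (PTF.app (PTF.snd.comp PTF.fst) i)).le
    (QF.of_BQ (PTF.app (PTF.snd.comp PTF.snd) i))
  ptfL := fun i => ((QF.of_BQ (PTF.app (PTF.snd.comp (PTF.fst.comp PTF.snd)) i)).add
    (QF.of_BQ PTF.fst)).le (QF.of_BQ (PTF.app (PTF.snd.comp (PTF.snd.comp PTF.snd)) i))
  spec0 := by
    intro i y z _ _
    rw [@decide_eq_true_iff _ (Classical.propDecidable _)]
    exact_mod_cast Iff.rfl
  specL := by
    intro i c y z _ _ _
    rw [@decide_eq_true_iff _ (Classical.propDecidable _)]
    exact_mod_cast Iff.rfl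

theorem rel_cmpQ {f : ℕ} {al : Type} [Enc al] {c : BQ} {p q : al × (Fin f → BQ)} :
    (cmpQ f al).rel c p q ↔ ∃ i, qv c ≤ |qv (p.2 i) - qv (q.2 i)| := by
  unfold Cmp.rel
  refine exists_congr (fun i => ?_)
  show ((qv c : ℚ) : ℝ) ≤ |((qv (p.2 i) : ℚ) : ℝ) - ((qv (q.2 i) : ℚ) : ℝ)| ↔ _
  exact_mod_cast Iff.rfl

section

variable {s f M : ℕ} {ga al : Type} [Enc ga] [Enc al]

/-- Tuples of descriptors. -/
abbrev Cand (s f : ℕ) (al : Type) := Fin f → Fin (s + 1) → Fin s → Dsc al

/-- All candidates with points of `P`. -/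
noncomputable def cands (s f : ℕ) (y0 : al) (P : List al) : List (Cand s f al) :=
  piList (Fin f) (fun _ _ => ((y0, y0), 0)) (piList (Fin (s + 1)) (fun _ => ((y0, y0), 0))
    (piList (Fin s) ((y0, y0), 0) ((P.product P).product (List.range (2 * s + 1)))))

omit [Enc al] in
theorem mem_cands {y0 : al} {P : List al} {W : Cand s f al}
    (h : ∀ i l k, (W i l k).1.1 ∈ P ∧ (W i l k).1.2 ∈ P ∧ (W i l k).2 < 2 * s + 1) :
    W ∈ cands s f y0 P := by
  unfold cands
  refine mem_piList.2 (fun i => mem_piList.2 (fun l => mem_piList.2 (fun k => ?_)))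
  obtain ⟨h1, h2, h3⟩ := h i l k
  exact mem_prod.2 ⟨mem_prod.2 ⟨h1, h2⟩, List.mem_range.2 h3⟩

theorem ptf_cands {α : Type} [Enc α] {y0 : al} {P : α → List al} (hP : PTF P) :
    PTF (fun a => cands s f y0 (P a)) := by
  unfold cands
  exact PTF.piList (PTF.piList (PTF.piList ((hP.product hP).product (PTF.const _))))

/-- The values give the graph. -/
def Matches (M : ℕ) (x : al → Fin s → ℚ) (r : ga → ℚ) (g : ga × (al × al) → Bool)
    (a : ga × List al) (W : Cand s f al) : Prop :=
  ∀ y ∈ a.2, ∀ z ∈ a.2, (g (a.1, (y, z)) = true ↔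
    ∃ i, thr x (r a.1) W ≤ |val M x (r a.1) W y i - val M x (r a.1) W z i|)

variable {x : al → Fin s → ℚ} {r : ga → ℚ} {g : ga × (al × al) → Bool}

theorem ptp_Matches (hV : ClaimVal) (hx : ∀ j, QF (fun y : al => x y j)) (hr : QF r)
    (hg : PTF g) : PTP (fun p : (ga × List al) × Cand s f al => Matches M x r g p.1 p.2) := by
  obtain ⟨h1, h2⟩ := hV s f M ga al x r hx hr
  unfold Matches
  refine PTP.forall_mem (r := fun (p : (ga × List al) × Cand s f al) (y : al) =>
    ∀ z ∈ p.1.2, (g (p.1.1, (y, z)) = true ↔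
    ∃ i, thr x (r p.1.1) p.2 ≤ |val M x (r p.1.1) p.2 y i - val M x (r p.1.1) p.2 z i|)) ?_
    (PTF.snd.comp PTF.fst)
  refine PTP.forall_mem (r := fun (p : ((ga × List al) × Cand s f al) × al) (z : al) =>
    (g (p.1.1.1, (p.2, z)) = true ↔
    ∃ i, thr x (r p.1.1.1) p.1.2 ≤
      |val M x (r p.1.1.1) p.1.2 p.2 i - val M x (r p.1.1.1) p.1.2 z i|)) ?_
    (PTF.snd.comp (PTF.fst.comp PTF.fst))
  have hc : PTF (fun q : (((ga × List al) × Cand s f al) × al) × al =>
      (q.1.1.1.1, q.1.1.2)) := by fun_prop
  have hy : PTF (fun q : (((ga × List al) × Cand s f al) × al) × al =>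
      ((q.1.1.1.1, q.1.1.2), q.1.2)) := by fun_prop
  have hz : PTF (fun q : (((ga × List al) × Cand s f al) × al) × al =>
      ((q.1.1.1.1, q.1.1.2), q.2)) := by fun_prop
  refine PTP.iff (PTP.eq (hg.comp (g := fun q : (((ga × List al) × Cand s f al) × al) × al =>
    (q.1.1.1.1, (q.1.2, q.2))) (by fun_prop)) (PTF.const true)) (PTP.exists_fin (fun i => ?_))
  exact (h2.comp hc).le (((h1 i).comp hy).sub ((h1 i).comp hz)).abs

end

theorem claimGraph (hM : ClaimMatch) (hV : ClaimVal) (hD : ClaimDec) (hS : ClaimSearch)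
    (hE : ClaimEdges) : ClaimGraph := by
  classical
  intro s f M ga al _ _ x r g hx hr hg
  cases isEmpty_or_nonempty al with
  | inl hal =>
    refine ⟨fun _ => false, fun _ => [], PTF.const _, PTF.const _, fun c P hP => ?_⟩
    exfalso
    cases P with
    | nil => exact hP rfl
    | cons y _ => exact hal.elim y
  | inr hal =>
    obtain ⟨y0⟩ := hal
    obtain ⟨h1, φt, hφt, ht⟩ := hV s f M ga al x r hx hr
    choose φ hφ hv using h1
    obtain ⟨dc, hdc, hdcs⟩ := hD f BQ (al × (Fin f → BQ)) (cmpQ f al)
    obtain ⟨sr, hsr, hsrs⟩ := hS f BQ (al × (Fin f → BQ)) (cmpQ f al)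
    -- points with their values
    let vp : (ga × Cand s f al) × al → al × (Fin f → BQ) := fun p => (p.2, fun i => φ i p)
    have hvp : PTF vp := PTF.snd.pair (PTF.pi (fun i => hφ i))
    have hmt := ptp_Matches (M := M) (f := f) hV hx hr hg
    let mt : (ga × List al) × Cand s f al → Bool := fun p =>
      @decide (Matches M x r g p.1 p.2) (Classical.propDecidable _)
    have hmt' : PTF mt := hmt
    have hmap : PTF (fun p : (ga × List al) × Cand s f al =>
        p.1.2.map (fun y => vp ((p.1.1, p.2), y))) :=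
      PTF.map' (f := fun (p : (ga × List al) × Cand s f al) (y : al) => vp ((p.1.1, p.2), y))
        (hvp.comp (g := fun q : ((ga × List al) × Cand s f al) × al =>
          ((q.1.1.1, q.1.2), q.2)) (by fun_prop)) (PTF.snd.comp PTF.fst)
    have hth : PTF (fun p : (ga × List al) × Cand s f al => φt (p.1.1, p.2)) :=
      hφt.comp (g := fun p : (ga × List al) × Cand s f al => (p.1.1, p.2)) (by fun_prop)
    -- decision for one candidate
    let d1 : (ga × List al) × Cand s f al → Bool := fun p =>
      dc (φt (p.1.1, p.2), (((p.1.2.map (fun y => vp ((p.1.1, p.2), y))).headD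
        (vp ((p.1.1, p.2), y0)), (p.1.2.map (fun y => vp ((p.1.1, p.2), y))).headD
        (vp ((p.1.1, p.2), y0))), (p.1.2.map (fun y => vp ((p.1.1, p.2), y))).tail))
    have hd1 : PTF d1 := by
      have hh : PTF (fun p : (ga × List al) × Cand s f al =>
          (p.1.2.map (fun y => vp ((p.1.1, p.2), y))).headD (vp ((p.1.1, p.2), y0))) :=
        hmap.headD (hvp.comp (g := fun p : (ga × List al) × Cand s f al =>
          ((p.1.1, p.2), y0)) (by fun_prop))
      exact hdc.comp (hth.pair ((hh.pair hh).pair hmap.tail))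
    let s1 : (ga × List al) × Cand s f al → List al := fun p =>
      (sr (φt (p.1.1, p.2), p.1.2.map (fun y => vp ((p.1.1, p.2), y)))).map Prod.fst
    have hs1 : PTF s1 :=
      PTF.map' (f := fun (_ : (ga × List al) × Cand s f al) (q : al × (Fin f → BQ)) => q.1)
        (PTF.fst.comp PTF.snd) (hsr.comp (hth.pair hmap))
    -- correctness for one matching candidate
    have hrel : ∀ c P W, Matches M x r g (c, P) W → ∀ y ∈ P, ∀ z ∈ P,
        ((cmpQ f al).rel (φt (c, W)) (vp ((c, W), y)) (vp ((c, W), z)) ↔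
          g (c, (y, z)) = true) := by
      intro c P W hW y hy z hz
      rw [hW y hy z hz, rel_cmpQ]
      refine exists_congr (fun i => ?_)
      show qv (φt (c, W)) ≤ |qv (φ i ((c, W), y)) - qv (φ i ((c, W), z))| ↔ _
      rw [(ht _).2, (hv i _).2, (hv i _).2]
    have hequiv : ∀ c P W, Matches M x r g (c, P) W →
        ((∃ R : List (al × (Fin f → BQ)), R.Perm (P.map (fun y => vp ((c, W), y))) ∧
          ∀ e ∈ edges R, (cmpQ f al).rel (φt (c, W)) e.1 e.2) ↔
        ∃ R : List al, R.Perm P ∧ ∀ e ∈ edges R, g (c, e) = true) := by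
      intro c P W hW
      constructor
      · rintro ⟨R, hR, hRe⟩
        refine ⟨R.map Prod.fst, ?_, ?_⟩
        · have h2 := hR.map Prod.fst
          rw [List.map_map] at h2
          have h3 : (Prod.fst ∘ fun y => vp ((c, W), y)) = id := rfl
          rw [h3, List.map_id] at h2
          exact h2
        · intro e he
          rw [edges_map'] at he
          obtain ⟨e', he', rfl⟩ := List.mem_map.1 he
          obtain ⟨h2, h3⟩ := mem_of_mem_edges he'
          obtain ⟨y, hy, hy'⟩ := List.mem_map.1 (hR.subset h2)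
          obtain ⟨z, hz, hz'⟩ := List.mem_map.1 (hR.subset h3)
          have h4 := hRe e' he'
          rw [← hy', ← hz'] at h4
          have h5 := (hrel c P W hW y hy z hz).1 h4
          show g (c, (e'.1.1, e'.2.1)) = true
          rw [← hy', ← hz']
          exact h5
      · rintro ⟨R, hR, hRe⟩
        refine ⟨R.map (fun y => vp ((c, W), y)), hR.map _, ?_⟩
        intro e he
        rw [edges_map'] at he
        obtain ⟨e', he', rfl⟩ := List.mem_map.1 he
        obtain ⟨h2, h3⟩ := mem_of_mem_edges he'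
        exact (hrel c P W hW _ (hR.subset h2) _ (hR.subset h3)).2 (hRe e' he')
    have hd1s : ∀ c P W, P ≠ [] → Matches M x r g (c, P) W → (d1 ((c, P), W) = true ↔
        ∃ R : List al, R.Perm P ∧ ∀ e ∈ edges R, g (c, e) = true) := by
      intro c P W hP hW
      cases P with
      | nil => exact absurd rfl hP
      | cons p P =>
        rw [← hequiv c (p :: P) W hW]
        show dc (φt (c, W), ((vp ((c, W), p), vp ((c, W), p)),
          P.map (fun y => vp ((c, W), y)))) = true ↔ _
        rw [hdcs _ _ _ _ trivial trivial trivial (fun _ _ => trivial), List.map_cons]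
        exact (hE _ _ _ _).symm
    have hs1s : ∀ c P W, P ≠ [] → Matches M x r g (c, P) W →
        (∃ R : List al, R.Perm P ∧ ∀ e ∈ edges R, g (c, e) = true) →
        (s1 ((c, P), W)).Perm P ∧ ∀ e ∈ edges (s1 ((c, P), W)), g (c, e) = true := by
      intro c P W hP hW hex
      have h2 := hsrs (φt (c, W)) (P.map (fun y => vp ((c, W), y))) trivial
        (fun _ _ => trivial) (by simpa using hP) ((hequiv c P W hW).2 hex)
      obtain ⟨h3, h4⟩ := h2
      refine ⟨?_, ?_⟩
      · have h5 := h3.map Prod.fst
        rw [List.map_map] at h5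
        have h6 : (Prod.fst ∘ fun y => vp ((c, W), y)) = id := rfl
        rw [h6, List.map_id] at h5
        exact h5
      · intro e he
        change e ∈ edges (List.map Prod.fst _) at he
        rw [edges_map'] at he
        obtain ⟨e', he', rfl⟩ := List.mem_map.1 he
        obtain ⟨h5, h6⟩ := mem_of_mem_edges he'
        obtain ⟨y, hy, hy'⟩ := List.mem_map.1 (h3.subset h5)
        obtain ⟨z, hz, hz'⟩ := List.mem_map.1 (h3.subset h6)
        have h7 := h4 e' he'
        rw [← hy', ← hz'] at h7
        have h8 := (hrel c P W hW y hy z hz).1 h7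
        show g (c, (e'.1.1, e'.2.1)) = true
        rw [← hy', ← hz']
        exact h8
    refine ⟨fun a => (cands s f y0 a.2).any (fun W => mt (a, W) && d1 (a, W)),
      fun a => (((cands s f y0 a.2).find? (fun W => mt (a, W))).map
        (fun W => s1 (a, W))).getD [], ?_, ?_, ?_⟩
    · exact PTF.any' (f := fun (a : ga × List al) W => mt (a, W) && d1 (a, W))
        (PTF.and hmt' hd1) (ptf_cands PTF.snd)
    · exact PTF.optionGetD (PTF.optionMap' (f := fun (a : ga × List al) W => s1 (a, W)) hs1
        (PTF.find' (f := fun (a : ga × List al) W => mt (a, W)) hmt' (ptf_cands PTF.snd)))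
        (PTF.const _)
    · rintro c P hP ⟨a, ha, hga⟩
      obtain ⟨W0, hW0, hW0'⟩ := hM s f M al x (r c) P a hP ha
      have hW0m : Matches M x r g (c, P) W0 := by
        intro y hy z hz
        rw [hga y hy z hz]
        exact (hW0' y hy z hz).symm
      have hmts : ∀ W, mt ((c, P), W) = true ↔ Matches M x r g (c, P) W := fun W =>
        @decide_eq_true_iff _ (Classical.propDecidable _)
      constructor
      · rw [List.any_eq_true]
        constructor
        · rintro ⟨W, -, hW⟩
          rw [Bool.and_eq_true, hmts] at hW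
          exact (hd1s c P W hP hW.1).1 hW.2
        · intro h
          refine ⟨W0, mem_cands hW0, ?_⟩
          rw [Bool.and_eq_true, hmts]
          exact ⟨hW0m, (hd1s c P W0 hP hW0m).2 h⟩
      · intro hex
        cases hf : (cands s f y0 P).find? (fun W => mt ((c, P), W)) with
        | none =>
          exfalso
          have h2 := List.find?_eq_none.1 hf W0 (mem_cands hW0)
          exact h2 ((hmts W0).2 hW0m)
        | some W =>
          have h2' := List.find?_some hf
          have h2 := (hmts W).1 h2'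
          have h3 := hs1s c P W hP h2 hex
          show ((((cands s f y0 P).find? (fun W => mt ((c, P), W))).map
            (fun W => s1 ((c, P), W))).getD []).Perm P ∧ ∀ e ∈ edges
            ((((cands s f y0 P).find? (fun W => mt ((c, P), W))).map
            (fun W => s1 ((c, P), W))).getD []), g (c, e) = true
          rw [hf]
          exact h3

end Pool.Agent.Work.MP_5296b6_lc
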