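import Pool.Agent.Work.MP_5296b6_lc.GeoStmts
import Pool.Agent.Work.PT.Auto

/-!
# The generic algorithm: statements
-/

set_option autoImplicit false

namespace Pool.Agent.Scatter

open Pool.Agent.PT Pool.Agent.MaxScatter

/-- Points `al` (with a predicate `V` of valid points), contexts `ga` (carrying a number `lv`),
values `h i` of the points on the tracks and polynomial-time comparisons. -/
structure Cmp (f : ℕ) (ga al : Type) [Enc ga] [Enc al] where
  U : ga → Prop
  V : al → Prop
  h : Fin f → al → ℝ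
  lv : ga → ℝ
  le0 : Fin f → al × al → Bool
  leL : Fin f → ga × (al × al) → Bool
  ptf0 : ∀ i, PTF (le0 i)
  ptfL : ∀ i, PTF (leL i)
  spec0 : ∀ i y z, V y → V z → (le0 i (y, z) = true ↔ h i y ≤ h i z)
  specL : ∀ i c y z, U c → V y → V z → (leL i (c, (y, z)) = true ↔ h i y + lv c ≤ h i z)

/-- The relation `distance ≥ L`. -/
def Cmp.rel {f : ℕ} {ga al : Type} [Enc ga] [Enc al] (C : Cmp f ga al) (c : ga) (y z : al) :
    Prop := ∃ i, C.lv c ≤ |C.h i y - C.h i z|

/-- Decision: can the path from `x` to `y` be completed through the points of `R`? -/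
def ClaimDec : Prop :=
  ∀ (f : ℕ) (ga al : Type) [Enc ga] [Enc al] (C : Cmp f ga al),
    ∃ dec : ga × ((al × al) × List al) → Bool, PTF dec ∧
      ∀ c x y R, C.U c → C.V x → C.V y → (∀ r ∈ R, C.V r) →
        (dec (c, ((x, y), R)) = true ↔ ∃ R' : List al, R'.Perm R ∧ Completes (C.rel c) x y R')

/-- Search: a round-trip with all edges in the relation is found if there is one. -/
def ClaimSearch : Prop :=
  ∀ (f : ℕ) (ga al : Type) [Enc ga] [Enc al] (C : Cmp f ga al),
    ∃ srch : ga × List al → List al, PTF srch ∧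
      ∀ c P, C.U c → (∀ r ∈ P, C.V r) → P ≠ [] →
        (∃ R : List al, R.Perm P ∧ ∀ e ∈ edges R, C.rel c e.1 e.2) →
          (srch (c, P)).Perm P ∧ ∀ e ∈ edges (srch (c, P)), C.rel c e.1 e.2

end Pool.Agent.Scatter
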