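import Pool.Agent.Work.MP_5296b6_lc.QF
import Pool.Agent.Work.MP_5296b6_lc.GenStmts

/-!
# Arbitrary real polyhedral norms: statements

The facet functionals of a real polytope need not be comparable with rational numbers in
polynomial time. It is enough to be able to compute the graph of all pairs of points of distance
at least the threshold: some rational functionals give the same graph, and a list of polynomially
many candidates can be computed.
-/

set_option autoImplicit false

namespace Pool.Agent.Work.MP_5296b6_lc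

open Pool.Agent.PT Pool.Agent.Scatter Pool.Agent.MaxScatter N487b59b3

/-- I2: a point in an open box is, as far as the signs of the affine forms of `H` are concerned,
the average of `s + 1` basic solutions. An element `h` of `H` stands for the affine form
`x ↦ h.1 ⬝ x - h.2`. -/
def ClaimBasic : Prop :=
  ∀ (s : ℕ) (M : ℝ) (H : Finset ((Fin s → ℝ) × ℝ)) (a : Fin s → ℝ),
    (∀ j, |a j| < M) → (∀ j, ((Pi.single j 1 : Fin s → ℝ), M) ∈ H) →
    (∀ j, ((Pi.single j 1 : Fin s → ℝ), -M) ∈ H) →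
      ∃ w : Fin (s + 1) → Fin s → (Fin s → ℝ) × ℝ, (∀ l k, w l k ∈ H) ∧
        (∀ l, (Matrix.of (fun k => (w l k).1)).det ≠ 0) ∧
        ∀ v : Fin (s + 1) → Fin s → ℝ, (∀ l k, ∑ j, (w l k).1 j * v l j = (w l k).2) →
          ∀ h ∈ H, SignType.sign (∑ j, h.1 j * ((∑ l, v l j) / (s + 1)) - h.2) =
            SignType.sign (∑ j, h.1 j * a j - h.2)

/-- Descriptors of hyperplanes: `((y, z), 0)` stands for `{a | a ⬝ (y - z) = r}`,
`(_, j + 1)` for `{a | a j = M}` and `(_, s + j + 1)` for `{a | a j = -M}` (`j < s`). -/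
abbrev Dsc (al : Type) := (al × al) × ℕ

section

variable {al : Type} {s : ℕ}

/-- The normal vector of a hyperplane. -/
def nrm (x : al → Fin s → ℚ) (d : Dsc al) (j : Fin s) : ℚ :=
  if d.2 = 0 then x d.1.1 j - x d.1.2 j
  else if d.2 = (j : ℕ) + 1 ∨ d.2 = s + (j : ℕ) + 1 then 1 else 0

/-- The right hand side of the equation of a hyperplane. -/
def rhs (s M : ℕ) (r : ℚ) (d : Dsc al) : ℚ :=
  if d.2 = 0 then r else if d.2 ≤ s then (M : ℚ) else -(M : ℚ)

/-- The matrix of `s` hyperplanes. -/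
def mtx (x : al → Fin s → ℚ) (W : Fin s → Dsc al) : Matrix (Fin s) (Fin s) ℚ :=
  Matrix.of (fun k j => nrm x (W k) j)

/-- Numerators (Cramer's rule) of the common point of `s` hyperplanes. -/
def crm (M : ℕ) (x : al → Fin s → ℚ) (r : ℚ) (W : Fin s → Dsc al) (j : Fin s) : ℚ :=
  ((mtx x W).updateCol j (fun k => rhs s M r (W k))).det

/-- Numerators of the average of `s + 1` basic solutions. -/
def num (M : ℕ) (x : al → Fin s → ℚ) (r : ℚ) (W : Fin (s + 1) → Fin s → Dsc al) (j : Fin s) : ℚ :=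
  ∑ l, ((mtx x (W l)).det * crm M x r (W l) j) *
    ∏ l' ∈ Finset.univ.erase l, (mtx x (W l')).det ^ 2

/-- Denominator of the average of `s + 1` basic solutions. -/
def den (x : al → Fin s → ℚ) (W : Fin (s + 1) → Fin s → Dsc al) : ℚ :=
  (s + 1) * ∏ l, (mtx x (W l)).det ^ 2

variable {f : ℕ}

/-- Scaled values of the candidate functionals. -/
def val (M : ℕ) (x : al → Fin s → ℚ) (r : ℚ) (W : Fin f → Fin (s + 1) → Fin s → Dsc al)
    (y : al) (i : Fin f) : ℚ :=
  (∑ j, num M x r (W i) j * x y j) * ∏ k ∈ Finset.univ.erase i, den x (W k)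

/-- The scaled threshold. -/
def thr (x : al → Fin s → ℚ) (r : ℚ) (W : Fin f → Fin (s + 1) → Fin s → Dsc al) : ℚ :=
  r * ∏ k, den x (W k)

end

/-- I3: some candidates give the right graph. -/
def ClaimMatch : Prop :=
  ∀ (s f M : ℕ) (al : Type) (x : al → Fin s → ℚ) (r : ℚ) (P : List al)
    (a : Fin f → Fin s → ℝ), P ≠ [] → (∀ i j, |a i j| < (M : ℝ)) →
      ∃ W : Fin f → Fin (s + 1) → Fin s → Dsc al,
        (∀ i l k, (W i l k).1.1 ∈ P ∧ (W i l k).1.2 ∈ P ∧ (W i l k).2 < 2 * s + 1) ∧
        ∀ y ∈ P, ∀ z ∈ P, ((∃ i, thr x r W ≤ |val M x r W y i - val M x r W z i|) ↔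
          ∃ i, (r : ℝ) ≤ |∑ j, a i j * ((x y j : ℝ) - (x z j : ℝ))|)

/-- I4: the values and the threshold are computed in polynomial time. -/
def ClaimVal : Prop :=
  ∀ (s f M : ℕ) (ga al : Type) [Enc ga] [Enc al] (x : al → Fin s → ℚ) (r : ga → ℚ),
    (∀ j, QF (fun y : al => x y j)) → QF r →
      (∀ i, QF (fun p : (ga × (Fin f → Fin (s + 1) → Fin s → Dsc al)) × al =>
        val M x (r p.1.1) p.1.2 p.2 i)) ∧
      QF (fun p : ga × (Fin f → Fin (s + 1) → Fin s → Dsc al) => thr x (r p.1) p.2)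

/-- I5: decision and search with a polynomial-time oracle for the graph. -/
def ClaimGraph : Prop :=
  ∀ (s f M : ℕ) (ga al : Type) [Enc ga] [Enc al] (x : al → Fin s → ℚ) (r : ga → ℚ)
    (g : ga × (al × al) → Bool), (∀ j, QF (fun y : al => x y j)) → QF r → PTF g →
    ∃ (dec : ga × List al → Bool) (srch : ga × List al → List al), PTF dec ∧ PTF srch ∧
      ∀ (c : ga) (P : List al), P ≠ [] →
        (∃ a : Fin f → Fin s → ℝ, (∀ i j, |a i j| < (M : ℝ)) ∧
          ∀ y ∈ P, ∀ z ∈ P, (g (c, (y, z)) = true ↔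
            ∃ i, (r c : ℝ) ≤ |∑ j, a i j * ((x y j : ℝ) - (x z j : ℝ))|)) →
        (dec (c, P) = true ↔ ∃ R : List al, R.Perm P ∧ ∀ e ∈ edges R, g (c, e) = true) ∧
        ((∃ R : List al, R.Perm P ∧ ∀ e ∈ edges R, g (c, e) = true) →
          (srch (c, P)).Perm P ∧ ∀ e ∈ edges (srch (c, P)), g (c, e) = true)

open Classical in
/-- Distances of rational points can be compared with rational numbers in polynomial time. -/
def DistComparable {s : ℕ} (B : Set (Fin s → ℝ)) : Prop :=
  N68a2faeb.IsPolyTime (fun c : (List ℚ × List ℚ) × ℚ =>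
    decide (((c.2 : ℚ) : ℝ) ≤ pdist B (toPt s c.1.1) (toPt s c.1.2)))

open Classical in
/-- Distances of rational points can be compared with each other in polynomial time. -/
def DistOrdered {s : ℕ} (B : Set (Fin s → ℝ)) : Prop :=
  N68a2faeb.IsPolyTime (fun c : (List ℚ × List ℚ) × (List ℚ × List ℚ) =>
    decide (pdist B (toPt s c.1.1) (toPt s c.1.2) ≤ pdist B (toPt s c.2.1) (toPt s c.2.2)))

open Classical in
/-- I6: the decision version needs comparisons of distances with rational numbers. -/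
def ClaimOnlyIf : Prop :=
  ∀ (s : ℕ) (B : Set (Fin s → ℝ)), 1 ≤ s → IsPolyhedralBall B →
    N68a2faeb.IsPolyTime (fun I : List (List ℚ) × ℚ => decide (Decision B I)) → DistComparable B

end Pool.Agent.Work.MP_5296b6_lc
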