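import Pool.Agent.Work.MP_5296b6_lc.Stmts

/-!
# Pairing of a feasible assignment (MP_5296b6_lc, item H1)
-/

set_option autoImplicit false

namespace Pool.Agent.Scatter

open Finset

namespace Pair

variable {α : Type} [DecidableEq α]

/-- Rank of an element of a finite set with respect to a function. -/
def rank (S : Finset α) (f : α → ℕ) (t : α) : ℕ := (S.filter fun s => f s < f t).card

theorem rank_lt {S : Finset α} {f : α → ℕ} {t : α} (ht : t ∈ S) : rank S f t < S.card :=
  card_lt_card (filter_ssubset.2 ⟨t, ht, lt_irrefl _⟩)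

theorem rank_lt_rank {S : Finset α} {f : α → ℕ} {t t' : α} (ht : t ∈ S) (h : f t < f t') :
    rank S f t < rank S f t' := by
  apply card_lt_card
  rw [ssubset_iff_of_subset]
  · exact ⟨t, by simp [ht, h], by simp⟩
  · intro s hs
    simp only [mem_filter] at hs ⊢
    exact ⟨hs.1, hs.2.trans h⟩

theorem rank_inj {S : Finset α} {f : α → ℕ} (hf : Set.InjOn f S) {t t' : α} (ht : t ∈ S)
    (ht' : t' ∈ S) (h : rank S f t = rank S f t') : t = t' := by
  by_contra hne
  have hne' : f t ≠ f t' := fun h' => hne (hf ht ht' h')
  rcases lt_or_gt_of_ne hne' with h' | h'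
  · exact absurd h (rank_lt_rank ht h').ne
  · exact absurd h (rank_lt_rank ht' h').ne'

theorem rank_surj {S : Finset α} {f : α → ℕ} (hf : Set.InjOn f S) {k : ℕ} (hk : k < S.card) :
    ∃ t ∈ S, rank S f t = k := by
  have h1 : S.image (rank S f) = range S.card := by
    apply eq_of_subset_of_card_le
    · intro m hm
      obtain ⟨t, ht, rfl⟩ := mem_image.1 hm
      exact mem_range.2 (rank_lt ht)
    · rw [card_image_of_injOn fun t ht t' ht' h => rank_inj hf ht ht' h, card_range]
  have h2 : k ∈ S.image (rank S f) := by rw [h1]; exact mem_range.2 hk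
  obtain ⟨t, ht, h⟩ := mem_image.1 h2
  exact ⟨t, ht, h⟩

end Pair

open Pair in
theorem claimPair : ClaimPair := by
  intro V ι _ _ _ _ D T hT
  obtain ⟨h0, hN⟩ := hT
  -- the classes
  let C : Side ι → Finset (Tok V) := fun κ => univ.filter fun t => T t = κ
  have hinj : ∀ κ : Side ι, Set.InjOn (fun t => D.pos t κ) (C κ) := by
    rintro ⟨i, b⟩ t - t' - h
    exact (D.inj t t' i b b h).1
  have hcard : ∀ κ : Side ι, (C κ).card = (C (opp κ)).card := by
    have key : ∀ i, (C (i, false)).card = (C (i, true)).card := by
      intro i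
      have h := hN i
      unfold Table.flow at h
      have e1 : (univ.filter fun t : Tok V => T t = (i, false) ∧ D.pos t (i, false) ≤ D.N) =
          C (i, false) := by
        ext t; simp [C, D.le_N]
      have e2 : (univ.filter fun t : Tok V => T t = (i, true) ∧ D.pos t (i, true) ≤ D.N) =
          C (i, true) := by
        ext t; simp [C, D.le_N]
      rw [e1, e2] at h
      omega
    rintro ⟨i, b⟩
    cases b
    · exact key i
    · exact (key i).symm
  have hex : ∀ t : Tok V, ∃ t' ∈ C (opp (T t)),
      rank (C (opp (T t))) (fun s => D.pos s (opp (T t))) t' =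
        rank (C (T t)) (fun s => D.pos s (T t)) t := by
    intro t
    apply rank_surj (hinj _)
    rw [← hcard]
    exact rank_lt (by simp [C])
  choose μ hμ hr using hex
  have hμT : ∀ t, T (μ t) = opp (T t) := by
    intro t
    have := hμ t
    simpa [C] using this
  have hopp : ∀ κ : Side ι, opp (opp κ) = κ := by
    rintro ⟨i, b⟩
    simp [opp]
  refine ⟨μ, ?_, hμT, ?_⟩
  · intro t
    have h1 := hr (μ t)
    rw [hμT t, hopp] at h1
    have h2 := hr t
    rw [h2] at h1
    refine rank_inj (hinj (T t)) ?_ ?_ h1
    · have := hμ (μ t)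
      rw [hμT t, hopp] at this
      exact this
    · simp [C]
  · intro t ht
    obtain ⟨i, hi⟩ : ∃ i, T t = (i, false) := ⟨(T t).1, by rw [← ht]⟩
    have hx : T (μ t) = (i, true) := by rw [hμT, hi]; rfl
    rw [hx, hi]
    by_contra hcon
    push Not at hcon
    have hne : D.pos (μ t) (i, true) ≠ D.pos t (i, false) := by
      intro h
      have := (D.inj _ _ i _ _ h).2
      simp at this
    have hlt : D.pos (μ t) (i, true) < D.pos t (i, false) := lt_of_le_of_ne hcon hne
    have hf := h0 i (D.pos (μ t) (i, true))
    unfold Table.flow at hf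
    -- high tokens
    have e1 : rank (C (i, true)) (fun s => D.pos s (i, true)) (μ t) + 1 ≤
        (univ.filter fun s : Tok V => T s = (i, true) ∧
          D.pos s (i, true) ≤ D.pos (μ t) (i, true)).card := by
      rw [Nat.succ_le_iff]
      apply card_lt_card
      rw [ssubset_iff_of_subset]
      · exact ⟨μ t, by simp [hx], by simp⟩
      · intro s hs
        simp only [C, mem_filter, mem_univ, true_and] at hs ⊢
        exact ⟨hs.1, hs.2.le⟩
    have e2 : (univ.filter fun s : Tok V => T s = (i, false) ∧
          D.pos s (i, false) ≤ D.pos (μ t) (i, true)).card ≤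
        rank (C (i, false)) (fun s => D.pos s (i, false)) t := by
      apply card_le_card
      intro s hs
      simp only [C, mem_filter, mem_univ, true_and] at hs ⊢
      exact ⟨hs.1, lt_of_le_of_lt hs.2 hlt⟩
    have e3 := hr t
    rw [hi] at e3
    have e4 : opp ((i, false) : Side ι) = (i, true) := rfl
    rw [e4] at e3
    omega

end Pool.Agent.Scatter
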