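import Pool.Agent.Work.PT.Auto
import Pool.Agent.Work.PT.Clock

/-!
# Codes of functions on a fixed finite type, bounded reachability
-/

set_option autoImplicit false

namespace Pool.Agent.PT

open Function

variable {α β γ : Type} [Enc α] [Enc β] [Enc γ]

/-- The list of values of a function on a finite type. -/
noncomputable def piVals {ι δ : Type} [Finite ι] (g : ι → δ) : List δ :=
  List.ofFn (fun j : Fin (Nat.card ι) => g ((Finite.equivFin ι).symm j))

theorem piVals_get? {ι δ : Type} [Finite ι] (g : ι → δ) (i : ι) :
    (piVals g)[((Finite.equivFin ι i : Fin (Nat.card ι)) : ℕ)]? = some (g i) := by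
  unfold piVals
  rw [List.getElem?_ofFn, dif_pos (Finite.equivFin ι i).2]
  simp

theorem piVals_injective {ι δ : Type} [Finite ι] : Injective (piVals (ι := ι) (δ := δ)) := by
  intro g h e
  funext i
  have h1 := piVals_get? g i
  rw [e, piVals_get?] at h1
  exact (Option.some.inj h1).symm

theorem mem_piVals {ι δ : Type} [Finite ι] {g : ι → δ} {d : δ} :
    d ∈ piVals g ↔ ∃ i, g i = d := by
  unfold piVals
  rw [List.mem_ofFn]
  constructor
  · rintro ⟨j, rfl⟩; exact ⟨_, rfl⟩
  · rintro ⟨i, rfl⟩; exact ⟨Finite.equivFin ι i, by simp⟩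

noncomputable instance encPi {ι δ : Type} [Finite ι] [Enc δ] : Enc (ι → δ) :=
  ⟨fun g => enc (piVals g), fun _ _ e => piVals_injective (Enc.inj e)⟩

theorem PTF.unsome {f : α → β} (h : PTF (fun a => Option.some (f a))) : PTF f := by
  have h1 : PTF (fun a => (enc (Option.some (f a)) : D)) := h.recode (fun _ => rfl)
  exact (PTF.comp (f := fun t : D => t.hd) (PTF.of_hd (fun _ => rfl)) h1).recode (fun _ => rfl)

theorem PTF.piVals {ι : Type} [Finite ι] {f : α → ι → β} (hf : PTF f) :
    PTF (fun a => piVals (f a)) := hf.recode (fun _ => rfl)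

theorem PTF.app {ι : Type} [Finite ι] {f : α → ι → β} (hf : PTF f) (i : ι) :
    PTF (fun a => f a i) := by
  refine PTF.unsome ((hf.piVals.get? (PTF.const
    ((Finite.equivFin ι i : Fin (Nat.card ι)) : ℕ))).congr (fun a => ?_))
  rw [piVals_get?]

theorem PTF.ofFn {k : ℕ} {f : Fin k → α → β} (hf : ∀ i, PTF (f i)) :
    PTF (fun a => List.ofFn (fun i => f i a)) := by
  induction k with
  | zero => exact (PTF.const (β := List β) []).congr (fun a => by simp)
  | succ k ih =>
    exact (PTF.cons (hf 0) (ih (fun i => hf i.succ))).congr (fun a => by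
      rw [List.ofFn_succ])

@[fun_prop]
theorem PTF.pi {ι : Type} [Finite ι] {f : α → ι → β} (hf : ∀ i, PTF (fun a => f a i)) :
    PTF f :=
  (PTF.ofFn (f := fun (j : Fin (Nat.card ι)) a => f a ((Finite.equivFin ι).symm j))
    (fun j => hf _)).recode (fun _ => rfl)

theorem PTF.forall_fin {ι : Type} [Finite ι] {p : α → ι → Prop} [∀ a i, Decidable (p a i)]
    [∀ a, Decidable (∀ i, p a i)]
    (h : ∀ i, PTF (fun a => decide (p a i))) : PTF (fun a => decide (∀ i, p a i)) := by
  have h1 : PTF (fun a => (PT.piVals (fun i => decide (p a i))).all (fun b => b)) :=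
    PTF.all' PTF.snd (PTF.piVals (PTF.pi h))
  refine h1.congr (fun a => ?_)
  rw [Bool.eq_iff_iff, List.all_eq_true]
  simp [mem_piVals]

theorem PTF.exists_fin {ι : Type} [Finite ι] {p : α → ι → Prop} [∀ a i, Decidable (p a i)]
    [∀ a, Decidable (∃ i, p a i)]
    (h : ∀ i, PTF (fun a => decide (p a i))) : PTF (fun a => decide (∃ i, p a i)) := by
  have h1 : PTF (fun a => (PT.piVals (fun i => decide (p a i))).any (fun b => b)) :=
    PTF.any' PTF.snd (PTF.piVals (PTF.pi h))
  refine h1.congr (fun a => ?_)
  rw [Bool.eq_iff_iff, List.any_eq_true]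
  simp [mem_piVals]

/-! ### All functions with values in a list -/

/-- All lists of length `k` with entries in `l`. -/
def vecList {β : Type} : (k : ℕ) → List β → List (List β)
  | 0, _ => [[]]
  | k + 1, l => (List.product l (vecList k l)).map (fun p => p.1 :: p.2)

theorem mem_vecList {β : Type} {k : ℕ} {l g : List β} :
    g ∈ vecList k l ↔ g.length = k ∧ ∀ b ∈ g, b ∈ l := by
  induction k generalizing g with
  | zero =>
    rw [vecList, List.mem_singleton]
    constructor
    · rintro rfl; simp
    · rintro ⟨h, -⟩; exact List.length_eq_zero_iff.1 h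
  | succ k ih =>
    rw [vecList, List.mem_map]
    constructor
    · rintro ⟨⟨b, h⟩, hp, rfl⟩
      obtain ⟨hb, hh⟩ := List.mem_product.1 hp
      obtain ⟨h1, h2⟩ := ih.1 hh
      refine ⟨by simp [h1], ?_⟩
      intro c hc
      rcases List.mem_cons.1 hc with rfl | hc
      · exact hb
      · exact h2 c hc
    · rintro ⟨h1, h2⟩
      cases g with
      | nil => simp at h1
      | cons b g =>
        exact ⟨(b, g), List.mem_product.2 ⟨h2 b (by simp), ih.2 ⟨by simpa using h1,
          fun c hc => h2 c (by simp [hc])⟩⟩, rfl⟩

theorem PTF.vecList {k : ℕ} {l : α → List β} (hl : PTF l) : PTF (fun a => vecList k (l a)) := by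
  induction k with
  | zero => exact PTF.const _
  | succ k ih =>
    exact PTF.map' (f := fun (_ : α) (p : β × List β) => p.1 :: p.2)
      (PTF.cons (PTF.fst.comp PTF.snd) (PTF.snd.comp PTF.snd)) (hl.product ih)

/-- The function on a finite type with a given list of values. -/
noncomputable def ofVals {ι δ : Type} [Finite ι] (d : δ) (l : List δ) : ι → δ :=
  fun i => l.getD ((Finite.equivFin ι i : Fin (Nat.card ι)) : ℕ) d

/-- All functions `ι → β` with values in `l`. -/
noncomputable def piList {β : Type} (ι : Type) [Finite ι] (d : β) (l : List β) : List (ι → β) :=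
  (vecList (Nat.card ι) l).map (ofVals d)

theorem mem_piList {β : Type} {ι : Type} [Finite ι] {d : β} {l : List β} {g : ι → β} :
    g ∈ piList ι d l ↔ ∀ i, g i ∈ l := by
  unfold piList
  rw [List.mem_map]
  constructor
  · rintro ⟨v, hv, rfl⟩ i
    obtain ⟨h1, h2⟩ := mem_vecList.1 hv
    unfold ofVals
    have h3 : ((Finite.equivFin ι i : Fin (Nat.card ι)) : ℕ) < v.length := by
      rw [h1]; exact (Finite.equivFin ι i).2
    rw [List.getD_eq_getElem _ _ h3]
    exact h2 _ (List.getElem_mem _)
  · intro hg
    refine ⟨piVals g, mem_vecList.2 ⟨by simp [piVals], ?_⟩, ?_⟩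
    · intro b hb
      obtain ⟨i, rfl⟩ := mem_piVals.1 hb
      exact hg i
    · funext i
      unfold ofVals
      rw [List.getD_eq_getElem?_getD, piVals_get?]
      rfl

theorem PTF.piList {ι : Type} [Finite ι] {d : β} {l : α → List β} (hl : PTF l) :
    PTF (fun a => piList ι d (l a)) := by
  have h : PTF (fun v : List β => (ofVals d v : ι → β)) :=
    PTF.pi (fun i => PTF.getD PTF.id (PTF.const _) (PTF.const _))
  exact PTF.map' (f := fun (_ : α) (v : List β) => (ofVals d v : ι → β)) (h.comp PTF.snd)
    (PTF.vecList hl)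

/-! ### Reachability in `N` steps inside a list of states -/

/-- The states reachable from the states in `R` in one step. -/
def reachStep {α σ : Type} (univ : α → List σ) (step : α → σ → σ → Bool) (a : α)
    (R : List σ) : List σ :=
  (univ a).filter (fun t => R.any (fun s => step a s t))

/-- The states reachable in `N` steps. -/
def reach {α σ : Type} (univ : α → List σ) (step : α → σ → σ → Bool) (start : α → σ → Bool)
    (a : α) (N : ℕ) : List σ :=
  (reachStep univ step a)^[N] ((univ a).filter (start a))

theorem mem_reach {α σ : Type} {univ : α → List σ} {step : α → σ → σ → Bool}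
    {start : α → σ → Bool} {a : α} {N : ℕ} {t : σ} :
    t ∈ reach univ step start a N ↔ ∃ p : ℕ → σ, (∀ j ≤ N, p j ∈ univ a) ∧ start a (p 0) = true ∧
      (∀ j < N, step a (p j) (p (j + 1)) = true) ∧ p N = t := by
  induction N generalizing t with
  | zero =>
    show t ∈ (univ a).filter (start a) ↔ _
    rw [List.mem_filter]
    constructor
    · rintro ⟨h1, h2⟩
      exact ⟨fun _ => t, fun _ _ => h1, h2, fun j hj => absurd hj (Nat.not_lt_zero _), rfl⟩
    · rintro ⟨p, h1, h2, -, rfl⟩
      exact ⟨h1 0 le_rfl, h2⟩
  | succ N ih =>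
    have h0 : reach univ step start a (N + 1) =
        reachStep univ step a (reach univ step start a N) := by
      unfold reach; rw [iterate_succ_apply']
    rw [h0, reachStep, List.mem_filter, List.any_eq_true]
    constructor
    · rintro ⟨h1, s, hs, hst⟩
      obtain ⟨p, p1, p2, p3, p4⟩ := ih.1 hs
      refine ⟨fun j => if j ≤ N then p j else t, fun j hj => ?_, ?_, fun j hj => ?_, ?_⟩
      · by_cases h : j ≤ N
        · simp only [h, if_true]; exact p1 j h
        · simp only [h, if_false]; exact h1
      · simpa using p2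
      · by_cases h : j < N
        · have h' : j + 1 ≤ N := h
          simp only [Nat.le_of_lt h, h', if_true]
          exact p3 j h
        · have hj' : j = N := by omega
          subst hj'
          simp [p4, hst]
      · simp
    · rintro ⟨p, p1, p2, p3, rfl⟩
      refine ⟨p1 _ le_rfl, p N, ih.2 ⟨p, fun j hj => p1 j (by omega), p2,
        fun j hj => p3 j (by omega), rfl⟩, p3 N (by omega)⟩

theorem PTF.reach {univ : α → List β} {step : α → β → β → Bool} {start : α → β → Bool}
    {N : α → ℕ} (hu : PTF univ) (hs : PTF (fun p : α × (β × β) => step p.1 p.2.1 p.2.2))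
    (h0 : PTF (fun p : α × β => start p.1 p.2)) (hN : PTF N) :
    PTF (fun a => PT.reach univ step start a (N a)) := by
  have hstep : PTF (fun p : α × List β => reachStep univ step p.1 p.2) := by
    refine PTF.filter' (f := fun (p : α × List β) (t : β) => p.2.any (fun s => step p.1 s t)) ?_
      (hu.comp PTF.fst)
    refine PTF.any' (f := fun (q : (α × List β) × β) (s : β) => step q.1.1 s q.2) ?_
      (PTF.snd.comp PTF.fst)
    exact hs.comp ((PTF.fst.comp (PTF.fst.comp PTF.fst)).pair
      (PTF.snd.pair (PTF.snd.comp PTF.fst)))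
  have hsz : ∀ (l : List β) (p : β → Bool), sz (l.filter p) ≤ sz l := by
    intro l p
    induction l with
    | nil => exact le_refl _
    | cons b l ih =>
      rw [sz_cons, List.filter_cons]
      split
      · rw [sz_cons]; omega
      · omega
  refine PTF.nat_iterate (n := N) (init := fun a => (univ a).filter (start a))
    (step := fun p : α × List β => reachStep univ step p.1 p.2) hN (PTF.filter' h0 hu) hstep
    (fun a => sz (univ a)) hu.size (fun a i _ => ?_)
  cases i with
  | zero => exact hsz _ _
  | succ i => rw [iterate_succ_apply']; exact hsz _ _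

end Pool.Agent.PT
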