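import Pool.Agent.Work.MP_5296b6_lc.IffStmts

/-!
# The optimisation version for arbitrary real polyhedral norms: statements
-/

set_option autoImplicit false

namespace Pool.Agent.Work.MP_5296b6_lc

open Pool.Agent.PT Pool.Agent.Scatter Pool.Agent.MaxScatter N487b59b3

/-- The longer of two distances of rational points can be selected in polynomial time (ties are
broken arbitrarily). -/
def Selectable {s : ℕ} (B : Set (Fin s → ℝ)) : Prop :=
  ∃ sel : (List ℚ × List ℚ) × (List ℚ × List ℚ) → Bool, N68a2faeb.IsPolyTime sel ∧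
    ∀ y z y' z' : List ℚ,
      (sel ((y, z), (y', z')) = true →
        pdist B (toPt s y) (toPt s z) ≤ pdist B (toPt s y') (toPt s z')) ∧
      (sel ((y, z), (y', z')) = false →
        pdist B (toPt s y') (toPt s z') ≤ pdist B (toPt s y) (toPt s z))

/-- An optimal round-trip can be computed in polynomial time. -/
def OptComputable {s : ℕ} (B : Set (Fin s → ℝ)) : Prop :=
  ∃ opt : List (List ℚ) → List (List ℚ), N68a2faeb.IsPolyTime opt ∧
    ∀ P, IsInput s P → IsOptimal B P (opt P)

/-- I7: the optimisation version needs the selection of the longer of two distances. -/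
def ClaimOnlyOpt : Prop :=
  ∀ (s : ℕ) (B : Set (Fin s → ℝ)), 1 ≤ s → IsPolyhedralBall B → OptComputable B → Selectable B

/-- I7a (geometry): seven integer points, three of them far away. `w 0, w 1, w 2` are far from
the points `u, -u, v, -v`; an optimal round-trip uses the edge `{u, -u}` only if `u` is at least
as long as `v`, and avoids it only if `v` is at least as long as `u`. -/
def ClaimSeven : Prop :=
  ∀ (s : ℕ) (B : Set (Fin s → ℝ)), 1 ≤ s → IsPolyhedralBall B →
    ∀ (u v : Fin s → ℝ) (w : Fin 3 → Fin s → ℝ) (R : List (Fin s → ℝ)),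
      (∀ i, ∀ p ∈ [u, -u, v, -v], 2 * max (pnorm B u) (pnorm B v) ≤ pdist B (w i) p) →
      [u, -u, v, -v, w 0, w 1, w 2].Nodup →
      R.Perm [u, -u, v, -v, w 0, w 1, w 2] →
      (∀ R' : List (Fin s → ℝ), R'.Perm [u, -u, v, -v, w 0, w 1, w 2] →
        scatter B R' ≤ scatter B R) →
      (((u, -u) ∈ edges R ∨ (-u, u) ∈ edges R) → pnorm B v ≤ pnorm B u) ∧
      (¬ ((u, -u) ∈ edges R ∨ (-u, u) ∈ edges R) → pnorm B u ≤ pnorm B v)

/-- I7b (codes): from the codes of four points the codes of the seven points of the reduction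
are computed in polynomial time. `d > 0` is a common denominator, `u = d (y - z)`,
`v = d (y' - z')`, and the points `w i = ((i + 1) N, 0, ..., 0)` are as far away as desired. -/
def ClaimSevenCodes : Prop :=
  ∀ (s C : ℕ), 1 ≤ s → ∃ g : (List Bool × List Bool) × (List Bool × List Bool) →
      (List Bool × List Bool) × ((List Bool × List Bool) × List (List Bool)), PTF g ∧
    ∀ y z y' z' : List ℚ, ∃ (d N : ℕ) (u v : Fin s → ℤ),
      0 < d ∧ 0 < N ∧
      (∀ j : Fin s, (u j : ℚ) = d * (y.getD j 0 - z.getD j 0)) ∧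
      (∀ j : Fin s, (v j : ℚ) = d * (y'.getD j 0 - z'.getD j 0)) ∧
      (∀ j : Fin s, C * (|u j| + |v j| + 1) ≤ (N : ℤ)) ∧
      g ((bitEncode y, bitEncode z), (bitEncode y', bitEncode z')) =
        ((bitEncode (List.ofFn fun j => (u j : ℚ)), bitEncode (List.ofFn fun j => (-u j : ℚ))),
          ((bitEncode (List.ofFn fun j => (v j : ℚ)), bitEncode (List.ofFn fun j => (-v j : ℚ))),
            (List.range 3).map (fun i => bitEncode
              (List.ofFn fun j : Fin s => if (j : ℕ) = 0 then (((i + 1) * N : ℕ) : ℚ) else 0))))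

end Pool.Agent.Work.MP_5296b6_lc
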