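import Pool.Agent.Work.MP_5296b6_lc.FinEnc

/-!
# The dynamic program on words

`S` is the finite set of sides. An instance consists of the number of vertices and, for every
side, a word of letters `((vertex, token), own?)`. A partial solution is a pair `(th, δ)`: the
side `κ` has passed the letters number `0, …, th κ - 1` and `δ κ r` says whether the token of the
letter number `r` sits there.
-/

set_option autoImplicit false

namespace Pool.Agent.Work.MP_5296b6_lc

open Pool.Agent.PT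

/-- `((vertex, token), own?)` -/
abbrev Letter := (ℕ × Bool) × Bool

/-- Number of vertices and words. -/
abbrev WInst (S : Type) := ℕ × (S → List Letter)

variable {S : Type}

/-- The letter number `r` of side `κ`. -/
def ltr (I : WInst S) (κ : S) (r : ℕ) : Letter := (I.2 κ).getD r ((0, false), false)

/-- The token is determined: it has a passed server spot, or all its spots are passed demands. -/
def DA (I : WInst S) (th : S → ℕ) (t : ℕ × Bool) : Prop :=
  (∃ κ, (t, true) ∈ (I.2 κ).take (th κ)) ∨ (∀ κ, (t, false) ∈ (I.2 κ).take (th κ))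

/-- The token is placed. -/
def Plc (I : WInst S) (th : S → ℕ) (δ : S → ℕ → Bool) (t : ℕ × Bool) : Prop :=
  ∃ κ, ∃ r < th κ, (ltr I κ r).1 = t ∧ δ κ r = true

/-- The flow of side `κ` after `r` letters. -/
def fl (I : WInst S) (δ : S → ℕ → Bool) (κ : S) (r : ℕ) : ℤ :=
  ∑ j ∈ Finset.range r, if δ κ j = true then (if (ltr I κ j).2 = true then 1 else -1) else 0

/-- Partial solutions. -/
structure PSol (I : WInst S) (th : S → ℕ) (δ : S → ℕ → Bool) : Prop where
  once : ∀ κ κ' r r', r < th κ → r' < th κ' → δ κ r = true → δ κ' r' = true →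
    (ltr I κ r).1 = (ltr I κ' r').1 → κ = κ' ∧ r = r'
  nonneg : ∀ κ r, r ≤ th κ → 0 ≤ fl I δ κ r

/-- Closed colourings; `A κ (r + 1)` is the colour of the position of letter number `r`. -/
structure Colg (I : WInst S) (th : S → ℕ) (δ : S → ℕ → Bool) (A : S → ℕ → Bool)
    (c : ℕ → Bool) : Prop where
  flow : ∀ κ r, r < th κ → 0 < fl I δ κ r → A κ (r + 1) = A κ r
  tok : ∀ κ r, r < th κ → δ κ r = true → A κ (r + 1) = c (ltr I κ r).1.1

/-- Irregular vertices. -/
def Irr (I : WInst S) (th : S → ℕ) (δ : S → ℕ → Bool) (v : ℕ) : Prop :=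
  ¬ ((Plc I th δ (v, false) ↔ DA I th (v, false)) ∧ (Plc I th δ (v, true) ↔ DA I th (v, true)) ∧
    (DA I th (v, false) ↔ DA I th (v, true)))

/-- Some placed token has colour `b`. -/
def Used (I : WInst S) (th : S → ℕ) (δ : S → ℕ → Bool) (c : ℕ → Bool) (b : Bool) : Prop :=
  ∃ κ, ∃ r < th κ, δ κ r = true ∧ c (ltr I κ r).1.1 = b

/-- Complete solutions at a closed cut. -/
structure Good (I : WInst S) (opp : S → S) (N : ℕ) (th : S → ℕ) (δ : S → ℕ → Bool) :
    Prop where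
  sol : PSol I th δ
  closed : ∀ κ, th κ + th (opp κ) = N
  all : ∀ v < I.1, ∀ b, Plc I th δ (v, b)
  flow : ∀ κ, fl I δ κ (th κ) = fl I δ (opp κ) (th (opp κ))
  conn : ∀ A c, Colg I th δ A c →
    (∀ κ, 0 < fl I δ κ (th κ) → A κ (th κ) = A (opp κ) (th (opp κ))) →
    ¬ (Used I th δ c false ∧ Used I th δ c true)

/-- Traces of colourings: colours of the boundary positions, colours of the vertices in the
slots, colours used. -/
abbrev Tr (S : Type) (K : ℕ) := (S → Bool) × (Fin K → Bool) × (Bool × Bool)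

/-- States: thresholds, flows, slots of irregular vertices, their placed tokens, traces. -/
abbrev St (S : Type) (K : ℕ) :=
  (S → ℕ) × (S → ℕ) × (Fin K → Option ℕ) × (Fin K → Bool × Bool) × (Tr S K → Bool)

variable {K : ℕ}

/-- Thresholds. -/
def sth (s : St S K) : S → ℕ := s.1
/-- Flows. -/
def sg (s : St S K) : S → ℕ := s.2.1
/-- Slots. -/
def ssl (s : St S K) : Fin K → Option ℕ := s.2.2.1
/-- Placed tokens of the vertices in the slots. -/
def spl (s : St S K) : Fin K → Bool × Bool := s.2.2.2.1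
/-- Traces. -/
def str (s : St S K) : Tr S K → Bool := s.2.2.2.2

/-- A colouring has trace `τ`. -/
def Match (I : WInst S) (th : S → ℕ) (δ : S → ℕ → Bool) (sl : Fin K → Option ℕ)
    (A : S → ℕ → Bool) (c : ℕ → Bool) (τ : Tr S K) : Prop :=
  (∀ κ, τ.1 κ = A κ (th κ)) ∧ (∀ k v, sl k = some v → τ.2.1 k = c v) ∧
  (τ.2.2.1 = true ↔ Used I th δ c false) ∧ (τ.2.2.2 = true ↔ Used I th δ c true)

/-- The state `s` represents the partial solution `(th, δ)`. -/
structure Rep (I : WInst S) (s : St S K) (th : S → ℕ) (δ : S → ℕ → Bool) : Prop where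
  hth : sth s = th
  g : ∀ κ, (sg s κ : ℤ) = fl I δ κ (th κ)
  sl : ∀ v, (∃ k, ssl s k = some v) ↔ (v < I.1 ∧ Irr I th δ v)
  inj : ∀ k k' v, ssl s k = some v → ssl s k' = some v → k = k'
  pl : ∀ k v, ssl s k = some v → ((spl s k).1 = true ↔ Plc I th δ (v, false)) ∧
    ((spl s k).2 = true ↔ Plc I th δ (v, true))
  tr : ∀ τ, str s τ = true ↔ ∃ A c, Colg I th δ A c ∧ Match I th δ (ssl s) A c τ

/-- The token is placed, according to the state. -/
def Pls (I : WInst S) (s : St S K) (t : ℕ × Bool) : Prop :=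
  (∃ k, ssl s k = some t.1 ∧ (if t.2 = true then (spl s k).2 else (spl s k).1) = true) ∨
  ((∀ k, ssl s k ≠ some t.1) ∧ DA I (sth s) t)

/-- Compatible traces before and after side `κ` passes a letter of the vertex `v`; `d`: a token
is placed. -/
def Compat (κ : S) (d : Bool) (v : ℕ) (s s2 : St S K) (τ τ' : Tr S K) : Prop :=
  (∀ κ', κ' ≠ κ → τ'.1 κ' = τ.1 κ') ∧
  (0 < sg s κ → τ'.1 κ = τ.1 κ) ∧
  (∀ k k', ssl s k = ssl s2 k' → ssl s k ≠ none → τ.2.1 k = τ'.2.1 k') ∧
  (d = true → ∀ k, ssl s k = some v → τ.2.1 k = τ'.1 κ) ∧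
  (d = true → ∀ k, ssl s2 k = some v → τ'.2.1 k = τ'.1 κ) ∧
  (τ'.2.2.1 = true ↔ (τ.2.2.1 = true ∨ (d = true ∧ τ'.1 κ = false))) ∧
  (τ'.2.2.2 = true ↔ (τ.2.2.2 = true ∨ (d = true ∧ τ'.1 κ = true)))

/-- The token is placed after the step. -/
def Pls' (I : WInst S) (κ : S) (d : Bool) (s : St S K) (t : ℕ × Bool) : Prop :=
  Pls I s t ∨ (d = true ∧ (ltr I κ (sth s κ)).1 = t)

/-- Side `κ` passes its next letter; `d`: its token is placed there. -/
structure Step (I : WInst S) (κ : S) (d : Bool) (s s2 : St S K) : Prop where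
  lt : sth s κ < (I.2 κ).length
  th : sth s2 κ = sth s κ + 1
  th' : ∀ κ', κ' ≠ κ → sth s2 κ' = sth s κ'
  g0 : d = false → sg s2 κ = sg s κ
  g1 : d = true → (ltr I κ (sth s κ)).2 = true → sg s2 κ = sg s κ + 1
  g2 : d = true → (ltr I κ (sth s κ)).2 = false → sg s2 κ + 1 = sg s κ
  g' : ∀ κ', κ' ≠ κ → sg s2 κ' = sg s κ'
  new : d = true → ¬ Pls I s (ltr I κ (sth s κ)).1
  old : ∀ k, ssl s k ≠ none → ssl s k ≠ some (ltr I κ (sth s κ)).1.1 →
    ssl s2 k = ssl s k ∧ spl s2 k = spl s k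
  here : ∀ k, (ssl s k = none ∨ ssl s k = some (ltr I κ (sth s κ)).1.1) →
    (ssl s2 k = none ∨ ssl s2 k = some (ltr I κ (sth s κ)).1.1)
  uniq : ∀ k k', ssl s2 k = some (ltr I κ (sth s κ)).1.1 →
    ssl s2 k' = some (ltr I κ (sth s κ)).1.1 → k = k'
  irr : (∃ k, ssl s2 k = some (ltr I κ (sth s κ)).1.1) ↔
    ¬ ((Pls' I κ d s ((ltr I κ (sth s κ)).1.1, false) ↔ DA I (sth s2) ((ltr I κ (sth s κ)).1.1, false)) ∧
      (Pls' I κ d s ((ltr I κ (sth s κ)).1.1, true) ↔ DA I (sth s2) ((ltr I κ (sth s κ)).1.1, true)) ∧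
      (DA I (sth s2) ((ltr I κ (sth s κ)).1.1, false) ↔
        DA I (sth s2) ((ltr I κ (sth s κ)).1.1, true)))
  pl : ∀ k, ssl s2 k = some (ltr I κ (sth s κ)).1.1 →
    ((spl s2 k).1 = true ↔ Pls' I κ d s ((ltr I κ (sth s κ)).1.1, false)) ∧
    ((spl s2 k).2 = true ↔ Pls' I κ d s ((ltr I κ (sth s κ)).1.1, true))
  tr : ∀ τ', str s2 τ' = true ↔
    ∃ τ, str s τ = true ∧ Compat κ d (ltr I κ (sth s κ)).1.1 s s2 τ τ'

/-- Start states. -/
structure Start (s : St S K) : Prop where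
  th : ∀ κ, sth s κ = 0
  g : ∀ κ, sg s κ = 0
  sl : ∀ k, ssl s k = none
  tr : ∀ τ, str s τ = true ↔ (τ.2.2.1 = false ∧ τ.2.2.2 = false)

/-- Accepting states. -/
structure Acc (I : WInst S) (opp : S → S) (N : ℕ) (s : St S K) : Prop where
  closed : ∀ κ, sth s κ + sth s (opp κ) = N
  all : ∀ v < I.1, ∀ b, Pls I s (v, b)
  flow : ∀ κ, sg s κ = sg s (opp κ)
  conn : ∀ τ, str s τ = true → (∀ κ, 0 < sg s κ → τ.1 κ = τ.1 (opp κ)) →
    ¬ (τ.2.2.1 = true ∧ τ.2.2.2 = true)

/-- Well-formed instances. -/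
structure WF (I : WInst S) (N : ℕ) : Prop where
  len : ∀ κ, (I.2 κ).length = N
  vert : ∀ κ, ∀ l ∈ I.2 κ, l.1.1 < I.1

end Pool.Agent.Work.MP_5296b6_lc
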