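import Pool.Agent.Work.MP_5296b6_lc.Bd.B03

/-!
# The dynamic program on words: the algorithm, soundness and completeness
-/

set_option autoImplicit false

namespace Pool.Agent.Work.MP_5296b6_lc

open Pool.Agent.PT

theorem mem_prod {α β : Type} {l : List α} {m : List β} {p : α × β} :
    p ∈ List.product l m ↔ p.1 ∈ l ∧ p.2 ∈ m := by
  obtain ⟨a, b⟩ := p
  exact List.mem_product

variable {S : Type} {K : ℕ} {I : WInst S} {N : ℕ}

theorem PSol.mono {th th' : S → ℕ} {δ : S → ℕ → Bool} (h : PSol I th' δ)
    (hle : ∀ κ, th κ ≤ th' κ) : PSol I th δ :=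
  ⟨fun κ κ' r r' h1 h2 => h.once κ κ' r r' (lt_of_lt_of_le h1 (hle _))
    (lt_of_lt_of_le h2 (hle _)), fun κ r h1 => h.nonneg κ r (h1.trans (hle κ))⟩

theorem fl_le (I : WInst S) (δ : S → ℕ → Bool) (κ : S) (r : ℕ) : fl I δ κ r ≤ r := by
  induction r with
  | zero => rw [fl_zero]; rfl
  | succ r ih =>
    rw [fl_succ]
    push_cast
    split
    · split <;> omega
    · omega

variable [Finite S]

/-- All states with thresholds and flows at most `N` and vertices below `n`. -/
noncomputable def univ (S : Type) [Finite S] (K : ℕ) (a : ℕ × WInst S) : List (St S K) :=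
  (piList S 0 (List.range (a.1 + 1))).product ((piList S 0 (List.range (a.1 + 1))).product
    ((piList (Fin K) none (none :: (List.range a.2.1).map Option.some)).product
      ((piList (Fin K) (false, false) [(false, false), (false, true), (true, false),
        (true, true)]).product (piList (Tr S K) false [false, true]))))

theorem mem_univ {a : ℕ × WInst S} {s : St S K} : s ∈ univ S K a ↔
    (∀ κ, sth s κ ≤ a.1) ∧ (∀ κ, sg s κ ≤ a.1) ∧
      ∀ k, ssl s k = none ∨ ∃ v < a.2.1, ssl s k = some v := by
  obtain ⟨t, g, sl, pl, tr⟩ := s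
  unfold univ
  rw [mem_prod, mem_prod, mem_prod, mem_prod, mem_piList, mem_piList, mem_piList, mem_piList,
    mem_piList]
  simp only [List.mem_range, List.mem_cons, List.mem_map, List.not_mem_nil, or_false]
  constructor
  · rintro ⟨h1, h2, h3, -, -⟩
    refine ⟨fun κ => Nat.lt_succ_iff.1 (h1 κ), fun κ => Nat.lt_succ_iff.1 (h2 κ), fun k => ?_⟩
    rcases h3 k with h | ⟨v, hv, hv'⟩
    · exact Or.inl h
    · exact Or.inr ⟨v, hv, hv'.symm⟩
  · rintro ⟨h1, h2, h3⟩
    refine ⟨fun κ => Nat.lt_succ_iff.2 (h1 κ), fun κ => Nat.lt_succ_iff.2 (h2 κ), fun k => ?_,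
      fun k => ?_, fun τ => ?_⟩
    · rcases h3 k with h | ⟨v, hv, hv'⟩
      · exact Or.inl h
      · exact Or.inr ⟨v, hv, hv'.symm⟩
    · rcases pl k with ⟨_ | _, _ | _⟩ <;> simp
    · cases tr τ <;> simp

/-- Steps of the search (standing still is allowed). -/
noncomputable def stepB (K : ℕ) (a : ℕ × WInst S) (s s2 : St S K) : Bool :=
  @decide (s = s2 ∨ ∃ κ d, Step a.2 κ d s s2) (Classical.propDecidable _)

omit [Finite S] in
theorem stepB_iff {a : ℕ × WInst S} {s s2 : St S K} :
    stepB K a s s2 = true ↔ (s = s2 ∨ ∃ κ d, Step a.2 κ d s s2) :=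
  @decide_eq_true_iff _ (Classical.propDecidable _)

/-- Start states. -/
noncomputable def startB (K : ℕ) (_ : ℕ × WInst S) (s : St S K) : Bool :=
  @decide (Start s) (Classical.propDecidable _)

omit [Finite S] in
theorem startB_iff {a : ℕ × WInst S} {s : St S K} : startB K a s = true ↔ Start s :=
  @decide_eq_true_iff _ (Classical.propDecidable _)

/-- Accepting states. -/
noncomputable def accB (opp : S → S) (K : ℕ) (a : ℕ × WInst S) (s : St S K) : Bool :=
  @decide (Acc a.2 opp a.1 s) (Classical.propDecidable _)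

omit [Finite S] in
theorem accB_iff {opp : S → S} {a : ℕ × WInst S} {s : St S K} :
    accB opp K a s = true ↔ Acc a.2 opp a.1 s :=
  @decide_eq_true_iff _ (Classical.propDecidable _)

/-- The algorithm. -/
noncomputable def alg (opp : S → S) (K : ℕ) (a : ℕ × WInst S) : Bool :=
  (reach (univ S K) (stepB K) (startB K) a (Nat.card S * a.1)).any (accB opp K a)

theorem alg_sound [Nonempty S] {opp : S → S} {a : ℕ × WInst S} (hW : WF a.2 a.1)
    (h : alg opp K a = true) : ∃ th δ, Good a.2 opp a.1 th δ := by
  classical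
  unfold alg at h
  rw [List.any_eq_true] at h
  obtain ⟨t, ht, hacc⟩ := h
  obtain ⟨p, -, hstart, hstep, rfl⟩ := mem_reach.1 ht
  have key : ∀ j ≤ Nat.card S * a.1, ∃ th δ, Rep a.2 (p j) th δ ∧ PSol a.2 th δ := by
    intro j
    induction j with
    | zero =>
      intro _
      exact ⟨fun _ => 0, fun _ _ => false, start_rep (startB_iff.1 hstart) (fun _ => rfl),
        start_psol (fun _ => rfl)⟩
    | succ j ih =>
      intro hj
      obtain ⟨th, δ, hr, hp⟩ := ih (by omega)
      rcases stepB_iff.1 (hstep j (by omega)) with h1 | ⟨κ, d, h1⟩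
      · rw [← h1]; exact ⟨th, δ, hr, hp⟩
      · have he : Ext κ d th δ (Function.update th κ (th κ + 1))
            (Function.update δ κ (Function.update (δ κ) (th κ) d)) := by
          refine ⟨by rw [Function.update_self], fun κ' h => by rw [Function.update_of_ne h],
            fun κ' r h => ?_, by rw [Function.update_self, Function.update_self]⟩
          by_cases e : κ' = κ
          · subst e
            rw [Function.update_self, Function.update_of_ne (by omega)]
          · rw [Function.update_of_ne e]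
        exact ⟨_, _, step_rep hW hr hp he h1, step_psol hW hr hp he h1⟩
  obtain ⟨th, δ, hr, hp⟩ := key _ le_rfl
  exact ⟨th, δ, (acc_iff hr hp).1 (accB_iff.1 hacc)⟩

theorem rep_mem_univ {s : St S K} {th : S → ℕ} {δ : S → ℕ → Bool}
    (hr : Rep I s th δ) (hle : ∀ κ, th κ ≤ N) : s ∈ univ S K (N, I) := by
  rw [mem_univ]
  refine ⟨fun κ => by rw [hr.hth]; exact hle κ, fun κ => ?_, fun k => ?_⟩
  · have h1 := fl_le I δ κ (th κ)
    rw [← hr.g κ] at h1
    have h2 := hle κ
    show sg s κ ≤ N
    omega
  · cases h : ssl s k with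
    | none => exact Or.inl rfl
    | some v => exact Or.inr ⟨v, ((hr.sl v).1 ⟨k, h⟩).1, rfl⟩

theorem alg_complete [Nonempty S] {opp : S → S} (hW : WF I N) {δ : S → ℕ → Bool}
    {th : ℕ → S → ℕ} {m : ℕ} (h0 : ∀ κ, th 0 κ = 0)
    (hstep : ∀ j < m, ∃ κ, th (j + 1) κ = th j κ + 1 ∧ ∀ κ', κ' ≠ κ → th (j + 1) κ' = th j κ')
    (hK : ∀ j ≤ m, {v | v < I.1 ∧ Irr I (th j) δ v}.ncard ≤ K)
    (hG : Good I opp N (th m) δ) : alg opp K (N, I) = true := by
  classical
  have hmono1 : ∀ j < m, ∀ κ, th j κ ≤ th (j + 1) κ := by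
    intro j hj κ
    obtain ⟨κ', h, h'⟩ := hstep j hj
    by_cases e : κ = κ'
    · subst e; omega
    · rw [h' _ e]
  have hmono : ∀ j ≤ m, ∀ κ, th j κ ≤ th m κ := by
    intro j hj
    induction hj using Nat.decreasingInduction with
    | self => exact fun κ => le_rfl
    | of_succ j hj ih => exact fun κ => (hmono1 j hj κ).trans (ih κ)
  have hN : ∀ κ, th m κ ≤ N := fun κ => by have := hG.closed κ; omega
  -- the length of the chain
  have := Fintype.ofFinite S
  have hsum : ∀ j ≤ m, ∑ κ, th j κ = j := by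
    intro j
    induction j with
    | zero => intro _; simp [h0]
    | succ j ih =>
      intro hj
      obtain ⟨κ, h, h'⟩ := hstep j (by omega)
      have h1 : ∀ κ', th (j + 1) κ' = th j κ' + if κ' = κ then 1 else 0 := by
        intro κ'
        by_cases e : κ' = κ
        · subst e; rw [if_pos rfl, h]
        · rw [if_neg e, h' _ e]; rfl
      rw [Finset.sum_congr rfl (fun κ' _ => h1 κ'), Finset.sum_add_distrib, ih (by omega)]
      simp
  have hm : m ≤ Nat.card S * N := by
    have h1 := hsum m le_rfl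
    have h2 : ∑ κ, th m κ ≤ ∑ _κ : S, N := Finset.sum_le_sum (fun κ _ => hN κ)
    rw [h1, Finset.sum_const, Finset.card_univ, smul_eq_mul, ← Nat.card_eq_fintype_card] at h2
    exact h2
  -- the path of states
  have key : ∀ j ≤ m, ∃ p : ℕ → St S K, Start (p 0) ∧
      (∀ i < j, ∃ κ d, Step I κ d (p i) (p (i + 1))) ∧ ∀ i ≤ j, Rep I (p i) (th i) δ := by
    intro j
    induction j with
    | zero =>
      intro _
      obtain ⟨s, hs⟩ := exists_start (S := S) (K := K)
      refine ⟨fun _ => s, hs, fun i hi => absurd hi (Nat.not_lt_zero _), fun i hi => ?_⟩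
      have : i = 0 := by omega
      subst this
      exact start_rep hs h0
    | succ j ih =>
      intro hj
      obtain ⟨p, p1, p2, p3⟩ := ih (by omega)
      obtain ⟨κ, hκ, hκ'⟩ := hstep j (by omega)
      have he : Ext κ (δ κ (th j κ)) (th j) δ (th (j + 1)) δ :=
        ⟨hκ, hκ', fun _ _ _ => rfl, rfl⟩
      have hlt : th j κ < (I.2 κ).length := by
        rw [hW.len]
        have h1 := hmono (j + 1) hj κ
        rw [he.t1] at h1
        have h2 := hN κ
        omega
      obtain ⟨s2, hs2⟩ := step_exists hW (p3 j le_rfl) he (hG.sol.mono (hmono (j + 1) hj)) hlt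
        (hK (j + 1) hj)
      have hr2 := step_rep hW (p3 j le_rfl) (hG.sol.mono (hmono j (by omega))) he hs2
      refine ⟨fun i => if i ≤ j then p i else s2, by simpa using p1, fun i hi => ?_,
        fun i hi => ?_⟩
      · by_cases h : i < j
        · have h' : i + 1 ≤ j := h
          simp only [Nat.le_of_lt h, h', if_true]
          exact p2 i h
        · have hi' : i = j := by omega
          subst hi'
          simp only [le_refl, if_true, Nat.not_succ_le_self, if_false]
          exact ⟨_, _, hs2⟩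
      · by_cases h : i ≤ j
        · simp only [h, if_true]; exact p3 i h
        · have hi' : i = j + 1 := by omega
          subst hi'
          simp only [Nat.not_succ_le_self, if_false]
          exact hr2
  obtain ⟨p, p1, p2, p3⟩ := key m le_rfl
  unfold alg
  rw [List.any_eq_true]
  refine ⟨p m, mem_reach.2 ⟨fun j => p (min j m), fun j _ => ?_, ?_, fun j _ => ?_, ?_⟩, ?_⟩
  · exact rep_mem_univ (p3 _ (Nat.min_le_right _ _))
      (fun κ => (hmono _ (Nat.min_le_right _ _) κ).trans (hN κ))
  · exact startB_iff.2 (by simpa using p1)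
  · rw [stepB_iff]
    show p (min j m) = p (min (j + 1) m) ∨ ∃ κ d, Step I κ d (p (min j m)) (p (min (j + 1) m))
    by_cases h : j < m
    · rw [Nat.min_eq_left h.le, Nat.min_eq_left (show j + 1 ≤ m from h)]
      exact Or.inr (p2 j h)
    · rw [Nat.min_eq_right (by omega), Nat.min_eq_right (by omega)]
      exact Or.inl rfl
  · show p (min _ m) = p m
    rw [Nat.min_eq_right hm]
  · exact accB_iff.2 ((acc_iff (p3 m le_rfl) hG.sol).2 hG)

end Pool.Agent.Work.MP_5296b6_lc
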