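import Pool.Agent.Work.MP_5296b6_lc.DPMain

/-!
# The dynamic program on words: the algorithm is polynomial-time
-/

set_option autoImplicit false

namespace Pool.Agent.PT

open Function

/-- Predicates decided in polynomial time. -/
def PTP {α : Type} [Enc α] (p : α → Prop) : Prop :=
  PTF (fun a => @decide (p a) (Classical.propDecidable _))

section ptp

variable {α β γ : Type} [Enc α] [Enc β] [Enc γ] {p q : α → Prop}

theorem PTP.of_ptf [∀ a, Decidable (p a)] (h : PTF (fun a => decide (p a))) : PTP p :=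
  h.congr (fun a => by congr)

theorem PTP.ptf (h : PTP p) [∀ a, Decidable (p a)] : PTF (fun a => decide (p a)) :=
  PTF.congr h (fun a => by congr)

theorem PTP.congr (h : PTP p) (e : ∀ a, p a ↔ q a) : PTP q := by
  have : p = q := funext (fun a => propext (e a))
  rwa [← this]

theorem PTP.and (hp : PTP p) (hq : PTP q) : PTP (fun a => p a ∧ q a) := by
  classical
  exact PTP.of_ptf (PTF.decide_and hp.ptf hq.ptf)

theorem PTP.or (hp : PTP p) (hq : PTP q) : PTP (fun a => p a ∨ q a) := by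
  classical
  exact PTP.of_ptf (PTF.decide_or hp.ptf hq.ptf)

theorem PTP.imp (hp : PTP p) (hq : PTP q) : PTP (fun a => p a → q a) := by
  classical
  exact PTP.of_ptf (PTF.decide_imp hp.ptf hq.ptf)

theorem PTP.iff (hp : PTP p) (hq : PTP q) : PTP (fun a => p a ↔ q a) := by
  classical
  exact PTP.of_ptf (PTF.decide_iff hp.ptf hq.ptf)

theorem PTP.not (hp : PTP p) : PTP (fun a => ¬ p a) := by
  classical
  exact PTP.of_ptf (PTF.decide_not hp.ptf)

theorem PTP.const (c : Prop) : PTP (fun _ : α => c) := PTF.const _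

theorem PTP.eq {f g : α → β} (hf : PTF f) (hg : PTF g) : PTP (fun a => f a = g a) := by
  classical
  exact PTP.of_ptf (PTF.eq hf hg)

theorem PTP.ne {f g : α → β} (hf : PTF f) (hg : PTF g) : PTP (fun a => f a ≠ g a) :=
  (PTP.eq hf hg).not

theorem PTP.le {f g : α → ℕ} (hf : PTF f) (hg : PTF g) : PTP (fun a => f a ≤ g a) :=
  PTP.of_ptf (PTF.le hf hg)

theorem PTP.lt {f g : α → ℕ} (hf : PTF f) (hg : PTF g) : PTP (fun a => f a < g a) :=
  PTP.of_ptf (PTF.lt hf hg)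

theorem PTP.mem {f : α → β} {l : α → List β} (hf : PTF f) (hl : PTF l) :
    PTP (fun a => f a ∈ l a) := by
  classical
  exact PTP.of_ptf (PTF.mem hf hl)

theorem PTP.forall_fin {ι : Type} [Finite ι] {r : α → ι → Prop}
    (h : ∀ i, PTP (fun a => r a i)) : PTP (fun a => ∀ i, r a i) := by
  classical
  exact PTP.of_ptf (PTF.forall_fin (fun i => (h i).ptf))

theorem PTP.exists_fin {ι : Type} [Finite ι] {r : α → ι → Prop}
    (h : ∀ i, PTP (fun a => r a i)) : PTP (fun a => ∃ i, r a i) := by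
  classical
  exact PTP.of_ptf (PTF.exists_fin (fun i => (h i).ptf))

theorem PTP.comp {r : β → Prop} {f : α → β} (hr : PTP r) (hf : PTF f) : PTP (fun a => r (f a)) :=
  PTF.comp hr hf

/-- Bounded quantification over the elements of a list. -/
theorem PTP.forall_mem {r : α → β → Prop} {l : α → List β}
    (hr : PTP (fun x : α × β => r x.1 x.2)) (hl : PTF l) : PTP (fun a => ∀ b ∈ l a, r a b) := by
  classical
  have h1 := PTF.all' (f := fun a b => decide (r a b)) hr.ptf hl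
  refine PTP.of_ptf (h1.congr (fun a => ?_))
  rw [Bool.eq_iff_iff, List.all_eq_true]
  simp

theorem PTP.exists_mem {r : α → β → Prop} {l : α → List β}
    (hr : PTP (fun x : α × β => r x.1 x.2)) (hl : PTF l) : PTP (fun a => ∃ b ∈ l a, r a b) := by
  classical
  have h1 := PTF.any' (f := fun a b => decide (r a b)) hr.ptf hl
  refine PTP.of_ptf (h1.congr (fun a => ?_))
  rw [Bool.eq_iff_iff, List.any_eq_true]
  simp

end ptp

end Pool.Agent.PT

namespace Pool.Agent.Work.MP_5296b6_lc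

open Pool.Agent.PT

variable {S : Type} [Finite S] {K : ℕ} {α : Type} [Enc α]

theorem ptf_sth {s : α → St S K} (hs : PTF s) (κ : S) : PTF (fun a => sth (s a) κ) :=
  PTF.app (PTF.fst.comp hs) κ

theorem ptf_sg {s : α → St S K} (hs : PTF s) (κ : S) : PTF (fun a => sg (s a) κ) :=
  PTF.app (PTF.fst.comp (PTF.snd.comp hs)) κ

theorem ptf_ssl {s : α → St S K} (hs : PTF s) (k : Fin K) : PTF (fun a => ssl (s a) k) :=
  PTF.app (PTF.fst.comp (PTF.snd.comp (PTF.snd.comp hs))) k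

theorem ptf_spl {s : α → St S K} (hs : PTF s) (k : Fin K) : PTF (fun a => spl (s a) k) :=
  PTF.app (PTF.fst.comp (PTF.snd.comp (PTF.snd.comp (PTF.snd.comp hs)))) k

theorem ptf_str {s : α → St S K} (hs : PTF s) (τ : Tr S K) : PTF (fun a => str (s a) τ) :=
  PTF.app (PTF.snd.comp (PTF.snd.comp (PTF.snd.comp (PTF.snd.comp hs)))) τ

theorem ptf_ltr {I : α → WInst S} {r : α → ℕ} (hI : PTF I) (hr : PTF r) (κ : S) :
    PTF (fun a => ltr (I a) κ (r a)) :=
  PTF.getD (PTF.app (PTF.snd.comp hI) κ) hr (PTF.const _)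

theorem ptp_DA {I : α → WInst S} {s : α → St S K} {t : α → ℕ × Bool} (hI : PTF I) (hs : PTF s)
    (ht : PTF t) : PTP (fun a => DA (I a) (sth (s a)) (t a)) := by
  unfold DA
  refine PTP.or (PTP.exists_fin (fun κ => PTP.mem (ht.pair (PTF.const _)) ?_))
    (PTP.forall_fin (fun κ => PTP.mem (ht.pair (PTF.const _)) ?_))
  · exact PTF.take (PTF.app (PTF.snd.comp hI) κ) (ptf_sth hs κ)
  · exact PTF.take (PTF.app (PTF.snd.comp hI) κ) (ptf_sth hs κ)

theorem ptp_Pls {I : α → WInst S} {s : α → St S K} {t : α → ℕ × Bool} (hI : PTF I) (hs : PTF s)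
    (ht : PTF t) : PTP (fun a => Pls (I a) (s a) (t a)) := by
  unfold Pls
  have h1 : ∀ k, PTP (fun a => ssl (s a) k = some (t a).1) := fun k =>
    PTP.eq (ptf_ssl hs k) (PTF.some (PTF.fst.comp ht))
  refine PTP.or (PTP.exists_fin (fun k => (h1 k).and ?_)) (PTP.and (PTP.forall_fin
    (fun k => (h1 k).not)) (ptp_DA hI hs ht))
  exact PTP.eq (PTF.ite (PTF.eq (PTF.snd.comp ht) (PTF.const _)) (PTF.snd.comp (ptf_spl hs k))
    (PTF.fst.comp (ptf_spl hs k))) (PTF.const _)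

theorem ptp_Pls' {I : α → WInst S} {s : α → St S K} {t : α → ℕ × Bool} (hI : PTF I) (hs : PTF s)
    (ht : PTF t) (κ : S) (d : Bool) : PTP (fun a => Pls' (I a) κ d (s a) (t a)) := by
  unfold Pls'
  exact (ptp_Pls hI hs ht).or ((PTP.const _).and
    (PTP.eq (PTF.fst.comp (ptf_ltr hI (ptf_sth hs κ) κ)) ht))

theorem ptp_Compat {v : α → ℕ} {s s2 : α → St S K} (hv : PTF v) (hs : PTF s) (hs2 : PTF s2)
    (κ : S) (d : Bool) (τ τ' : Tr S K) : PTP (fun a => Compat κ d (v a) (s a) (s2 a) τ τ') := by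
  unfold Compat
  refine (PTP.const _).and (PTP.and ?_ (PTP.and ?_ (PTP.and ?_ (PTP.and ?_ (PTP.const _)))))
  · exact (PTP.lt (PTF.const _) (ptf_sg hs κ)).imp (PTP.const _)
  · exact PTP.forall_fin (fun k => PTP.forall_fin (fun k' => (PTP.eq (ptf_ssl hs k)
      (ptf_ssl hs2 k')).imp ((PTP.ne (ptf_ssl hs k) (PTF.const _)).imp (PTP.const _))))
  · exact (PTP.const _).imp (PTP.forall_fin (fun k => (PTP.eq (ptf_ssl hs k)
      (PTF.some hv)).imp (PTP.const _)))
  · exact (PTP.const _).imp (PTP.forall_fin (fun k => (PTP.eq (ptf_ssl hs2 k)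
      (PTF.some hv)).imp (PTP.const _)))

omit [Finite S] in
theorem step_iff {I : WInst S} {κ : S} {d : Bool} {s s2 : St S K} : Step I κ d s s2 ↔
    (sth s κ < (I.2 κ).length) ∧ (sth s2 κ = sth s κ + 1) ∧
    (∀ κ', κ' ≠ κ → sth s2 κ' = sth s κ') ∧
    (d = false → sg s2 κ = sg s κ) ∧
    (d = true → (ltr I κ (sth s κ)).2 = true → sg s2 κ = sg s κ + 1) ∧
    (d = true → (ltr I κ (sth s κ)).2 = false → sg s2 κ + 1 = sg s κ) ∧
    (∀ κ', κ' ≠ κ → sg s2 κ' = sg s κ') ∧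
    (d = true → ¬ Pls I s (ltr I κ (sth s κ)).1) ∧
    (∀ k, ssl s k ≠ none → ssl s k ≠ some (ltr I κ (sth s κ)).1.1 →
      ssl s2 k = ssl s k ∧ spl s2 k = spl s k) ∧
    (∀ k, (ssl s k = none ∨ ssl s k = some (ltr I κ (sth s κ)).1.1) →
      (ssl s2 k = none ∨ ssl s2 k = some (ltr I κ (sth s κ)).1.1)) ∧
    (∀ k k', ssl s2 k = some (ltr I κ (sth s κ)).1.1 →
      ssl s2 k' = some (ltr I κ (sth s κ)).1.1 → k = k') ∧
    ((∃ k, ssl s2 k = some (ltr I κ (sth s κ)).1.1) ↔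
    ¬ ((Pls' I κ d s ((ltr I κ (sth s κ)).1.1, false) ↔ DA I (sth s2) ((ltr I κ (sth s κ)).1.1, false)) ∧
      (Pls' I κ d s ((ltr I κ (sth s κ)).1.1, true) ↔ DA I (sth s2) ((ltr I κ (sth s κ)).1.1, true)) ∧
      (DA I (sth s2) ((ltr I κ (sth s κ)).1.1, false) ↔
        DA I (sth s2) ((ltr I κ (sth s κ)).1.1, true)))) ∧
    (∀ k, ssl s2 k = some (ltr I κ (sth s κ)).1.1 →
      ((spl s2 k).1 = true ↔ Pls' I κ d s ((ltr I κ (sth s κ)).1.1, false)) ∧
      ((spl s2 k).2 = true ↔ Pls' I κ d s ((ltr I κ (sth s κ)).1.1, true))) ∧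
    (∀ τ', str s2 τ' = true ↔
      ∃ τ, str s τ = true ∧ Compat κ d (ltr I κ (sth s κ)).1.1 s s2 τ τ') := by
  constructor
  · intro h
    exact ⟨h.lt, h.th, h.th', h.g0, h.g1, h.g2, h.g', h.new, h.old, h.here, h.uniq, h.irr, h.pl,
      h.tr⟩
  · rintro ⟨h1, h2, h3, h4, h5, h6, h7, h8, h9, h10, h11, h12, h13, h14⟩
    exact ⟨h1, h2, h3, h4, h5, h6, h7, h8, h9, h10, h11, h12, h13, h14⟩

theorem ptp_Step {I : α → WInst S} {s s2 : α → St S K} (hI : PTF I) (hs : PTF s) (hs2 : PTF s2)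
    (κ : S) (d : Bool) : PTP (fun a => Step (I a) κ d (s a) (s2 a)) := by
  have hL := ptf_ltr hI (ptf_sth hs κ) κ
  have hv : PTF (fun a => (ltr (I a) κ (sth (s a) κ)).1.1) := PTF.fst.comp (PTF.fst.comp hL)
  have ho : PTF (fun a => (ltr (I a) κ (sth (s a) κ)).2) := PTF.snd.comp hL
  have hvb : ∀ b : Bool, PTF (fun a => ((ltr (I a) κ (sth (s a) κ)).1.1, b)) := fun b =>
    hv.pair (PTF.const b)
  have hsl : ∀ k, PTP (fun a => ssl (s a) k = some (ltr (I a) κ (sth (s a) κ)).1.1) := fun k =>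
    PTP.eq (ptf_ssl hs k) (PTF.some hv)
  have hsl2 : ∀ k, PTP (fun a => ssl (s2 a) k = some (ltr (I a) κ (sth (s a) κ)).1.1) := fun k =>
    PTP.eq (ptf_ssl hs2 k) (PTF.some hv)
  have hn : ∀ k, PTP (fun a => ssl (s a) k = none) := fun k =>
    PTP.eq (ptf_ssl hs k) (PTF.const none)
  have hn2 : ∀ k, PTP (fun a => ssl (s2 a) k = none) := fun k =>
    PTP.eq (ptf_ssl hs2 k) (PTF.const none)
  refine PTP.congr (p := fun a => _) ?_ (fun a => (step_iff (I := I a) (κ := κ) (d := d)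
    (s := s a) (s2 := s2 a)).symm)
  refine PTP.and ?_ (PTP.and ?_ (PTP.and ?_ (PTP.and ?_ (PTP.and ?_ (PTP.and ?_ (PTP.and ?_
    (PTP.and ?_ (PTP.and ?_ (PTP.and ?_ (PTP.and ?_ (PTP.and ?_ (PTP.and ?_ ?_))))))))))))
  · exact PTP.lt (ptf_sth hs κ) (PTF.length (PTF.app (PTF.snd.comp hI) κ))
  · exact PTP.eq (ptf_sth hs2 κ) (PTF.succ (ptf_sth hs κ))
  · exact PTP.forall_fin (fun κ' => (PTP.const _).imp (PTP.eq (ptf_sth hs2 κ') (ptf_sth hs κ')))
  · exact (PTP.const _).imp (PTP.eq (ptf_sg hs2 κ) (ptf_sg hs κ))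
  · exact (PTP.const _).imp ((PTP.eq ho (PTF.const _)).imp
      (PTP.eq (ptf_sg hs2 κ) (PTF.succ (ptf_sg hs κ))))
  · exact (PTP.const _).imp ((PTP.eq ho (PTF.const _)).imp
      (PTP.eq (PTF.succ (ptf_sg hs2 κ)) (ptf_sg hs κ)))
  · exact PTP.forall_fin (fun κ' => (PTP.const _).imp (PTP.eq (ptf_sg hs2 κ') (ptf_sg hs κ')))
  · exact (PTP.const _).imp (ptp_Pls hI hs (PTF.fst.comp hL)).not
  · exact PTP.forall_fin (fun k => (hn k).not.imp ((hsl k).not.imp
      ((PTP.eq (ptf_ssl hs2 k) (ptf_ssl hs k)).and (PTP.eq (ptf_spl hs2 k) (ptf_spl hs k)))))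
  · exact PTP.forall_fin (fun k => ((hn k).or (hsl k)).imp ((hn2 k).or (hsl2 k)))
  · exact PTP.forall_fin (fun k => PTP.forall_fin (fun k' => (hsl2 k).imp ((hsl2 k').imp
      (PTP.const _))))
  · exact (PTP.exists_fin hsl2).iff (PTP.not (PTP.and ((ptp_Pls' hI hs (hvb false) κ d).iff
      (ptp_DA hI hs2 (hvb false))) (PTP.and ((ptp_Pls' hI hs (hvb true) κ d).iff
      (ptp_DA hI hs2 (hvb true))) ((ptp_DA hI hs2 (hvb false)).iff
      (ptp_DA hI hs2 (hvb true))))))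
  · exact PTP.forall_fin (fun k => (hsl2 k).imp (PTP.and
      ((PTP.eq (PTF.fst.comp (ptf_spl hs2 k)) (PTF.const _)).iff (ptp_Pls' hI hs (hvb false) κ d))
      ((PTP.eq (PTF.snd.comp (ptf_spl hs2 k)) (PTF.const _)).iff
        (ptp_Pls' hI hs (hvb true) κ d))))
  · exact PTP.forall_fin (fun τ' => (PTP.eq (ptf_str hs2 τ') (PTF.const _)).iff
      (PTP.exists_fin (fun τ => (PTP.eq (ptf_str hs τ) (PTF.const _)).and
        (ptp_Compat hv hs hs2 κ d τ τ'))))

theorem ptf_stepB : PTF (fun p : (ℕ × WInst S) × (St S K × St S K) =>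
    stepB K p.1 p.2.1 p.2.2) := by
  have h : PTP (fun p : (ℕ × WInst S) × (St S K × St S K) =>
      p.2.1 = p.2.2 ∨ ∃ κ d, Step p.1.2 κ d p.2.1 p.2.2) :=
    (PTP.eq (PTF.fst.comp PTF.snd) (PTF.snd.comp PTF.snd)).or (PTP.exists_fin (fun κ =>
      PTP.exists_fin (fun d => ptp_Step (PTF.snd.comp PTF.fst) (PTF.fst.comp PTF.snd)
        (PTF.snd.comp PTF.snd) κ d)))
  exact h

theorem ptf_startB : PTF (fun p : (ℕ × WInst S) × St S K => startB K p.1 p.2) := by
  have hs : PTF (fun p : (ℕ × WInst S) × St S K => p.2) := PTF.snd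
  have h : PTP (fun p : (ℕ × WInst S) × St S K => Start p.2) := by
    refine PTP.congr (p := fun p : (ℕ × WInst S) × St S K => (∀ κ, sth p.2 κ = 0) ∧
      (∀ κ, sg p.2 κ = 0) ∧ (∀ k, ssl p.2 k = none) ∧
      ∀ τ, str p.2 τ = true ↔ (τ.2.2.1 = false ∧ τ.2.2.2 = false)) ?_ (fun p => ?_)
    · exact (PTP.forall_fin (fun κ => PTP.eq (ptf_sth hs κ) (PTF.const _))).and
        ((PTP.forall_fin (fun κ => PTP.eq (ptf_sg hs κ) (PTF.const _))).and
        ((PTP.forall_fin (fun k => PTP.eq (ptf_ssl hs k) (PTF.const _))).and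
        (PTP.forall_fin (fun τ => (PTP.eq (ptf_str hs τ) (PTF.const _)).iff (PTP.const _)))))
    · constructor
      · rintro ⟨h1, h2, h3, h4⟩; exact ⟨h1, h2, h3, h4⟩
      · rintro ⟨h1, h2, h3, h4⟩; exact ⟨h1, h2, h3, h4⟩
  exact h

theorem ptf_accB (opp : S → S) : PTF (fun p : (ℕ × WInst S) × St S K => accB opp K p.1 p.2) := by
  have hs : PTF (fun p : (ℕ × WInst S) × St S K => p.2) := PTF.snd
  have h : PTP (fun p : (ℕ × WInst S) × St S K => Acc p.1.2 opp p.1.1 p.2) := by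
    refine PTP.congr (p := fun p : (ℕ × WInst S) × St S K =>
      (∀ κ, sth p.2 κ + sth p.2 (opp κ) = p.1.1) ∧
      (∀ v ∈ List.range p.1.2.1, ∀ b, Pls p.1.2 p.2 (v, b)) ∧
      (∀ κ, sg p.2 κ = sg p.2 (opp κ)) ∧
      ∀ τ, str p.2 τ = true → (∀ κ, 0 < sg p.2 κ → τ.1 κ = τ.1 (opp κ)) →
        ¬ (τ.2.2.1 = true ∧ τ.2.2.2 = true)) ?_ (fun p => ?_)
    · refine PTP.and ?_ (PTP.and ?_ (PTP.and ?_ ?_))
      · exact PTP.forall_fin (fun κ => PTP.eq ((ptf_sth hs κ).add (ptf_sth hs (opp κ)))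
          (PTF.fst.comp PTF.fst))
      · refine PTP.forall_mem (r := fun (p : (ℕ × WInst S) × St S K) (v : ℕ) =>
          ∀ b, Pls p.1.2 p.2 (v, b)) ?_ (PTF.range (PTF.fst.comp (PTF.snd.comp PTF.fst)))
        exact PTP.forall_fin (fun b => ptp_Pls (PTF.snd.comp (PTF.fst.comp PTF.fst))
          (PTF.snd.comp PTF.fst) (PTF.snd.pair (PTF.const b)))
      · exact PTP.forall_fin (fun κ => PTP.eq (ptf_sg hs κ) (ptf_sg hs (opp κ)))
      · exact PTP.forall_fin (fun τ => (PTP.eq (ptf_str hs τ) (PTF.const _)).imp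
          ((PTP.forall_fin (fun κ => (PTP.lt (PTF.const _) (ptf_sg hs κ)).imp
            (PTP.const _))).imp (PTP.const _)))
    · constructor
      · rintro ⟨h1, h2, h3, h4⟩
        exact ⟨h1, fun v hv => h2 v (List.mem_range.2 hv), h3, h4⟩
      · rintro ⟨h1, h2, h3, h4⟩
        exact ⟨h1, fun v hv => h2 v (List.mem_range.1 hv), h3, h4⟩
  exact h

theorem ptf_univ : PTF (fun a : ℕ × WInst S => univ S K a) := by
  unfold univ
  refine PTF.product (PTF.piList ?_) (PTF.product (PTF.piList ?_) (PTF.product (PTF.piList ?_)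
    (PTF.product (PTF.const _) (PTF.const _))))
  · exact PTF.range (PTF.succ PTF.fst)
  · exact PTF.range (PTF.succ PTF.fst)
  · exact PTF.cons (PTF.const _) (PTF.map' (f := fun (_ : ℕ × WInst S) (v : ℕ) => Option.some v)
      (PTF.some PTF.snd) (PTF.range (PTF.fst.comp PTF.snd)))

theorem ptf_alg (opp : S → S) (K : ℕ) : PTF (alg opp K : ℕ × WInst S → Bool) := by
  unfold alg
  exact PTF.any' (f := fun (a : ℕ × WInst S) (s : St S K) => accB opp K a s) (ptf_accB opp)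
    (PTF.reach ptf_univ ptf_stepB ptf_startB (PTF.mul (PTF.const _) PTF.fst))

end Pool.Agent.Work.MP_5296b6_lc
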