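import Mathlib

/-!
# Tables, assignments, flows (MP_5296b6_lc, combinatorial core)

Vertices `V` have two tokens each (`Tok V = V × Bool`).  There are tracks `i : ι`; every token has
on every track a low spot and a high spot, i.e. one spot in every class `κ : Side ι = ι × Bool`
(`(i, true)` = high, `(i, false)` = low).  The spots of a track occupy the positions `1 .. N`.
-/

set_option autoImplicit false

namespace Pool.Agent.Scatter

open Finset

/-- A side of a track; also used as the name of a class of spots: `(i, true)` = high spots of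
track `i` = right side of the track, `(i, false)` = low spots = left side. -/
abbrev Side (ι : Type) := ι × Bool

/-- The other side (other class) of the same track. -/
def opp {ι : Type} (κ : Side ι) : Side ι := (κ.1, !κ.2)

/-- Tokens: every vertex has two. -/
abbrev Tok (V : Type) := V × Bool

/-- The other token of the same vertex. -/
def flp {V : Type} (t : Tok V) : Tok V := (t.1, !t.2)

/-- Positions of the spots: on every track a bijection between the spots (token, class) and
`1 .. N`. -/
structure Table (V ι : Type) where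
  N : ℕ
  pos : Tok V → Side ι → ℕ
  one_le : ∀ t κ, 1 ≤ pos t κ
  le_N : ∀ t κ, pos t κ ≤ N
  inj : ∀ t t' i b b', pos t (i, b) = pos t' (i, b') → t = t' ∧ b = b'
  surj : ∀ i p, 1 ≤ p → p ≤ N → ∃ t b, pos t (i, b) = p

variable {V ι : Type} [Fintype V] [DecidableEq V] [Fintype ι] [DecidableEq ι]

/-- The flow of the assignment `T` on track `i` just after position `p`: number of low tokens at
positions `≤ p` minus number of high tokens at positions `≤ p`. -/
def Table.flow (D : Table V ι) (T : Tok V → Side ι) (i : ι) (p : ℕ) : ℤ :=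
  ((univ.filter fun t : Tok V => T t = (i, false) ∧ D.pos t (i, false) ≤ p).card : ℤ) -
    ((univ.filter fun t : Tok V => T t = (i, true) ∧ D.pos t (i, true) ≤ p).card : ℤ)

/-- Feasible assignments. -/
def Table.Feas (D : Table V ι) (T : Tok V → Side ι) : Prop :=
  (∀ i p, 0 ≤ D.flow T i p) ∧ ∀ i, D.flow T i D.N = 0

/-- Colourings of the positions that are constant across gaps with positive flow. -/
def Closed {ι : Type} (F : ι → ℕ → ℤ) (a : ι → ℕ → Bool) : Prop :=
  ∀ i p, 0 < F i p → a i p = a i (p + 1)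

/-- The colour of a token. -/
def Table.col (D : Table V ι) (T : Tok V → Side ι) (a : ι → ℕ → Bool) (t : Tok V) : Bool :=
  a (T t).1 (D.pos t (T t))

/-- Connected assignments. -/
def Table.Conn (D : Table V ι) (T : Tok V → Side ι) : Prop :=
  ∀ a : ι → ℕ → Bool, Closed (D.flow T) a → (∀ v : V, D.col T a (v, false) = D.col T a (v, true)) →
    ∀ t t', D.col T a t = D.col T a t'

/-- Solutions: connected feasible assignments. -/
def Table.Sol (D : Table V ι) (T : Tok V → Side ι) : Prop := D.Feas T ∧ D.Conn T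

/-- Compatible tokens: on some track the low spot of one is left of the high spot of the
other. -/
def Table.Comp (D : Table V ι) (t t' : Tok V) : Prop :=
  ∃ i, D.pos t (i, false) < D.pos t' (i, true) ∨ D.pos t' (i, false) < D.pos t (i, true)

/-- A tour: cyclic enumeration of the vertices by tokens `c k` (the token through which the tour
enters the vertex; it leaves through `flp (c k)`). -/
def Table.HasTour (D : Table V ι) : Prop :=
  ∃ c : ℕ → Tok V, (∀ k, c (k + Fintype.card V) = c k) ∧ (∀ v, ∃ k < Fintype.card V, (c k).1 = v) ∧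
    ∀ k, D.Comp (flp (c k)) (c (k + 1))

/-- A pairing of the low with the high tokens on every track, low spot left of high spot. -/
def Table.Pairing (D : Table V ι) (T : Tok V → Side ι) (μ : Tok V → Tok V) : Prop :=
  (∀ t, μ (μ t) = t) ∧ (∀ t, T (μ t) = opp (T t)) ∧
    ∀ t, (T t).2 = false → D.pos t (T t) < D.pos (μ t) (T (μ t))

/-- Transitivity of the group generated by `flp` and `μ`. -/
def Transv (μ : Tok V → Tok V) : Prop :=
  ∀ S : Finset (Tok V), S.Nonempty → (∀ t ∈ S, flp t ∈ S) → (∀ t ∈ S, μ t ∈ S) → S = univ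

/-! ### Sides and cuts -/

/-- Rank of a position seen from a side. -/
def Table.rk (D : Table V ι) (κ : Side ι) (p : ℕ) : ℕ := if κ.2 then D.N + 1 - p else p

/-- Tokens of class `l` whose `l`-spot is not passed by `l` and whose `κ`-spot is passed
by `κ`. -/
def Table.Sset (D : Table V ι) (T : Tok V → Side ι) (th : Side ι → ℕ) (κ l : Side ι) :
    Finset (Tok V) :=
  univ.filter fun t => T t = l ∧ th l < D.rk l (D.pos t l) ∧ D.rk κ (D.pos t κ) ≤ th κ

/-- Tokens of class `opp κ` whose `opp κ`-spot is passed by `κ` and whose `opp l`-spot is not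
passed by `l`. -/
def Table.Rset (D : Table V ι) (T : Tok V → Side ι) (th : Side ι → ℕ) (κ l : Side ι) :
    Finset (Tok V) :=
  univ.filter fun t => T t = opp κ ∧ D.rk κ (D.pos t (opp κ)) ≤ th κ ∧
    th l < D.rk l (D.pos t (opp l))

/-- `Sset` or `Rset`. -/
def Table.Arc (D : Table V ι) (T : Tok V → Side ι) (th : Side ι → ℕ) (s : Bool) (κ l : Side ι) :
    Finset (Tok V) := if s then D.Sset T th κ l else D.Rset T th κ l

/-- Class of the out-spot (on the track of `κ`) of a move along an arc starting in `κ`. -/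
def oc {ι : Type} (s : Bool) (κ : Side ι) : Side ι := if s then κ else opp κ

/-- Class to which the tokens of `Arc s κ l` are moved. -/
def dst {ι : Type} (s : Bool) (κ l : Side ι) : Side ι := if s then κ else opp l

/-- Total flow. -/
def Table.total (D : Table V ι) (T : Tok V → Side ι) : ℤ :=
  ∑ i, ∑ p ∈ range (D.N + 1), D.flow T i p

/-- A family of directed cycles of sides with large vertex-disjoint sets of tokens on the
arcs. -/
structure Cyc (D : Table V ι) (T : Tok V → Side ι) (th : Side ι → ℕ) where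
  Z : Finset (Side ι)
  nx : Side ι → Side ι
  s : Side ι → Bool
  A : Side ι → Finset (Tok V)
  nonempty : Z.Nonempty
  maps : ∀ κ ∈ Z, nx κ ∈ Z
  inj : ∀ κ ∈ Z, ∀ l ∈ Z, nx κ = nx l → κ = l
  sub : ∀ κ ∈ Z, A κ ⊆ D.Arc T th (s κ) κ (nx κ)
  disj : ∀ κ ∈ Z, ∀ l ∈ Z, ∀ x ∈ A κ, ∀ y ∈ A l, x.1 = y.1 → κ = l ∧ x = y

/-- Signed step function: contribution of a token in class `κ` at position `q` to the flow. -/
def bump {ι : Type} [DecidableEq ι] (κ : Side ι) (q : ℕ) (i : ι) (p : ℕ) : ℤ :=
  if κ.1 = i ∧ q ≤ p then (if κ.2 then -1 else 1) else 0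

/-- The out-position of a token on the arc `κ → nx κ` (on the track of `κ`, passed by `κ`). -/
def Cyc.o {D : Table V ι} {T : Tok V → Side ι} {th : Side ι → ℕ} (C : Cyc D T th)
    (κ : Side ι) (x : Tok V) : ℕ := D.pos x (oc (C.s κ) κ)

/-- The in-position of a token on the arc `κ → nx κ` (on the track of `nx κ`, not passed by
`nx κ`). -/
def Cyc.u {D : Table V ι} {T : Tok V → Side ι} {th : Side ι → ℕ} (C : Cyc D T th)
    (κ : Side ι) (x : Tok V) : ℕ := D.pos x (oc (C.s κ) (C.nx κ))

/-- Change of the flow when the tokens of `X κ`, `κ ∈ Z`, are moved. -/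
def Cyc.chg {D : Table V ι} {T : Tok V → Side ι} {th : Side ι → ℕ} (C : Cyc D T th)
    (X : Side ι → Finset (Tok V)) (i : ι) (p : ℕ) : ℤ :=
  ∑ κ ∈ C.Z, ∑ x ∈ X κ, (bump κ (C.o κ x) i p - bump (C.nx κ) (C.u κ x) i p)

open Classical in
/-- The assignment after moving the tokens of `X κ`, `κ ∈ Z`. -/
noncomputable def Cyc.move {D : Table V ι} {T : Tok V → Side ι} {th : Side ι → ℕ}
    (C : Cyc D T th) (X : Side ι → Finset (Tok V)) (t : Tok V) : Side ι :=
  if h : ∃ κ, κ ∈ C.Z ∧ t ∈ X κ then dst (C.s h.choose) h.choose (C.nx h.choose) else T t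

/-! ### Good cuts, chains, regular vertices -/

/-- The constant of the good cuts. -/
def cst (f : ℕ) : ℕ := 2 * ((2 * f) * (6 * (2 * f) + 3))

/-- Good cuts. -/
def Table.Good (D : Table V ι) (T : Tok V → Side ι) (th : Side ι → ℕ) : Prop :=
  (∀ κ, th κ ≤ D.N) ∧ ∀ κ l, κ ≠ l → (D.Sset T th κ l).card ≤ cst (Fintype.card ι) ∧
    (D.Rset T th κ l).card ≤ cst (Fintype.card ι)

/-- The cut seen from the other sides. -/
def Table.inv (D : Table V ι) (th : Side ι → ℕ) : Side ι → ℕ := fun κ => D.N - th (opp κ)

/-- The status `D or A` of a token at a cut. -/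
def Table.DA (D : Table V ι) (th : Side ι → ℕ) (t : Tok V) : Prop :=
  (∃ κ, D.rk κ (D.pos t κ) ≤ th κ) ∨ ∀ κ, D.rk (opp κ) (D.pos t κ) ≤ th (opp κ)

/-- The token is placed outside of the cut. -/
def Table.Out (D : Table V ι) (T : Tok V → Side ι) (th : Side ι → ℕ) (t : Tok V) : Prop :=
  D.rk (T t) (D.pos t (T t)) ≤ th (T t) ∨ D.rk (opp (T t)) (D.pos t (T t)) ≤ th (opp (T t))

/-- Regular vertices at a cut. -/
def Table.Reg (D : Table V ι) (T : Tok V → Side ι) (th : Side ι → ℕ) (v : V) : Prop :=
  (∀ e, D.Out T th (v, e) ↔ D.DA th (v, e)) ∧ (D.DA th (v, false) ↔ D.DA th (v, true))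

/-- Vertices whose two tokens have adjacent spots everywhere. -/
def Table.Adj (D : Table V ι) (v : V) : Prop := ∀ κ, D.pos (v, true) κ = D.pos (v, false) κ + 1

/-- The number of irregular vertices on a good chain. -/
def slots (f : ℕ) : ℕ := 8 * f ^ 2 * cst f + 2 * f

open Classical in
/-- A chain of cuts from the open cut to a closed cut, by unit steps, with few irregular
vertices at every cut. -/
def Table.Chain (D : Table V ι) (T : Tok V → Side ι) : Prop :=
  ∃ (th : ℕ → Side ι → ℕ) (m : ℕ), (∀ κ, th 0 κ = 0) ∧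
    (∀ j < m, ∃ κ, th j κ + th j (opp κ) < D.N ∧
      th (j + 1) = Function.update (th j) κ (th j κ + 1)) ∧
    (∀ κ, th m κ + th m (opp κ) = D.N) ∧
    ∀ j ≤ m, (univ.filter fun v => ¬ D.Reg T (th j) v).card ≤
      slots (Fintype.card ι) + (univ.filter fun v => ¬ D.Adj v).card

end Pool.Agent.Scatter
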