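import Mathlib
import Pool.Prelude.Def_H_3587d628
import Pool.Agent.Work.RRAM.Machine

/-!
# Max-Scatter-TSP under a polyhedral norm: definitions for the final statement
-/

set_option autoImplicit false

namespace Pool.Agent.MaxScatter

open Pointwise

/-- Polyhedral unit balls: full-dimensional polytopes symmetric about the origin. -/
structure IsPolyhedralBall {s : ℕ} (B : Set (Fin s → ℝ)) : Prop where
  polytope : ∃ W : Finset (Fin s → ℝ), B = convexHull ℝ (W : Set (Fin s → ℝ))
  full : (interior B).Nonempty
  symm : ∀ x ∈ B, -x ∈ B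

/-- The norm with unit ball `B`: the least `r ≥ 0` with `x ∈ r B`. -/
noncomputable def pnorm {s : ℕ} (B : Set (Fin s → ℝ)) (x : Fin s → ℝ) : ℝ :=
  sInf {r : ℝ | 0 ≤ r ∧ x ∈ r • B}

/-- The distance of two points. -/
noncomputable def pdist {s : ℕ} (B : Set (Fin s → ℝ)) (x y : Fin s → ℝ) : ℝ := pnorm B (x - y)

/-- The closed walk through the points of the list `R` in this order and back to its start: its
edges are the pairs of cyclically consecutive points. -/
def edges {α : Type} (R : List α) : List (α × α) := R.zip (R.rotate 1)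

/-- The length of the shortest edge of the round-trip `R`. -/
noncomputable def scatter {s : ℕ} (B : Set (Fin s → ℝ)) (R : List (Fin s → ℝ)) : ℝ :=
  sInf {d : ℝ | ∃ e ∈ edges R, d = pdist B e.1 e.2}

/-- The point of `ℝ^s` with a list of rational coordinates. -/
def toPt (s : ℕ) (p : List ℚ) : Fin s → ℝ := fun j => ((p.getD j 0 : ℚ) : ℝ)

/-- Inputs of Max-Scatter-TSP in `ℝ^s`: lists of `n ≥ 3` different rational points, each given by
its `s` coordinates. -/
def IsInput (s : ℕ) (P : List (List ℚ)) : Prop :=
  3 ≤ P.length ∧ P.Nodup ∧ ∀ p ∈ P, p.length = s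

/-- The decision version: is there a round-trip on `P` all of whose edges have length at
least `L`? -/
def Decision {s : ℕ} (B : Set (Fin s → ℝ)) (I : List (List ℚ) × ℚ) : Prop :=
  IsInput s I.1 ∧ ∃ R : List (List ℚ), R.Perm I.1 ∧ ((I.2 : ℚ) : ℝ) ≤ scatter B (R.map (toPt s))

/-- `R` is an optimal round-trip on `P`: it maximises the length of the shortest edge. -/
def IsOptimal {s : ℕ} (B : Set (Fin s → ℝ)) (P R : List (List ℚ)) : Prop :=
  R.Perm P ∧ ∀ R' : List (List ℚ), R'.Perm P →
    scatter B (R'.map (toPt s)) ≤ scatter B (R.map (toPt s))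

open Classical in
/-- The decision version is solved in polynomial time by a (Mathlib, TM2) Turing machine. -/
def DecisionPoly {s : ℕ} (B : Set (Fin s → ℝ)) : Prop :=
  N68a2faeb.IsPolyTime (fun I : List (List ℚ) × ℚ => decide (Decision B I))

/-- An optimal round-trip is computed in polynomial time by a (Mathlib, TM2) Turing machine. -/
def OptimumPoly {s : ℕ} (B : Set (Fin s → ℝ)) : Prop :=
  ∃ opt : List (List ℚ) → List (List ℚ), N68a2faeb.IsPolyTime opt ∧
    ∀ P, IsInput s P → IsOptimal B P (opt P)

open Classical in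
/-- The language of all rational `y, z, L` with `L ≤ d(y, z)` is in P: distances of rational
points can be compared with rational numbers in polynomial time. -/
def NumberComparable {s : ℕ} (B : Set (Fin s → ℝ)) : Prop :=
  N68a2faeb.IsPolyTime (fun c : (List ℚ × List ℚ) × ℚ =>
    decide (((c.2 : ℚ) : ℝ) ≤ pdist B (toPt s c.1.1) (toPt s c.1.2)))

/-- The longer of two distances of rational points can be found in polynomial time, ties being
broken arbitrarily: the answer `true` means `d(y, z) ≤ d(y', z')`, the answer `false` means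
`d(y', z') ≤ d(y, z)`. -/
def LongerFindable {s : ℕ} (B : Set (Fin s → ℝ)) : Prop :=
  ∃ sel : (List ℚ × List ℚ) × (List ℚ × List ℚ) → Bool, N68a2faeb.IsPolyTime sel ∧
    ∀ y z y' z' : List ℚ,
      (sel ((y, z), (y', z')) = true →
        pdist B (toPt s y) (toPt s z) ≤ pdist B (toPt s y') (toPt s z')) ∧
      (sel ((y, z), (y', z')) = false →
        pdist B (toPt s y') (toPt s z') ≤ pdist B (toPt s y) (toPt s z))

/-- Input of the real RAM: the number `L`, the coefficients of the facet functionals, the
coordinates of the points. -/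
def ramInput {s f : ℕ} (L : ℝ) (a : Fin f → Fin s → ℝ) (P : List (Fin s → ℝ)) : List ℝ :=
  L :: ((List.ofFn fun i => List.ofFn (a i)).flatten ++ (P.map List.ofFn).flatten)

/-- `B` has rational vertices. -/
def IsRational {s : ℕ} (B : Set (Fin s → ℝ)) : Prop :=
  ∃ W : Finset (Fin s → ℚ), B = convexHull ℝ ((fun w j => ((w j : ℚ) : ℝ)) '' (W : Set (Fin s → ℚ)))

end Pool.Agent.MaxScatter
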