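import Pool.Agent.Work.MP_5296b6_lc.DPPtf
import Pool.Agent.Work.MP_5296b6_lc.A2
import Pool.Agent.Work.MP_5296b6_lc.A3
import Pool.Agent.Work.MP_5296b6_lc.A4

/-!
# Rational-valued functions computable in polynomial time
-/

set_option autoImplicit false

namespace Pool.Agent.Work.MP_5296b6_lc

open Pool.Agent.PT A4

/-- Rational-valued functions computable in polynomial time. -/
def QF {α : Type} [Enc α] (g : α → ℚ) : Prop :=
  ∃ φ : α → BQ, PTF φ ∧ ∀ a, ok (φ a) ∧ qv (φ a) = g a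

section qf

variable {α β : Type} [Enc α] [Enc β] {g h : α → ℚ}

theorem QF.congr (hg : QF g) (e : ∀ a, g a = h a) : QF h := by
  have : g = h := funext e
  rwa [← this]

theorem QF.const (q : ℚ) : QF (fun _ : α => q) := by
  have he := claimBadd.2.2
  exact ⟨fun _ => repQ q, PTF.const _, fun _ => ⟨ok_repQ he q, qv_repQ he q⟩⟩

theorem QF.comp {g : β → ℚ} {e : α → β} (hg : QF g) (he : PTF e) : QF (fun a => g (e a)) := by
  obtain ⟨φ, h1, h2⟩ := hg
  exact ⟨fun a => φ (e a), h1.comp he, fun a => h2 (e a)⟩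

theorem QF.add (hg : QF g) (hh : QF h) : QF (fun a => g a + h a) := by
  obtain ⟨⟨add, ha, hav⟩, -, -⟩ := claimBadd
  obtain ⟨mul, hm, hmv⟩ := claimBmul claimBadd
  obtain ⟨φ, h1, h2⟩ := hg
  obtain ⟨ψ, h3, h4⟩ := hh
  exact ⟨fun a => addQ add mul (φ a, ψ a), (ptf_addQ ha hm).comp (h1.pair h3),
    fun a => ⟨ok_addQ hav hmv (h2 a).1 (h4 a).1, by
      rw [qv_addQ hav hmv (h2 a).1 (h4 a).1, (h2 a).2, (h4 a).2]⟩⟩

theorem QF.mul (hg : QF g) (hh : QF h) : QF (fun a => g a * h a) := by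
  obtain ⟨⟨add, ha, hav⟩, -, -⟩ := claimBadd
  obtain ⟨mul, hm, hmv⟩ := claimBmul claimBadd
  obtain ⟨φ, h1, h2⟩ := hg
  obtain ⟨ψ, h3, h4⟩ := hh
  exact ⟨fun a => mulQ add mul (φ a, ψ a), (ptf_mulQ ha hm).comp (h1.pair h3),
    fun a => ⟨ok_mulQ hav hmv (h2 a).1 (h4 a).1, by
      rw [qv_mulQ hav hmv (h2 a).1 (h4 a).1, (h2 a).2, (h4 a).2]⟩⟩

theorem QF.neg (hg : QF g) : QF (fun a => - g a) := by
  obtain ⟨φ, h1, h2⟩ := hg
  exact ⟨fun a => negQ (φ a), ptf_negQ.comp h1, fun a => ⟨ok_negQ (h2 a).1, by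
    rw [qv_negQ, (h2 a).2]⟩⟩

theorem QF.sub (hg : QF g) (hh : QF h) : QF (fun a => g a - h a) :=
  (hg.add hh.neg).congr (fun a => (sub_eq_add_neg _ _).symm)

theorem QF.le (hg : QF g) (hh : QF h) : PTP (fun a => g a ≤ h a) := by
  obtain ⟨⟨add, ha, hav⟩, hle, -⟩ := claimBadd
  obtain ⟨mul, hm, hmv⟩ := claimBmul claimBadd
  obtain ⟨φ, h1, h2⟩ := hg
  obtain ⟨ψ, h3, h4⟩ := hh
  refine PTP.of_ptf ((((ptf_leQ ha hm hle).comp (h1.pair h3))).congr (fun a => ?_))
  rw [leQ_eq hav hmv (h2 a).1 (h4 a).1, (h2 a).2, (h4 a).2]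

theorem QF.lt (hg : QF g) (hh : QF h) : PTP (fun a => g a < h a) :=
  (hh.le hg).not.congr (fun _ => not_le)

theorem QF.eq (hg : QF g) (hh : QF h) : PTP (fun a => g a = h a) :=
  ((hg.le hh).and (hh.le hg)).congr (fun _ => le_antisymm_iff.symm)

open Classical in
theorem QF.ite {p : α → Prop} (hp : PTP p) (hg : QF g) (hh : QF h) :
    QF (fun a => if p a then g a else h a) := by
  obtain ⟨φ, h1, h2⟩ := hg
  obtain ⟨ψ, h3, h4⟩ := hh
  refine ⟨fun a => if p a then φ a else ψ a, PTF.ite hp.ptf h1 h3, fun a => ?_⟩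
  by_cases h : p a
  · simp only [h, if_true]; exact h2 a
  · simp only [h, if_false]; exact h4 a

theorem QF.abs (hg : QF g) : QF (fun a => |g a|) := by
  classical
  refine (QF.ite ((QF.const 0).le hg) hg hg.neg).congr (fun a => ?_)
  by_cases h : 0 ≤ g a
  · rw [if_pos h, abs_of_nonneg h]
  · rw [if_neg h, abs_of_neg (not_le.1 h)]

theorem QF.sum_fin {k : ℕ} {G : Fin k → α → ℚ} (hG : ∀ i, QF (G i)) :
    QF (fun a => ∑ i, G i a) := by
  induction k with
  | zero => exact (QF.const 0).congr (fun a => by simp)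
  | succ k ih =>
    exact ((hG 0).add (ih (fun i => hG i.succ))).congr (fun a => by rw [Fin.sum_univ_succ])

theorem QF.prod_fin {k : ℕ} {G : Fin k → α → ℚ} (hG : ∀ i, QF (G i)) :
    QF (fun a => ∏ i, G i a) := by
  induction k with
  | zero => exact (QF.const 1).congr (fun a => by simp)
  | succ k ih =>
    exact ((hG 0).mul (ih (fun i => hG i.succ))).congr (fun a => by rw [Fin.prod_univ_succ])

theorem QF.sum {ι : Type} (T : Finset ι) {G : ι → α → ℚ} (hG : ∀ i, QF (G i)) :
    QF (fun a => ∑ i ∈ T, G i a) := by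
  classical
  induction T using Finset.induction_on with
  | empty => exact (QF.const 0).congr (fun a => by simp)
  | insert i T hi ih =>
    exact ((hG i).add ih).congr (fun a => by rw [Finset.sum_insert hi])

theorem QF.prod {ι : Type} (T : Finset ι) {G : ι → α → ℚ} (hG : ∀ i, QF (G i)) :
    QF (fun a => ∏ i ∈ T, G i a) := by
  classical
  induction T using Finset.induction_on with
  | empty => exact (QF.const 1).congr (fun a => by simp)
  | insert i T hi ih =>
    exact ((hG i).mul ih).congr (fun a => by rw [Finset.prod_insert hi])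

theorem QF.det {k : ℕ} {A : α → Matrix (Fin k) (Fin k) ℚ} (hA : ∀ i j, QF (fun a => A a i j)) :
    QF (fun a => (A a).det) := by
  refine (QF.sum (Finset.univ : Finset (Equiv.Perm (Fin k)))
    (G := fun σ a => ((Equiv.Perm.sign σ : ℤ) : ℚ) * ∏ i, A a (σ i) i)
    (fun σ => (QF.const _).mul (QF.prod_fin (fun i => hA (σ i) i)))).congr (fun a => ?_)
  rw [Matrix.det_apply']

/-- The value of a bit list is zero iff all bits are `false`. -/
theorem bval_eq_zero (l : List Bool) : bval l = 0 ↔ l.all (fun b => !b) = true := by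
  induction l with
  | nil => simp [bval]
  | cons b l ih =>
    rw [bval, List.all_cons]
    cases b
    · simp only [Bool.toNat_false, Bool.not_false, Bool.true_and]
      rw [← ih]; omega
    · simp

theorem QF.of_BQ {φ : α → BQ} (h : PTF φ) : QF (fun a => qv (φ a)) := by
  classical
  have he := claimBadd.2.2
  have hall : PTF (fun a => ((φ a).2).all (fun b => !b)) :=
    PTF.all' (f := fun _ b => !b) (PTF.not PTF.snd) (PTF.snd.comp h)
  refine ⟨fun a => if ((φ a).2).all (fun b => !b) = true then repQ 0 else φ a,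
    PTF.ite (PTF.eq hall (PTF.const true)) (PTF.const _) h, fun a => ?_⟩
  beta_reduce
  by_cases hc : ((φ a).2).all (fun b => !b) = true
  · rw [if_pos hc]
    refine ⟨ok_repQ he 0, ?_⟩
    rw [qv_repQ he]
    unfold qv
    rw [(bval_eq_zero _).2 hc]
    simp
  · rw [if_neg hc]
    exact ⟨fun h => hc ((bval_eq_zero _).1 h), rfl⟩

end qf

end Pool.Agent.Work.MP_5296b6_lc
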