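import Pool.Agent.Work.MP_5296b6_lc.GenStmts
import Pool.Agent.Work.MP_5296b6_lc.FinEnc

/-!
# Search from decision by path extension
-/

set_option autoImplicit false

namespace Pool.Agent.Scatter

open Pool.Agent.PT Pool.Agent.MaxScatter Function

namespace Srch

/-- All ways to take one element out of a list. -/
def cand {al : Type} (rest : List al) : List (al × List al) :=
  (List.range rest.length).filterMap
    (fun j => (rest[j]?).map (fun q => (q, rest.take j ++ rest.drop (j + 1))))

theorem mem_cand {al : Type} {rest : List al} {x : al × List al} :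
    x ∈ cand rest ↔ ∃ j, rest[j]? = some x.1 ∧ x.2 = rest.take j ++ rest.drop (j + 1) := by
  unfold cand
  rw [List.mem_filterMap]
  constructor
  · rintro ⟨j, -, hj⟩
    obtain ⟨q, hq, rfl⟩ := Option.map_eq_some_iff.1 hj
    exact ⟨j, hq, rfl⟩
  · rintro ⟨j, hj, hx⟩
    have hlt : j < rest.length := (List.getElem?_eq_some_iff.1 hj).1
    refine ⟨j, List.mem_range.2 hlt, Option.map_eq_some_iff.2 ⟨x.1, hj, ?_⟩⟩
    rw [← hx]

theorem split {al : Type} {rest : List al} {j : ℕ} {q : al} (h : rest[j]? = some q) :
    rest = rest.take j ++ q :: rest.drop (j + 1) := by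
  obtain ⟨hj, hq⟩ := List.getElem?_eq_some_iff.1 h
  conv_lhs => rw [← List.take_append_drop j rest]
  rw [List.drop_eq_getElem_cons hj, hq]

theorem cand_perm {al : Type} {rest : List al} {x : al × List al} (h : x ∈ cand rest) :
    (x.1 :: x.2).Perm rest := by
  obtain ⟨j, hj, hx⟩ := mem_cand.1 h
  rw [hx]
  conv_rhs => rw [split hj]
  exact List.perm_middle.symm

theorem cand_sz {al : Type} [Enc al] {rest : List al} {x : al × List al} (h : x ∈ cand rest) :
    sz x.2 + sz x.1 + 1 = sz rest := by
  obtain ⟨j, hj, hx⟩ := mem_cand.1 h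
  rw [hx]
  have h1 := sz_append (rest.take j) (rest.drop (j + 1))
  have h2 := sz_append (rest.take j) (x.1 :: rest.drop (j + 1))
  rw [← split hj, sz_cons] at h2
  omega

theorem exists_cand {al : Type} {rest : List al} {q : al} (h : q ∈ rest) :
    ∃ r, (q, r) ∈ cand rest := by
  obtain ⟨j, hj⟩ := List.getElem?_of_mem h
  exact ⟨_, mem_cand.2 ⟨j, hj, rfl⟩⟩

theorem ptf_cand {α al : Type} [Enc α] [Enc al] {l : α → List al} (hl : PTF l) :
    PTF (fun a => cand (l a)) := by
  unfold cand
  fun_prop

section

variable {f : ℕ} {ga al : Type} [Enc ga] [Enc al] (C : Cmp f ga al)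
  (dec : ga × ((al × al) × List al) → Bool)

/-- The test for the next point of the path. -/
def tst (c : ga) (p0 l : al) (x : al × List al) : Bool :=
  decide (∃ i, C.leL i (c, (l, x.1)) = true ∨ C.leL i (c, (x.1, l)) = true) &&
    dec (c, ((p0, x.1), x.2))

/-- One extension of the path. -/
def stp (a : (ga × al) × (List al × List al)) : List al × List al :=
  match (cand a.2.2).find? (tst C dec a.1.1 a.1.2 (a.2.1.headD a.1.2)) with
  | none => a.2
  | some x => (x.1 :: a.2.1, x.2)

/-- The search. -/
def srch (q : ga × List al) : List al :=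
  match q.2 with
  | [] => []
  | p0 :: P' => ((fun s => stp C dec ((q.1, p0), s))^[P'.length] ([p0], P')).1.reverse

theorem ptf_tst (hd : PTF dec) :
    PTF (fun a : (ga × (al × al)) × (al × List al) => tst C dec a.1.1 a.1.2.1 a.1.2.2 a.2) := by
  unfold tst
  have h1 : ∀ i, PTF (fun a : (ga × (al × al)) × (al × List al) =>
      C.leL i (a.1.1, (a.1.2.2, a.2.1))) := fun i =>
    PTF.comp (C.ptfL i) (by fun_prop)
  have h2 : ∀ i, PTF (fun a : (ga × (al × al)) × (al × List al) =>
      C.leL i (a.1.1, (a.2.1, a.1.2.2))) := fun i =>
    PTF.comp (C.ptfL i) (by fun_prop)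
  have h3 : PTF (fun a : (ga × (al × al)) × (al × List al) =>
      dec (a.1.1, ((a.1.2.1, a.2.1), a.2.2))) := PTF.comp hd (by fun_prop)
  refine PTF.and (PTF.exists_fin (fun i => ?_)) h3
  exact ((h1 i).or (h2 i)).congr (fun a => by
    rw [Bool.eq_iff_iff]; simp)

theorem ptf_stp (hd : PTF dec) : PTF (stp C dec) := by
  have h1 : PTF (fun a : (ga × al) × (List al × List al) =>
      (cand a.2.2).find? (tst C dec a.1.1 a.1.2 (a.2.1.headD a.1.2))) := by
    refine PTF.find' (f := fun (a : (ga × al) × (List al × List al)) (x : al × List al) =>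
      tst C dec a.1.1 a.1.2 (a.2.1.headD a.1.2) x) ?_ (ptf_cand (by fun_prop))
    exact PTF.comp (f := fun a : (ga × (al × al)) × (al × List al) =>
      tst C dec a.1.1 a.1.2.1 a.1.2.2 a.2)
      (g := fun p : ((ga × al) × (List al × List al)) × (al × List al) =>
        ((p.1.1.1, (p.1.1.2, p.1.2.1.headD p.1.1.2)), p.2)) (ptf_tst C dec hd) (by fun_prop)
  refine (PTF.option_case h1 (f := fun a => a.2) PTF.snd
    (g := fun p : ((ga × al) × (List al × List al)) × (al × List al) =>
      (p.2.1 :: p.1.2.1, p.2.2)) (by fun_prop)).congr (fun a => ?_)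
  unfold stp
  cases (cand a.2.2).find? (tst C dec a.1.1 a.1.2 (a.2.1.headD a.1.2)) <;> rfl

theorem stp_sz (a : ga × al) (s : List al × List al) : sz (stp C dec (a, s)) ≤ sz s := by
  unfold stp
  cases h : (cand s.2).find? (tst C dec a.1 a.2 (s.1.headD a.2)) with
  | none => exact le_refl _
  | some x =>
    have h1 := cand_sz (List.mem_of_find?_eq_some h)
    show sz ((x.1 :: s.1, x.2) : List al × List al) ≤ sz s
    have h2 : sz s = sz s.1 + sz s.2 + 1 := sz_pair _ _
    rw [h2, sz_pair, sz_cons]
    omega

theorem ptf_srch (hd : PTF dec) : PTF (srch C dec) := by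
  have h1 : PTF (fun p : (ga × List al) × (al × List al) =>
      (fun s => stp C dec ((p.1.1, p.2.1), s))^[p.2.2.length] ([p.2.1], p.2.2)) := by
    have h := PTF.nat_iterate_add (n := fun p : (ga × List al) × (al × List al) => p.2.2.length)
      (init := fun p => ([p.2.1], p.2.2))
      (step := fun q : ((ga × List al) × (al × List al)) × (List al × List al) =>
        stp C dec ((q.1.1.1, q.1.2.1), q.2)) (by fun_prop) (by fun_prop)
      (PTF.comp (ptf_stp C dec hd) (by fun_prop)) (fun _ => 0) (PB.const 0)
      (fun a s => by simpa using stp_sz C dec _ s)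
    exact h
  refine (PTF.list_case (l := fun q : ga × List al => q.2) (f := fun _ => ([] : List al))
    (g := fun p : (ga × List al) × (al × List al) =>
      ((fun s => stp C dec ((p.1.1, p.2.1), s))^[p.2.2.length] ([p.2.1], p.2.2)).1.reverse)
    PTF.snd (PTF.const []) (h1.fst'.reverse)).congr (fun q => ?_)
  unfold srch
  cases q.2 <;> rfl

end

theorem completes_cons {α : Type} {rel : α → α → Prop} {x y q : α} {R : List α} :
    Completes rel x y (q :: R) ↔ rel y q ∧ Completes rel x q R := by
  unfold Completes
  rw [List.cons_append, List.zip_cons_cons, List.forall_mem_cons]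

theorem edges_of_chain {α : Type} {rel : α → α → Prop} (h : α) :
    ∀ (path : List α) (l : α) (R : List α), List.IsChain (fun a b => rel b a) (l :: path) →
      (l :: path).getLast? = some h → Completes rel h l R →
        ∀ e ∈ edges ((l :: path).reverse ++ R), rel e.1 e.2 := by
  intro path
  induction path with
  | nil =>
    intro l R _ hl hC e he
    have : l = h := by simpa using hl
    subst this
    refine hC e ?_
    unfold edges at he
    rw [List.reverse_singleton, List.singleton_append, List.rotate_cons_succ,
      List.rotate_zero] at he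
    exact he
  | cons m path ih =>
    intro l R hc hl hC
    have h1 : (l :: m :: path).reverse ++ R = (m :: path).reverse ++ (l :: R) := by simp
    rw [h1]
    rw [List.isChain_cons_cons] at hc
    refine ih m (l :: R) hc.2 ?_ (completes_cons.2 ⟨hc.1, hC⟩)
    rw [← hl, List.getLast?_cons_cons]

end Srch

theorem claimSearch (h1 : ClaimDec) (h2 : ClaimEdges) : ClaimSearch := by
  intro f ga al _ _ C
  obtain ⟨dec, hdec, hspec⟩ := h1 f ga al C
  refine ⟨Srch.srch C dec, Srch.ptf_srch C dec hdec, ?_⟩
  intro c P hU hV hne hex
  obtain ⟨p0, P', rfl⟩ := List.exists_cons_of_ne_nil hne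
  obtain ⟨R0, hR0, hC0⟩ := (h2 al p0 P' (C.rel c)).1 hex
  have hrel : ∀ l q, C.V l → C.V q →
      (decide (∃ i, C.leL i (c, (l, q)) = true ∨ C.leL i (c, (q, l)) = true) = true ↔
        C.rel c l q) := by
    intro l q hl hq
    rw [decide_eq_true_iff]
    unfold Cmp.rel
    refine exists_congr (fun i => ?_)
    rw [C.specL i c l q hU hl hq, C.specL i c q l hU hq hl, le_abs]
    constructor
    · rintro (h | h)
      · right; linarith
      · left; linarith
    · rintro (h | h)
      · right; linarith
      · left; linarith
  have hinv : ∀ i, i ≤ P'.length →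
      ∃ (l : al) (path rest : List al),
        (fun s => Srch.stp C dec ((c, p0), s))^[i] ([p0], P') = (l :: path, rest) ∧
        List.IsChain (fun a b => C.rel c b a) (l :: path) ∧
        (l :: path).getLast? = some p0 ∧ ((l :: path) ++ rest).Perm (p0 :: P') ∧
        rest.length + i = P'.length ∧
        ∃ R2, R2.Perm rest ∧ Completes (C.rel c) p0 l R2 := by
    intro i
    induction i with
    | zero =>
      intro _
      exact ⟨p0, [], P', rfl, by simp, rfl, List.Perm.refl _, by simp, R0, hR0, hC0⟩
    | succ i ih =>
      intro hi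
      obtain ⟨l, path, rest, e, hc, hl, hp, hlen, R2, hR2, hC⟩ := ih (by omega)
      rw [iterate_succ_apply', e]
      have hVl : C.V l := hV l (hp.subset (by simp))
      have hVr : ∀ r ∈ rest, C.V r := fun r hr => hV r (hp.subset (by simp [hr]))
      have hVp : C.V p0 := hV p0 (by simp)
      cases R2 with
      | nil =>
        have h3 := hR2.length_eq
        rw [List.length_nil] at h3
        omega
      | cons q R3 =>
        obtain ⟨hq1, hq2⟩ := Srch.completes_cons.1 hC
        have hqr : q ∈ rest := hR2.subset (by simp)
        obtain ⟨r, hr⟩ := Srch.exists_cand hqr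
        have hqr' := Srch.cand_perm hr
        have hR3 : R3.Perm r := (List.perm_cons q).1 (hR2.trans hqr'.symm)
        have htest : ∃ x ∈ Srch.cand rest, Srch.tst C dec c p0 l x = true := by
          refine ⟨(q, r), hr, ?_⟩
          unfold Srch.tst
          rw [Bool.and_eq_true]
          refine ⟨(hrel l q hVl (hVr q hqr)).2 hq1, ?_⟩
          refine (hspec c p0 q r hU hVp (hVr q hqr) ?_).2 ⟨R3, hR3, hq2⟩
          intro z hz
          exact hVr z (hqr'.subset (by simp [hz]))
        cases hf : (Srch.cand rest).find? (Srch.tst C dec c p0 l) with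
        | none =>
          obtain ⟨x, hx1, hx2⟩ := htest
          have := List.find?_eq_none.1 hf x hx1
          exact absurd hx2 this
        | some x =>
          have hx1 := List.mem_of_find?_eq_some hf
          have hx2 : Srch.tst C dec c p0 l x = true := List.find?_some hf
          have hxp := Srch.cand_perm hx1
          have hVx : C.V x.1 := hVr _ (hxp.subset (by simp))
          unfold Srch.tst at hx2
          rw [Bool.and_eq_true] at hx2
          have hrx := (hrel l x.1 hVl hVx).1 hx2.1
          have hdx := (hspec c p0 x.1 x.2 hU hVp hVx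
            (fun z hz => hVr z (hxp.subset (by simp [hz])))).1 hx2.2
          refine ⟨x.1, l :: path, x.2, ?_, ?_, ?_, ?_, ?_, hdx⟩
          · show Srch.stp C dec ((c, p0), (l :: path, rest)) = _
            unfold Srch.stp
            have hf' : (Srch.cand rest).find? (Srch.tst C dec c p0 ((l :: path).headD p0)) =
                some x := hf
            simp only [hf']
          · rw [List.isChain_cons_cons]
            exact ⟨hrx, hc⟩
          · rw [List.getLast?_cons_cons]
            exact hl
          · refine List.Perm.trans ?_ hp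
            have h5 : ((x.1 :: l :: path) ++ x.2).Perm ((l :: path) ++ (x.1 :: x.2)) :=
              List.perm_middle.symm
            exact h5.trans (hxp.append_left _)
          · have := hxp.length_eq
            rw [List.length_cons] at this
            omega
  obtain ⟨l, path, rest, e, hc, hl, hp, hlen, R2, hR2, hC⟩ := hinv P'.length le_rfl
  have hrest : rest = [] := List.length_eq_zero_iff.1 (by omega)
  subst hrest
  have hR2' : R2 = [] := hR2.eq_nil
  subst hR2'
  have hs : Srch.srch C dec (c, p0 :: P') = (l :: path).reverse := by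
    show ((fun s => Srch.stp C dec ((c, p0), s))^[P'.length] ([p0], P')).1.reverse = _
    rw [e]
  rw [hs]
  refine ⟨?_, ?_⟩
  · rw [List.append_nil] at hp
    exact (List.reverse_perm _).trans hp
  · have := Srch.edges_of_chain p0 path l [] hc hl hC
    rw [List.append_nil] at this
    exact this

end Pool.Agent.Scatter
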