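import Pool.Agent.Work.MP_5296b6_lc.SelStmts
import Pool.Agent.Work.MP_5296b6_lc.Bd.B02

/-!
# I7b: the codes of the seven points of the reduction
-/

set_option autoImplicit false

namespace Pool.Agent.Work.MP_5296b6_lc

open Pool.Agent.PT N487b59b3

namespace SC

/-! ### Trimming: the canonical binary code -/

/-- no superfluous `false` at the end -/
def Tr (l : List Bool) : Prop := l = [] ∨ ∃ m, l = m ++ [true]

theorem bval_app (l m : List Bool) : bval (l ++ m) = bval l + 2 ^ l.length * bval m :=
  A2.bval_append l m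

theorem tr_cons {b : Bool} {l : List Bool} (h : Tr (b :: l)) : Tr l := by
  rcases h with h | ⟨m, h⟩
  · exact absurd h (by simp)
  · cases m with
    | nil =>
      left
      simpa using (List.cons.inj h).2
    | cons c m =>
      right
      exact ⟨m, (List.cons.inj h).2⟩

theorem tr_pos {l : List Bool} (h : Tr l) (hl : l ≠ []) : 0 < bval l := by
  rcases h with h | ⟨m, rfl⟩
  · exact absurd h hl
  · rw [bval_app]
    have : bval [true] = 1 := rfl
    rw [this]
    positivity

theorem tr_inj : ∀ {l m : List Bool}, Tr l → Tr m → bval l = bval m → l = m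
  | [], m, _, hm, h => by
    by_contra hne
    have := tr_pos hm (fun h' => hne h'.symm)
    rw [← h] at this
    exact absurd this (by simp [bval])
  | b :: l, [], hl, _, h => by
    have := tr_pos hl (by simp)
    rw [h] at this
    exact absurd this (by simp [bval])
  | b :: l, c :: m, hl, hm, h => by
    rw [A2.bval_cons, A2.bval_cons] at h
    have hb : b.toNat ≤ 1 := Bool.toNat_le b
    have hc : c.toNat ≤ 1 := Bool.toNat_le c
    have h1 : b.toNat = c.toNat := by omega
    have h2 : bval l = bval m := by omega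
    have h3 : b = c := by
      cases b <;> cases c <;> simp_all
    rw [h3, tr_inj (tr_cons hl) (tr_cons hm) h2]

theorem tr_encodePosNum (p : PosNum) : ∃ m, Computability.encodePosNum p = m ++ [true] := by
  induction p with
  | one => exact ⟨[], rfl⟩
  | bit0 p ih =>
    obtain ⟨m, hm⟩ := ih
    exact ⟨false :: m, by
      show false :: Computability.encodePosNum p = _
      rw [hm]; rfl⟩
  | bit1 p ih =>
    obtain ⟨m, hm⟩ := ih
    exact ⟨true :: m, by
      show true :: Computability.encodePosNum p = _
      rw [hm]; rfl⟩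

theorem tr_encodeNat (n : ℕ) : Tr (Computability.encodeNat n) := by
  unfold Computability.encodeNat
  cases (n : Num) with
  | zero => exact Or.inl rfl
  | pos p => exact Or.inr (tr_encodePosNum p)

/-- remove the superfluous `false` at the end -/
def trim (l : List Bool) : List Bool := (l.reverse.drop (l.reverse.idxOf true)).reverse

theorem trim_true (l : List Bool) : trim (l ++ [true]) = l ++ [true] := by
  unfold trim
  rw [List.reverse_append]
  simp

theorem trim_false (l : List Bool) : trim (l ++ [false]) = trim l := by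
  unfold trim
  rw [List.reverse_append]
  have h : ([false].reverse ++ l.reverse).idxOf true = l.reverse.idxOf true + 1 :=
    List.idxOf_cons_ne _ (by decide)
  rw [h]
  rfl

theorem trim_spec (l : List Bool) : Tr (trim l) ∧ bval (trim l) = bval l := by
  induction l using List.reverseRecOn with
  | nil => exact ⟨Or.inl rfl, rfl⟩
  | append_singleton l b ih =>
    cases b with
    | true =>
      rw [trim_true]
      exact ⟨Or.inr ⟨l, rfl⟩, rfl⟩
    | false =>
      rw [trim_false]
      refine ⟨ih.1, ?_⟩
      rw [ih.2, bval_app]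
      simp [bval]

theorem trim_eq (l : List Bool) : trim l = Computability.encodeNat (bval l) := by
  refine tr_inj (trim_spec l).1 (tr_encodeNat _) ?_
  rw [(trim_spec l).2, A2.bval_encodeNat]

theorem ptf_trim : PTF trim := by
  unfold trim
  exact ((PTF.id.reverse).drop (PTF.idxOf (PTF.const true) PTF.id.reverse)).reverse

/-! ### Truncated subtraction -/

/-- the complement of `q` among `n` bits -/
def compl (n : ℕ) (q : List Bool) : List Bool :=
  q.map (fun b => !b) ++ List.replicate (n - q.length) true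

theorem bval_not (q : List Bool) : bval (q.map (fun b => !b)) + bval q + 1 = 2 ^ q.length := by
  induction q with
  | nil => rfl
  | cons b q ih =>
    rw [List.map_cons, A2.bval_cons, A2.bval_cons, List.length_cons, pow_succ, ← ih]
    cases b <;> simp <;> ring

theorem bval_ones (k : ℕ) : bval (List.replicate k true) + 1 = 2 ^ k := by
  induction k with
  | zero => rfl
  | succ k ih =>
    rw [List.replicate_succ, A2.bval_cons, pow_succ, ← ih]
    simp
    ring

theorem bval_compl {n : ℕ} {q : List Bool} (h : q.length ≤ n) :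
    bval (compl n q) + bval q + 1 = 2 ^ n := by
  unfold compl
  rw [bval_app, List.length_map]
  have h1 := bval_not q
  have h2 := bval_ones (n - q.length)
  have h3 : 2 ^ n = 2 ^ q.length * 2 ^ (n - q.length) := by
    rw [← pow_add]; congr 1; omega
  rw [h3, ← h2]
  nlinarith [h1]

/-- truncated subtraction -/
def sub (add : List Bool × List Bool → List Bool) (p : List Bool × List Bool) : List Bool :=
  if bval p.2 ≤ bval p.1 then
    (add (add (p.1, compl (p.1.length + p.2.length) p.2), [true])).take (p.1.length + p.2.length)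
  else []

theorem sub_val {add : List Bool × List Bool → List Bool}
    (hav : ∀ p, bval (add p) = bval p.1 + bval p.2) (p : List Bool × List Bool) :
    bval (sub add p) = bval p.1 - bval p.2 := by
  unfold sub
  split_ifs with h
  · rw [A3.bval_take, hav, hav]
    have h1 := bval_compl (n := p.1.length + p.2.length) (q := p.2) (by omega)
    have h2 : bval [true] = 1 := rfl
    have h3 := A3.bval_lt p.1
    have h4 : 2 ^ p.1.length ≤ 2 ^ (p.1.length + p.2.length) :=
      Nat.pow_le_pow_right (by norm_num) (by omega)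
    dsimp only
    rw [h2]
    have h5 : bval p.1 + bval (compl (p.1.length + p.2.length) p.2) + 1 =
        (bval p.1 - bval p.2) + 2 ^ (p.1.length + p.2.length) := by omega
    rw [h5, Nat.add_mod_right, Nat.mod_eq_of_lt (by omega)]
  · have : bval p.1 - bval p.2 = 0 := by omega
    rw [this]
    rfl

theorem ptf_sub {add : List Bool × List Bool → List Bool} (ha : PTF add) : PTF (sub add) := by
  unfold sub
  have h1 : PTF (fun p : List Bool × List Bool => decide (bval p.2 ≤ bval p.1)) :=
    claimBadd.2.1.comp (PTF.snd.pair PTF.fst)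
  have hn : PTF (fun p : List Bool × List Bool => p.1.length + p.2.length) :=
    (PTF.length PTF.fst).add (PTF.length PTF.snd)
  have hc : PTF (fun p : List Bool × List Bool => compl (p.1.length + p.2.length) p.2) := by
    unfold compl
    exact (PTF.map' (f := fun (_ : List Bool × List Bool) (b : Bool) => !b) (PTF.not PTF.snd)
      PTF.snd).append (PTF.replicate (hn.sub (PTF.length PTF.snd)) (PTF.const true))
  have h2 : PTF (fun p : List Bool × List Bool =>
      (add (add (p.1, compl (p.1.length + p.2.length) p.2), [true])).take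
        (p.1.length + p.2.length)) :=
    PTF.take (ha.comp ((ha.comp (PTF.fst.pair hc)).pair (PTF.const [true]))) hn
  exact PTF.ite h1 h2 (PTF.const [])

/-! ### Functions with natural values, in binary -/

section nf

variable {α : Type} [Enc α]

/-- Natural-valued functions, computable in polynomial time in binary. -/
def NF (g : α → ℕ) : Prop := ∃ φ : α → List Bool, PTF φ ∧ ∀ a, bval (φ a) = g a

theorem NF.congr {g h : α → ℕ} (hg : NF g) (e : ∀ a, g a = h a) : NF h := by
  have : g = h := funext e
  rwa [← this]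

theorem NF.const (n : ℕ) : NF (fun _ : α => n) :=
  ⟨fun _ => Computability.encodeNat n, PTF.const _, fun _ => A2.bval_encodeNat n⟩

theorem NF.of_bits {φ : α → List Bool} (h : PTF φ) : NF (fun a => bval (φ a)) :=
  ⟨φ, h, fun _ => rfl⟩

theorem NF.add {g h : α → ℕ} (hg : NF g) (hh : NF h) : NF (fun a => g a + h a) := by
  obtain ⟨⟨add, ha, hav⟩, -, -⟩ := claimBadd
  obtain ⟨φ, h1, h2⟩ := hg
  obtain ⟨ψ, h3, h4⟩ := hh
  exact ⟨fun a => add (φ a, ψ a), ha.comp (h1.pair h3), fun a => by rw [hav, h2, h4]⟩

theorem NF.mul {g h : α → ℕ} (hg : NF g) (hh : NF h) : NF (fun a => g a * h a) := by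
  obtain ⟨mul, hm, hmv⟩ := claimBmul claimBadd
  obtain ⟨φ, h1, h2⟩ := hg
  obtain ⟨ψ, h3, h4⟩ := hh
  exact ⟨fun a => mul (φ a, ψ a), hm.comp (h1.pair h3), fun a => by rw [hmv, h2, h4]⟩

theorem NF.sub {g h : α → ℕ} (hg : NF g) (hh : NF h) : NF (fun a => g a - h a) := by
  obtain ⟨⟨add, ha, hav⟩, -, -⟩ := claimBadd
  obtain ⟨φ, h1, h2⟩ := hg
  obtain ⟨ψ, h3, h4⟩ := hh
  exact ⟨fun a => SC.sub add (φ a, ψ a), (ptf_sub ha).comp (h1.pair h3), fun a => by
    rw [sub_val hav, h2, h4]⟩

theorem NF.sum {ι : Type} (T : Finset ι) {G : ι → α → ℕ} (hG : ∀ i, NF (G i)) :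
    NF (fun a => ∑ i ∈ T, G i a) := by
  classical
  induction T using Finset.induction_on with
  | empty => exact (NF.const 0).congr (fun a => by simp)
  | insert i T hi ih =>
    exact ((hG i).add ih).congr (fun a => by rw [Finset.sum_insert hi])

theorem NF.prod {ι : Type} (T : Finset ι) {G : ι → α → ℕ} (hG : ∀ i, NF (G i)) :
    NF (fun a => ∏ i ∈ T, G i a) := by
  classical
  induction T using Finset.induction_on with
  | empty => exact (NF.const 1).congr (fun a => by simp)
  | insert i T hi ih =>
    exact ((hG i).mul ih).congr (fun a => by rw [Finset.prod_insert hi])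

/-- powers of two with a unary exponent -/
theorem NF.two_pow {K : α → ℕ} (hK : PTF K) : NF (fun a => 2 ^ K a) := by
  refine ⟨fun a => List.replicate (K a) false ++ [true],
    (PTF.replicate hK (PTF.const false)).append (PTF.const [true]), fun a => ?_⟩
  have h0 : ∀ k, bval (List.replicate k false) = 0 := by
    intro k
    induction k with
    | zero => rfl
    | succ k ih => rw [List.replicate_succ, A2.bval_cons, ih]; rfl
  rw [bval_app, h0, List.length_replicate]
  show 0 + 2 ^ K a * 1 = 2 ^ K a
  ring

theorem NF.enc {g : α → ℕ} (hg : NF g) : PTF (fun a => Computability.encodeNat (g a)) := by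
  obtain ⟨φ, h1, h2⟩ := hg
  refine (ptf_trim.comp h1).congr (fun a => ?_)
  rw [trim_eq, h2]

/-- the code of an integer -/
theorem code_int (n : ℤ) : bitEncode ((n : ℤ) : ℚ) =
    delimit (delimit (Computability.encodeNat n.toNat) ++ Computability.encodeNat (-n).toNat) ++
      Computability.encodeNat 1 := by
  have h1 : bitEncode ((n : ℤ) : ℚ) = delimit (bitEncode ((n : ℤ) : ℚ).num) ++
      bitEncode ((n : ℤ) : ℚ).den := rfl
  rw [h1, Rat.num_intCast, Rat.den_intCast]
  rfl

theorem NF.code {g h : α → ℕ} (hg : NF g) (hh : NF h) :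
    PTF (fun a => bitEncode ((((g a : ℤ) - (h a : ℤ) : ℤ)) : ℚ)) := by
  have h1 := (hg.sub hh).enc
  have h2 := (hh.sub hg).enc
  refine ((((PTF.delimit h1).append h2).delimit).append (PTF.const
    (Computability.encodeNat 1))).congr (fun a => ?_)
  rw [code_int]
  have e1 : ((g a : ℤ) - (h a : ℤ)).toNat = g a - h a := by omega
  have e2 : (-((g a : ℤ) - (h a : ℤ))).toNat = h a - g a := by omega
  rw [e1, e2]

theorem NF.code_nat {g : α → ℕ} (hg : NF g) : PTF (fun a => bitEncode ((g a : ℕ) : ℚ)) := by
  refine (NF.code hg (NF.const 0)).congr (fun a => ?_)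
  have e : (((g a : ℤ) - ((0 : ℕ) : ℤ) : ℤ) : ℚ) = ((g a : ℕ) : ℚ) := by push_cast; ring
  rw [e]

/-- A function into lists of fixed length. -/
theorem ptf_ofFn {β : Type} [Enc β] {s : ℕ} {F : Fin s → α → β} (hF : ∀ j, PTF (F j)) :
    PTF (fun a => List.ofFn (fun j => F j a)) := by
  induction s with
  | zero => exact (PTF.const []).congr (fun a => by simp)
  | succ s ih =>
    exact ((hF 0).cons (ih (fun j => hF j.succ))).congr (fun a => by rw [List.ofFn_succ])

/-- The code of a list of rational numbers of fixed length. -/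
theorem ptf_code_list {s : ℕ} {F : Fin s → α → ℚ} (hF : ∀ j, PTF (fun a => bitEncode (F j a))) :
    PTF (fun a => bitEncode (List.ofFn (fun j => F j a))) := by
  have h1 : ∀ a, bitEncode (List.ofFn (fun j => F j a)) =
      (List.ofFn (fun j => delimit (bitEncode (F j a)))).flatten := by
    intro a
    show (((List.ofFn (fun j => F j a)).map bitEncode).map delimit).flatten = _
    rw [List.map_ofFn, List.map_ofFn]
    rfl
  exact ((ptf_ofFn (fun j => PTF.delimit (hF j))).flatten).congr (fun a => (h1 a).symm)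

end nf

/-! ### The reduction -/

/-- raw inputs: codes of four points -/
abbrev Inp := (List Bool × List Bool) × (List Bool × List Bool)

/-- the four raw codes -/
def raw (a : Inp) (k : Fin 4) : List Bool :=
  if k = 0 then a.1.1 else if k = 1 then a.1.2 else if k = 2 then a.2.1 else a.2.2

theorem ptf_raw (k : Fin 4) : PTF (fun a : Inp => raw a k) := by
  fin_cases k
  · exact PTF.fst.comp PTF.fst
  · exact PTF.snd.comp PTF.fst
  · exact PTF.fst.comp PTF.snd
  · exact PTF.snd.comp PTF.snd

section red

variable (pt : List Bool → List BQ) (s : ℕ)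

/-- coordinate `j` of the point `k` -/
def X (k : Fin 4) (j : ℕ) (a : Inp) : BQ := (pt (raw a k)).getD j (repQ 0)

/-- denominators -/
def den (i : Fin 4 × Fin s) (a : Inp) : ℕ := bval (X pt i.1 i.2 a).2

/-- the common denominator -/
def dd (a : Inp) : ℕ := ∏ i, den pt s i a

/-- the product of the other denominators -/
def ee (i : Fin 4 × Fin s) (a : Inp) : ℕ := ∏ i' ∈ Finset.univ.erase i, den pt s i' a

/-- positive part of the difference -/
def up (k k' : Fin 4) (j : Fin s) (a : Inp) : ℕ :=
  bval (X pt k j a).1.1 * ee pt s (k, j) a + bval (X pt k' j a).1.2 * ee pt s (k', j) a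

/-- negative part of the difference -/
def um (k k' : Fin 4) (j : Fin s) (a : Inp) : ℕ :=
  bval (X pt k j a).1.2 * ee pt s (k, j) a + bval (X pt k' j a).1.1 * ee pt s (k', j) a

variable {pt}

theorem nf_X (hpt : PTF pt) (k : Fin 4) (j : ℕ) : NF (fun a => bval (X pt k j a).1.1) ∧
    NF (fun a => bval (X pt k j a).1.2) ∧ NF (fun a => bval (X pt k j a).2) := by
  have h : PTF (fun a : Inp => X pt k j a) :=
    PTF.getD (hpt.comp (ptf_raw k)) (PTF.const j) (PTF.const (repQ 0))
  exact ⟨NF.of_bits (PTF.fst.comp (PTF.fst.comp h)), NF.of_bits (PTF.snd.comp (PTF.fst.comp h)),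
    NF.of_bits (PTF.snd.comp h)⟩

theorem nf_ee (hpt : PTF pt) (i : Fin 4 × Fin s) : NF (ee pt s i) :=
  NF.prod _ (fun i' => (nf_X hpt i'.1 i'.2).2.2)

theorem nf_up (hpt : PTF pt) (k k' : Fin 4) (j : Fin s) : NF (up pt s k k' j) :=
  ((nf_X hpt k j).1.mul (nf_ee s hpt (k, j))).add ((nf_X hpt k' j).2.1.mul (nf_ee s hpt (k', j)))

theorem nf_um (hpt : PTF pt) (k k' : Fin 4) (j : Fin s) : NF (um pt s k k' j) :=
  ((nf_X hpt k j).2.1.mul (nf_ee s hpt (k, j))).add ((nf_X hpt k' j).1.mul (nf_ee s hpt (k', j)))

variable {s}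

theorem key (a : Inp) (q : Fin 4 → ℕ → ℚ) (hX : ∀ k j, X pt k j a = repQ (q k j))
    (k k' : Fin 4) (j : Fin s) :
    (((up pt s k k' j a : ℤ) - (um pt s k k' j a : ℤ) : ℤ) : ℚ) =
      dd pt s a * (q k j - q k' j) := by
  have he := A2.bval_encodeNat
  have h1 : ∀ k : Fin 4, (bval (X pt k j a).1.1 : ℚ) - bval (X pt k j a).1.2 =
      q k j * den pt s (k, j) a := by
    intro k
    have h2 := A4.qv_repQ he (q k j)
    have h3 := A4.ok_repQ he (q k j)
    rw [← hX] at h2 h3
    have h4 : ((bval (X pt k j a).2 : ℕ) : ℚ) ≠ 0 := by exact_mod_cast h3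
    unfold A4.qv at h2
    rw [div_eq_iff h4] at h2
    exact h2
  have h5 : ∀ k : Fin 4, (den pt s (k, j) a : ℚ) * ee pt s (k, j) a = dd pt s a := by
    intro k
    have := Finset.mul_prod_erase Finset.univ (fun i => den pt s i a) (Finset.mem_univ (k, j))
    unfold ee dd
    exact_mod_cast this
  unfold up um
  push_cast
  have e1 := h1 k
  have e2 := h1 k'
  have e3 := h5 k
  have e4 := h5 k'
  calc _ = ((bval (X pt k j a).1.1 : ℚ) - bval (X pt k j a).1.2) * ee pt s (k, j) a -
        ((bval (X pt k' j a).1.1 : ℚ) - bval (X pt k' j a).1.2) * ee pt s (k', j) a := by ring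
    _ = q k j * (den pt s (k, j) a * ee pt s (k, j) a) -
        q k' j * (den pt s (k', j) a * ee pt s (k', j) a) := by rw [e1, e2]; ring
    _ = _ := by rw [e3, e4]; ring

end red

end SC

open SC in
/-- I7b. -/
theorem claimSevenCodes : ClaimSevenCodes := by
  intro s C hs
  have hP := claimParse claimUndelimit
  obtain ⟨-, ⟨p2, hp2, hp2s⟩, -, -⟩ := hP
  -- parsing of a point
  obtain ⟨pt, hpt, hpts⟩ : ∃ g : List Bool → List BQ, PTF g ∧
      ∀ y : List ℚ, g (bitEncode y) = y.map repQ := by
    refine ⟨fun c => (p2 (delimit c)).headD [], (hp2.comp (PTF.id.delimit)).headD (PTF.const []),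
      fun y => ?_⟩
    have e : delimit (bitEncode y) = bitEncode [y] := by
      show _ = ((([y] : List (List ℚ)).map bitEncode).map delimit).flatten
      simp
    dsimp only
    rw [e, hp2s]
    rfl
  -- the far points
  have hM : NF (fun a : Inp => C * ((∑ j : Fin s, (up pt s 0 1 j a + um pt s 0 1 j a +
      (up pt s 2 3 j a + um pt s 2 3 j a))) + 1)) :=
    (NF.const C).mul ((NF.sum _ (fun j => ((nf_up s hpt 0 1 j).add (nf_um s hpt 0 1 j)).add
      ((nf_up s hpt 2 3 j).add (nf_um s hpt 2 3 j)))).add (NF.const 1))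
  obtain ⟨φ, hφ, hφv⟩ := hM
  have hN : NF (fun a : Inp => 2 ^ (φ a).length) := NF.two_pow hφ.length
  have hpos : ∀ k k' : Fin 4, PTF (fun a : Inp => bitEncode (List.ofFn fun j : Fin s =>
      ((((up pt s k k' j a : ℤ) - (um pt s k k' j a : ℤ) : ℤ)) : ℚ))) := fun k k' =>
    ptf_code_list (fun j => NF.code (nf_up s hpt k k' j) (nf_um s hpt k k' j))
  have hneg : ∀ k k' : Fin 4, PTF (fun a : Inp => bitEncode (List.ofFn fun j : Fin s =>
      (-(((up pt s k k' j a : ℤ) - (um pt s k k' j a : ℤ) : ℤ)) : ℚ))) := fun k k' =>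
    ptf_code_list (fun j => (NF.code (nf_um s hpt k k' j) (nf_up s hpt k k' j)).congr
      (fun a => by congr 1; push_cast; ring))
  have hfar : ∀ i : ℕ, PTF (fun a : Inp => bitEncode (List.ofFn fun j : Fin s =>
      if (j : ℕ) = 0 then (((i + 1) * 2 ^ (φ a).length : ℕ) : ℚ) else 0)) := by
    intro i
    refine ptf_code_list (fun j => ?_)
    by_cases hj : (j : ℕ) = 0
    · simp only [if_pos hj]
      exact NF.code_nat ((NF.const (i + 1)).mul hN)
    · simp only [if_neg hj]
      exact PTF.const _
  refine ⟨fun a => ((bitEncode (List.ofFn fun j : Fin s =>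
      ((((up pt s 0 1 j a : ℤ) - (um pt s 0 1 j a : ℤ) : ℤ)) : ℚ)),
    bitEncode (List.ofFn fun j : Fin s =>
      (-(((up pt s 0 1 j a : ℤ) - (um pt s 0 1 j a : ℤ) : ℤ)) : ℚ))),
    ((bitEncode (List.ofFn fun j : Fin s =>
      ((((up pt s 2 3 j a : ℤ) - (um pt s 2 3 j a : ℤ) : ℤ)) : ℚ)),
    bitEncode (List.ofFn fun j : Fin s =>
      (-(((up pt s 2 3 j a : ℤ) - (um pt s 2 3 j a : ℤ) : ℤ)) : ℚ))),
    (List.range 3).map (fun i => bitEncode (List.ofFn fun j : Fin s =>
      if (j : ℕ) = 0 then (((i + 1) * 2 ^ (φ a).length : ℕ) : ℚ) else 0)))), ?_, ?_⟩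
  · refine ((hpos 0 1).pair (hneg 0 1)).pair (((hpos 2 3).pair (hneg 2 3)).pair ?_)
    have e3 : List.range 3 = [0, 1, 2] := rfl
    simp only [e3, List.map_cons, List.map_nil]
    exact (hfar 0).cons ((hfar 1).cons ((hfar 2).cons (PTF.const [])))
  · intro y z y' z'
    set a : Inp := ((bitEncode y, bitEncode z), (bitEncode y', bitEncode z')) with ha
    let q : Fin 4 → ℕ → ℚ := fun k j =>
      if k = 0 then y.getD j 0 else if k = 1 then z.getD j 0 else if k = 2 then y'.getD j 0
      else z'.getD j 0
    have hX : ∀ k j, X pt k j a = repQ (q k j) := by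
      intro k j
      unfold X raw
      fin_cases k
      · show (pt (bitEncode y)).getD j (repQ 0) = repQ (y.getD j 0)
        rw [hpts, A4.getD_map]
      · show (pt (bitEncode z)).getD j (repQ 0) = repQ (z.getD j 0)
        rw [hpts, A4.getD_map]
      · show (pt (bitEncode y')).getD j (repQ 0) = repQ (y'.getD j 0)
        rw [hpts, A4.getD_map]
      · show (pt (bitEncode z')).getD j (repQ 0) = repQ (z'.getD j 0)
        rw [hpts, A4.getD_map]
    have hk := key (s := s) a q hX
    refine ⟨dd pt s a, 2 ^ (φ a).length, fun j => (up pt s 0 1 j a : ℤ) - (um pt s 0 1 j a : ℤ),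
      fun j => (up pt s 2 3 j a : ℤ) - (um pt s 2 3 j a : ℤ), ?_, by positivity, hk 0 1, hk 2 3,
      fun j => ?_, rfl⟩
    · unfold dd
      refine Finset.prod_pos fun i _ => ?_
      have h := A4.ok_repQ A2.bval_encodeNat (q i.1 i.2)
      rw [← hX] at h
      exact Nat.pos_of_ne_zero h
    · have h1 := hφv a
      have h2 := A3.bval_lt (φ a)
      have h3 : up pt s 0 1 j a + um pt s 0 1 j a + (up pt s 2 3 j a + um pt s 2 3 j a) ≤
          ∑ j : Fin s, (up pt s 0 1 j a + um pt s 0 1 j a +
            (up pt s 2 3 j a + um pt s 2 3 j a)) :=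
        Finset.single_le_sum (f := fun j => up pt s 0 1 j a + um pt s 0 1 j a +
            (up pt s 2 3 j a + um pt s 2 3 j a)) (fun _ _ => Nat.zero_le _) (Finset.mem_univ j)
      have h4 : |(up pt s 0 1 j a : ℤ) - (um pt s 0 1 j a : ℤ)| ≤
          up pt s 0 1 j a + um pt s 0 1 j a := abs_le.2 ⟨by omega, by omega⟩
      have h5 : |(up pt s 2 3 j a : ℤ) - (um pt s 2 3 j a : ℤ)| ≤
          up pt s 2 3 j a + um pt s 2 3 j a := abs_le.2 ⟨by omega, by omega⟩
      have h6 : C * (up pt s 0 1 j a + um pt s 0 1 j a + (up pt s 2 3 j a + um pt s 2 3 j a) + 1) <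
          2 ^ (φ a).length := by
        refine lt_of_le_of_lt ?_ h2
        rw [h1]
        exact Nat.mul_le_mul_left _ (by omega)
      have h7 : ((C * (up pt s 0 1 j a + um pt s 0 1 j a +
          (up pt s 2 3 j a + um pt s 2 3 j a) + 1) : ℕ) : ℤ) ≤ ((2 ^ (φ a).length : ℕ) : ℤ) := by
        exact_mod_cast h6.le
      refine le_trans ?_ h7
      push_cast
      refine mul_le_mul_of_nonneg_left ?_ (by positivity)
      linarith

end Pool.Agent.Work.MP_5296b6_lc
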