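import Pool.Agent.Work.MP_5296b6_lc.Bd.B04
import Pool.Agent.Work.MP_5296b6_lc.SevenCodes

/-!
# Assembly: all real polyhedral norms
-/

set_option autoImplicit false

namespace Pool.Agent.Scatter

open Pool.Agent.PT Pool.Agent.MaxScatter N487b59b3 Pool.Agent.Work.MP_5296b6_lc

theorem claimTours' : ClaimTours :=
  claimTours (claimMatch claimBasic) claimVal (claimSearch claimDec' claimEdges)

theorem decision_iff {s : ℕ} {B : Set (Fin s → ℝ)} (h1 : 1 ≤ s) (hB : IsPolyhedralBall B) :
    DecisionPoly B ↔ NumberComparable B :=
  ⟨fun h => claimOnlyIf s B h1 hB h, fun h => @decision_of_comparable s B claimTours' claimWeyl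
    claimNorm claimScatter claimUndelimit (claimParse claimUndelimit) h1 hB h
    (fun _ => Classical.propDecidable _)⟩

theorem optimum_iff {s : ℕ} {B : Set (Fin s → ℝ)} (h1 : 1 ≤ s) (hB : IsPolyhedralBall B) :
    OptimumPoly B ↔ LongerFindable B :=
  ⟨fun h => selectable_of_opt claimSeven claimSevenCodes claimWeyl claimNorm claimUndelimit
    (claimParse claimUndelimit) h1 hB h, fun h => optComputable_of_selectable claimTours'
    claimWeyl claimNorm claimScatter (claimParse claimUndelimit) h1 hB h⟩

end Pool.Agent.Scatter
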