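import Pool.Agent.Work.MP_5296b6_lc.DPPtf
import Pool.Agent.Work.MP_5296b6_lc.GenStmts

/-!
# Words of a table; words from comparisons
-/

set_option autoImplicit false

namespace Pool.Agent.Work.MP_5296b6_lc

open Pool.Agent.PT Pool.Agent.Scatter

/-- `W` is the family of words of the table `D`. -/
def IsWords {n : ℕ} {ι : Type} (D : Table (Fin n) ι) (W : Side ι → List Letter) : Prop :=
  (∀ κ, (W κ).length = D.N) ∧ ∀ κ (t : Tok (Fin n)) b,
    (W κ)[D.rk κ (D.pos t (κ.1, b)) - 1]? = some (((t.1 : ℕ), t.2), decide (b = κ.2))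

/-- A spot: a token and a class. -/
abbrev Spot := (ℕ × Bool) × Bool

/-- All spots. -/
def spots (n : ℕ) : List Spot :=
  (List.range n).flatMap (fun v =>
    [((v, false), false), ((v, false), true), ((v, true), false), ((v, true), true)])

theorem mem_spots {n : ℕ} {s : Spot} : s ∈ spots n ↔ s.1.1 < n := by
  obtain ⟨⟨v, e⟩, b⟩ := s
  unfold spots
  rw [List.mem_flatMap]
  simp only [List.mem_range, List.mem_cons, List.not_mem_nil, or_false, Prod.mk.injEq]
  constructor
  · rintro ⟨w, hw, h⟩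
    rcases h with ⟨⟨rfl, -⟩, -⟩ | ⟨⟨rfl, -⟩, -⟩ | ⟨⟨rfl, -⟩, -⟩ | ⟨⟨rfl, -⟩, -⟩ <;> exact hw
  · intro h
    refine ⟨v, h, ?_⟩
    cases e <;> cases b <;> simp

theorem nodup_spots (n : ℕ) : (spots n).Nodup := by
  unfold spots
  rw [List.nodup_flatMap]
  refine ⟨fun v _ => by simp, ?_⟩
  refine List.Pairwise.imp ?_ (List.nodup_range (n := n))
  intro v w hvw
  rw [Function.onFun, List.disjoint_left]
  intro s hs hs'
  apply hvw
  simp only [List.mem_cons, List.not_mem_nil, or_false] at hs hs'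
  have h1 : s.1.1 = v := by rcases hs with rfl | rfl | rfl | rfl <;> rfl
  have h2 : s.1.1 = w := by rcases hs' with rfl | rfl | rfl | rfl <;> rfl
  rw [← h1, ← h2]

/-- The spot with a natural number as vertex. -/
def cst' {n : ℕ} (y : Tok (Fin n) × Bool) : Spot := (((y.1.1 : ℕ), y.1.2), y.2)

theorem cst'_inj {n : ℕ} : Function.Injective (cst' (n := n)) := by
  rintro ⟨⟨v, e⟩, b⟩ ⟨⟨v', e'⟩, b'⟩ h
  simp only [cst', Prod.mk.injEq] at h
  obtain ⟨⟨h1, h2⟩, h3⟩ := h
  rw [Fin.ext h1, h2, h3]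

/-- Counting spots. -/
theorem card_spots {n : ℕ} (P : Tok (Fin n) × Bool → Prop) [DecidablePred P] (Q : Spot → Bool)
    (h : ∀ y, Q (cst' y) = true ↔ P y) :
    (Finset.univ.filter P).card = ((spots n).filter Q).length := by
  classical
  rw [← List.toFinset_card_of_nodup ((nodup_spots n).filter _)]
  rw [← Finset.card_image_of_injective (Finset.univ.filter P) cst'_inj]
  congr 1
  ext s
  rw [Finset.mem_image, List.mem_toFinset, List.mem_filter, mem_spots]
  constructor
  · rintro ⟨y, hy, rfl⟩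
    exact ⟨y.1.1.2, (h y).2 (Finset.mem_filter.1 hy).2⟩
  · rintro ⟨h1, h2⟩
    obtain ⟨⟨v, e⟩, b⟩ := s
    have h3 : cst' (((⟨v, h1⟩ : Fin n), e), b) = ((v, e), b) := rfl
    refine ⟨((⟨v, h1⟩, e), b), Finset.mem_filter.2 ⟨Finset.mem_univ _, ?_⟩, h3⟩
    rw [← h, h3]
    exact h2

section words

variable {al ga : Type} [Enc al] [Enc ga]

/-- The point of a token. -/
def pt (x y : al) (R : List al) (t : ℕ × Bool) : al :=
  if t.1 = 0 then (if t.2 = true then y else x) else R.getD (t.1 - 1) x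

/-- Order of the tokens. -/
def tokLt (t t' : ℕ × Bool) : Bool :=
  decide (t.1 < t'.1 ∨ (t.1 = t'.1 ∧ (t.2 = false ∧ t'.2 = true)))

/-- The order of the spots, computed by comparisons. -/
def less (le0 : al × al → Bool) (leL : ga × (al × al) → Bool) (a : ga × ((al × al) × List al))
    (s s' : Spot) : Bool :=
  if s.2 = s'.2 then
    !(le0 (pt a.2.1.1 a.2.1.2 a.2.2 s'.1, pt a.2.1.1 a.2.1.2 a.2.2 s.1)) ||
      (le0 (pt a.2.1.1 a.2.1.2 a.2.2 s.1, pt a.2.1.1 a.2.1.2 a.2.2 s'.1) && tokLt s.1 s'.1)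
  else if s.2 = false then
    leL (a.1, (pt a.2.1.1 a.2.1.2 a.2.2 s.1, pt a.2.1.1 a.2.1.2 a.2.2 s'.1))
  else !(leL (a.1, (pt a.2.1.1 a.2.1.2 a.2.2 s'.1, pt a.2.1.1 a.2.1.2 a.2.2 s.1)))

/-- The position of a spot. -/
def rank (le0 : al × al → Bool) (leL : ga × (al × al) → Bool) (a : ga × ((al × al) × List al))
    (s : Spot) : ℕ :=
  1 + ((spots (a.2.2.length + 1)).filter (fun s' => less le0 leL a s' s)).length

/-- The word of a side. -/
def wordOf (le0 : al × al → Bool) (leL : ga × (al × al) → Bool) (side : Bool)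
    (a : ga × ((al × al) × List al)) : List Letter :=
  (List.range (4 * (a.2.2.length + 1))).map (fun r =>
    (((spots (a.2.2.length + 1)).find? (fun s =>
      decide ((if side = true then 4 * (a.2.2.length + 1) + 1 - rank le0 leL a s
        else rank le0 leL a s) = r + 1))).map
      (fun s => (s.1, decide (s.2 = side)))).getD ((0, false), false))

theorem ptf_pt : PTF (fun p : (ga × ((al × al) × List al)) × (ℕ × Bool) =>
    pt p.1.2.1.1 p.1.2.1.2 p.1.2.2 p.2) := by
  unfold pt
  fun_prop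

theorem ptf_less {le0 : al × al → Bool} {leL : ga × (al × al) → Bool} (h0 : PTF le0)
    (hL : PTF leL) : PTF (fun p : (ga × ((al × al) × List al)) × (Spot × Spot) =>
      less le0 leL p.1 p.2.1 p.2.2) := by
  have hp1 : PTF (fun p : (ga × ((al × al) × List al)) × (Spot × Spot) =>
      pt p.1.2.1.1 p.1.2.1.2 p.1.2.2 p.2.1.1) :=
    ptf_pt.comp (g := fun p : (ga × ((al × al) × List al)) × (Spot × Spot) => (p.1, p.2.1.1))
      (by fun_prop)
  have hp2 : PTF (fun p : (ga × ((al × al) × List al)) × (Spot × Spot) =>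
      pt p.1.2.1.1 p.1.2.1.2 p.1.2.2 p.2.2.1) :=
    ptf_pt.comp (g := fun p : (ga × ((al × al) × List al)) × (Spot × Spot) => (p.1, p.2.2.1))
      (by fun_prop)
  have ha : PTF (fun p : (ga × ((al × al) × List al)) × (Spot × Spot) => p.1.1) := by fun_prop
  have h12 := h0.comp (hp1.pair hp2)
  have h21 := h0.comp (hp2.pair hp1)
  have l12 := hL.comp (ha.pair (hp1.pair hp2))
  have l21 := hL.comp (ha.pair (hp2.pair hp1))
  unfold less tokLt
  refine PTF.ite (by fun_prop) (PTF.or h21.not (PTF.and h12 (by fun_prop)))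
    (PTF.ite (by fun_prop) l12 l21.not)

theorem ptf_spots {α : Type} [Enc α] {n : α → ℕ} (hn : PTF n) : PTF (fun a => spots (n a)) := by
  unfold spots
  fun_prop

theorem ptf_rank {le0 : al × al → Bool} {leL : ga × (al × al) → Bool} (h0 : PTF le0)
    (hL : PTF leL) : PTF (fun p : (ga × ((al × al) × List al)) × Spot =>
      rank le0 leL p.1 p.2) := by
  unfold rank
  have h1 : PTF (fun p : (ga × ((al × al) × List al)) × Spot =>
      (spots (p.1.2.2.length + 1)).filter (fun s' => less le0 leL p.1 s' p.2)) := by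
    refine PTF.filter' (f := fun (p : (ga × ((al × al) × List al)) × Spot) s' =>
      less le0 leL p.1 s' p.2) ?_ (ptf_spots (by fun_prop))
    exact (ptf_less h0 hL).comp (g := fun q : ((ga × ((al × al) × List al)) × Spot) × Spot =>
      (q.1.1, (q.2, q.1.2))) (by fun_prop)
  exact PTF.add (PTF.const 1) h1.length

theorem ptf_wordOf {le0 : al × al → Bool} {leL : ga × (al × al) → Bool} (h0 : PTF le0)
    (hL : PTF leL) (side : Bool) : PTF (wordOf le0 leL side) := by
  unfold wordOf
  refine PTF.map' (f := fun (a : ga × ((al × al) × List al)) r =>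
    (((spots (a.2.2.length + 1)).find? (fun s =>
      decide ((if side = true then 4 * (a.2.2.length + 1) + 1 - rank le0 leL a s
        else rank le0 leL a s) = r + 1))).map
      (fun s => (s.1, decide (s.2 = side)))).getD ((0, false), false)) ?_ ?_
  swap
  · fun_prop
  refine PTF.optionGetD (PTF.optionMap' (f := fun (_ : (ga × ((al × al) × List al)) × ℕ)
    (s : Spot) => (s.1, decide (s.2 = side))) (by fun_prop) ?_) (PTF.const _)
  refine PTF.find' (f := fun (p : (ga × ((al × al) × List al)) × ℕ) (s : Spot) =>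
      decide ((if side = true then 4 * (p.1.2.2.length + 1) + 1 - rank le0 leL p.1 s
        else rank le0 leL p.1 s) = p.2 + 1)) ?_ (ptf_spots (by fun_prop))
  have hr : PTF (fun q : ((ga × ((al × al) × List al)) × ℕ) × Spot => rank le0 leL q.1.1 q.2) :=
    (ptf_rank h0 hL).comp (g := fun q : ((ga × ((al × al) × List al)) × ℕ) × Spot =>
      (q.1.1, q.2)) (by fun_prop)
  exact PTF.eq (PTF.ite (PTF.const _) (PTF.sub (by fun_prop) hr) hr) (by fun_prop)

/-- The computed words are the words of the table whose positions are the computed ranks. -/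
theorem isWords_wordOf {f : ℕ} {a : ga × ((al × al) × List al)}
    {D : Table (Fin (a.2.2.length + 1)) (Fin f)} (hN : D.N = 4 * (a.2.2.length + 1))
    {le0 : Fin f → al × al → Bool} {leL : Fin f → ga × (al × al) → Bool}
    (hpos : ∀ t i b, D.pos t (i, b) = rank (le0 i) (leL i) a (((t.1 : ℕ), t.2), b)) :
    IsWords D (fun κ => wordOf (le0 κ.1) (leL κ.1) κ.2 a) := by
  refine ⟨fun κ => by simp [wordOf, hN], fun κ t b => ?_⟩
  have h1 := D.one_le t (κ.1, b)
  have h2 := D.le_N t (κ.1, b)
  have hrk : 1 ≤ D.rk κ (D.pos t (κ.1, b)) ∧ D.rk κ (D.pos t (κ.1, b)) ≤ D.N := by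
    unfold Table.rk
    split <;> omega
  have hlt : D.rk κ (D.pos t (κ.1, b)) - 1 < 4 * (a.2.2.length + 1) := by
    rw [← hN]; omega
  unfold wordOf
  rw [List.getElem?_map, List.getElem?_range hlt, Option.map_some]
  congr 1
  have hfind : (spots (a.2.2.length + 1)).find? (fun s =>
      decide ((if κ.2 = true then 4 * (a.2.2.length + 1) + 1 - rank (le0 κ.1) (leL κ.1) a s
        else rank (le0 κ.1) (leL κ.1) a s) = D.rk κ (D.pos t (κ.1, b)) - 1 + 1)) =
      some (((t.1 : ℕ), t.2), b) := by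
    have hmem : (((t.1 : ℕ), t.2), b) ∈ spots (a.2.2.length + 1) := mem_spots.2 t.1.2
    cases h : (spots (a.2.2.length + 1)).find? (fun s =>
      decide ((if κ.2 = true then 4 * (a.2.2.length + 1) + 1 - rank (le0 κ.1) (leL κ.1) a s
        else rank (le0 κ.1) (leL κ.1) a s) = D.rk κ (D.pos t (κ.1, b)) - 1 + 1)) with
    | none =>
      exfalso
      have h3 := List.find?_eq_none.1 h _ hmem
      apply h3
      rw [decide_eq_true_iff, ← hpos, ← hN]
      unfold Table.rk
      unfold Table.rk at hrk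
      split <;> rename_i h4
      · rw [if_pos h4] at hrk; omega
      · rw [if_neg h4] at hrk; omega
    | some s =>
      have h3 := List.find?_some h
      rw [decide_eq_true_iff] at h3
      have h4 := mem_spots.1 (List.mem_of_find?_eq_some h)
      obtain ⟨⟨v, e⟩, b'⟩ := s
      have h5 : rank (le0 κ.1) (leL κ.1) a ((v, e), b') =
          D.pos ((⟨v, h4⟩ : Fin _), e) (κ.1, b') := (hpos ((⟨v, h4⟩ : Fin _), e) κ.1 b').symm
      have h6 := D.one_le ((⟨v, h4⟩ : Fin _), e) (κ.1, b')
      have h7 := D.le_N ((⟨v, h4⟩ : Fin _), e) (κ.1, b')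
      rw [h5, ← hN] at h3
      have h8 : D.pos ((⟨v, h4⟩ : Fin _), e) (κ.1, b') = D.pos t (κ.1, b) := by
        unfold Table.rk at h3
        split at h3 <;> omega
      obtain ⟨h9, h10⟩ := D.inj _ _ _ _ _ h8
      rw [← h9, h10]
  rw [hfind]
  rfl

end words

end Pool.Agent.Work.MP_5296b6_lc
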